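import Pool.Agent.MP_a2da35_lc.Local

/-!
Folded Wronskians: explicit subspace designs.
-/

namespace Pool.Agent.MP_a2da35_lc

open Finset Module

/-- The value at `x` of the polynomial with coefficient vector `v`. -/
def evx {F : Type} [Field F] {D : ℕ} (x : F) : (Fin D → F) →ₗ[F] F where
  toFun v := ∑ a, v a * x ^ (a : ℕ)
  map_add' v w := by simp [add_mul, Finset.sum_add_distrib]
  map_smul' c v := by simp [Finset.mul_sum, mul_assoc]

theorem gk1_tops {F : Type} [Field F] {D d : ℕ} (U : Submodule F (Fin D → F))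
    (hU : finrank F U = d) :
    ∃ (t : Fin d → Fin D) (b : Fin d → Fin D → F), Function.Injective t ∧ (∀ j, b j ∈ U) ∧
      (∀ j, b j (t j) ≠ 0) ∧ ∀ j a, t j < a → b j a = 0 := by
  classical
  let T : Finset (Fin D) := univ.filter fun a => ∃ v ∈ U, v a ≠ 0 ∧ ∀ a', a < a' → v a' = 0
  let φ : U →ₗ[F] (T → F) :=
    LinearMap.pi fun a : T => (LinearMap.proj (a : Fin D)).comp U.subtype
  have hφ : Function.Injective φ := by
    rw [← LinearMap.ker_eq_bot, LinearMap.ker_eq_bot']
    intro v hv
    by_contra hne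
    have hne' : (univ.filter fun a => (v : Fin D → F) a ≠ 0).Nonempty := by
      by_contra h
      apply hne
      ext a
      by_contra ha
      exact h ⟨a, by simpa using ha⟩
    set a := (univ.filter fun a => (v : Fin D → F) a ≠ 0).max' hne' with ha
    have ha1 : (v : Fin D → F) a ≠ 0 := by
      have := Finset.max'_mem _ hne'
      simpa using this
    have ha2 : ∀ a', a < a' → (v : Fin D → F) a' = 0 := by
      intro a' h
      by_contra h'
      have : a' ≤ a := Finset.le_max' _ a' (by simpa using h')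
      exact absurd h (not_lt.mpr this)
    have haT : a ∈ T := by
      simp only [T, mem_filter, mem_univ, true_and]
      exact ⟨v, v.2, ha1, ha2⟩
    have := congrFun hv ⟨a, haT⟩
    exact ha1 this
  have hcard : d ≤ T.card := by
    have := LinearMap.finrank_le_finrank_of_injective hφ
    rw [hU] at this
    simpa using this
  obtain ⟨T', hT', hc⟩ := Finset.exists_subset_card_eq hcard
  let t : Fin d → Fin D := fun j => T'.orderEmbOfFin hc j
  have ht : ∀ j, ∃ v ∈ U, v (t j) ≠ 0 ∧ ∀ a', t j < a' → v a' = 0 := by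
    intro j
    have : t j ∈ T := hT' (Finset.orderEmbOfFin_mem _ _ _)
    simpa [T] using this
  choose b hb1 hb2 hb3 using ht
  exact ⟨t, b, (T'.orderEmbOfFin hc).injective, hb1, hb2, hb3⟩

open Polynomial in
theorem gk1_coeff_prod {F : Type} [Field F] {ι : Type} [DecidableEq ι] (s : Finset ι)
    (f : ι → F[X]) (t : ι → ℕ) (h : ∀ i, (f i).natDegree ≤ t i) :
    (∏ i ∈ s, f i).natDegree ≤ ∑ i ∈ s, t i ∧
      (∏ i ∈ s, f i).coeff (∑ i ∈ s, t i) = ∏ i ∈ s, (f i).coeff (t i) := by
  induction s using Finset.induction_on with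
  | empty => simp
  | insert a s ha ih =>
    rw [Finset.prod_insert ha, Finset.sum_insert ha, Finset.prod_insert ha]
    refine ⟨le_trans natDegree_mul_le (add_le_add (h a) ih.1), ?_⟩
    rw [Polynomial.coeff_mul_add_eq_of_natDegree_le (h a) ih.1, ih.2]

open Polynomial in
theorem gk1_det {F : Type} [Field F] {d : ℕ} (M : Matrix (Fin d) (Fin d) F[X]) (t : Fin d → ℕ)
    (h : ∀ i j, (M i j).natDegree ≤ t j) :
    M.det.natDegree ≤ ∑ j, t j ∧
      M.det.coeff (∑ j, t j) = (Matrix.of fun i j => (M i j).coeff (t j)).det := by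
  constructor
  · rw [Matrix.det_apply']
    refine natDegree_sum_le_of_forall_le _ _ fun σ _ => ?_
    refine le_trans natDegree_mul_le ?_
    have h1 := (gk1_coeff_prod univ (fun j => M (σ j) j) t (fun j => h _ j)).1
    have h2 : (((Equiv.Perm.sign σ : ℤˣ) : ℤ) : F[X]).natDegree = 0 := natDegree_intCast _
    omega
  · rw [Matrix.det_apply', Matrix.det_apply', finsetSum_coeff]
    refine Finset.sum_congr rfl fun σ _ => ?_
    have h1 := (gk1_coeff_prod univ (fun j => M (σ j) j) t (fun j => h _ j)).2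
    rw [← C_eq_intCast, coeff_C_mul, h1]
    simp

open Polynomial in
theorem gk1_dvd {F : Type} [Field F] {d e : ℕ} (M : Matrix (Fin d) (Fin d) F[X]) (β : F)
    (W : Submodule F (Fin d → F)) (hW : finrank F W + e ≤ d)
    (hM : ∀ j, (fun i => (M i j).eval β) ∈ W) : (X - C β) ^ e ∣ M.det := by
  classical
  obtain ⟨W', hc⟩ := W.exists_isCompl
  have hrs : finrank F W + finrank F W' = d := by
    rw [Submodule.finrank_add_eq_of_isCompl hc]
    simp
  let σ : Fin (finrank F W) ⊕ Fin (finrank F W') ≃ Fin d :=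
    finSumFinEquiv.trans (finCongr hrs)
  let B0 : Basis (Fin (finrank F W) ⊕ Fin (finrank F W')) F (Fin d → F) :=
    ((finBasis F W).prod (finBasis F W')).map (Submodule.prodEquivOfIsCompl W W' hc)
  let B : Basis (Fin d) F (Fin d → F) := B0.reindex σ
  let T : Matrix (Fin d) (Fin d) F := B.toMatrix (Pi.basisFun F (Fin d))
  have hT : T.det ≠ 0 := by
    have : IsUnit T.det := by
      have := B.invertibleToMatrix (Pi.basisFun F (Fin d))
      exact Matrix.isUnit_det_of_invertible _
    exact this.ne_zero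
  have hTw : ∀ w : Fin d → F, T.mulVec w = B.repr w := by
    intro w
    have := Basis.toMatrix_mulVec_repr (Pi.basisFun F (Fin d)) B w
    have h2 : ((Pi.basisFun F (Fin d)).repr w : Fin d → F) = w := by
      ext i
      simp
    rw [h2] at this
    exact this
  have hzero : ∀ w ∈ W, ∀ k, B.repr w (σ (Sum.inr k)) = 0 := by
    intro w hw k
    simp only [B, Basis.repr_reindex_apply, Equiv.symm_apply_apply, B0, Basis.map_repr,
      LinearEquiv.trans_apply]
    have : (Submodule.prodEquivOfIsCompl W W' hc).symm w = (⟨w, hw⟩, 0) :=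
      Submodule.prodEquivOfIsCompl_symm_apply_left W W' hc ⟨w, hw⟩
    rw [this]
    simp
  let A : Matrix (Fin d) (Fin d) F[X] := T.map C * M
  let I : Finset (Fin d) := univ.map ⟨fun k => σ (Sum.inr k),
    fun a b hab => Sum.inr_injective (σ.injective hab)⟩
  have hA : ∀ i ∈ I, ∀ j, X - C β ∣ A i j := by
    intro i hi j
    obtain ⟨k, -, rfl⟩ := Finset.mem_map.mp hi
    rw [dvd_iff_isRoot, IsRoot.def]
    have h1 := hzero _ (hM j) k
    rw [← hTw] at h1
    simp only [A, Matrix.mul_apply, eval_finsetSum, Matrix.map_apply, eval_mul, eval_C]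
    exact h1
  have hA' : ∀ i j, ∃ c, A i j = (if i ∈ I then X - C β else 1) * c := by
    intro i j
    split_ifs with hi
    · exact hA i hi j
    · exact ⟨A i j, by simp⟩
  choose A' hA' using hA'
  have hdet : A.det = (X - C β) ^ I.card * (Matrix.of A').det := by
    have : A = Matrix.of fun i j => (if i ∈ I then X - C β else 1) * (Matrix.of A') i j := by
      ext1 i j
      exact hA' i j
    rw [this, Matrix.det_mul_column]
    congr 1
    rw [Finset.prod_ite_mem]
    simp
  have hdet2 : A.det = C T.det * M.det := by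
    simp only [A, Matrix.det_mul]
    congr 1
    exact (RingHom.map_det C T).symm
  have hI : e ≤ I.card := by
    simp only [I, card_map, card_univ, Fintype.card_fin]
    omega
  have h3 : (X - C β) ^ e ∣ C T.det * M.det := by
    rw [← hdet2, hdet]
    exact Dvd.dvd.mul_right (pow_dvd_pow _ hI) _
  exact (IsUnit.dvd_mul_left (isUnit_C.mpr (IsUnit.mk0 _ hT))).mp h3

open Polynomial in
theorem gk {F : Type} [Field F] {D d : ℕ} (γ : F) (hγ : ∀ a < D, ∀ b < D, γ ^ a = γ ^ b → a = b)
    (U : Submodule F (Fin D → F)) (hU : finrank F U = d) (S : Finset F) (e : F → ℕ)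
    (he : ∀ β ∈ S,
      finrank F (U.map (LinearMap.pi fun i : Fin d => evx (γ ^ (i : ℕ) * β))) + e β ≤ d) :
    ∑ β ∈ S, e β ≤ d * D := by
  classical
  obtain ⟨t, b, ht, hbU, hb1, hb2⟩ := gk1_tops U hU
  let M : Matrix (Fin d) (Fin d) F[X] :=
    fun i j => ∑ a : Fin D, monomial (a : ℕ) (b j a * (γ ^ (i : ℕ)) ^ (a : ℕ))
  have hdeg : ∀ i j, (M i j).natDegree ≤ (t j : ℕ) := by
    intro i j
    refine natDegree_sum_le_of_forall_le _ _ fun a _ => ?_
    by_cases ha : t j < a
    · simp [hb2 j a ha]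
    · exact le_trans (natDegree_monomial_le _) (not_lt.mp ha)
  have hco : ∀ i j, (M i j).coeff (t j) = b j (t j) * (γ ^ (t j : ℕ)) ^ (i : ℕ) := by
    intro i j
    simp only [M, finsetSum_coeff, coeff_monomial]
    rw [Finset.sum_eq_single (t j)]
    · rw [if_pos rfl, ← pow_mul, ← pow_mul, mul_comm (i : ℕ)]
    · intro a _ ha
      rw [if_neg]
      exact fun h => ha (Fin.ext h)
    · simp
  obtain ⟨h1, h2⟩ := gk1_det M (fun j => t j) hdeg
  have hne : M.det ≠ 0 := by
    intro h0
    rw [h0, coeff_zero] at h2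
    have h3 : (Matrix.of fun i j => (M i j).coeff (t j)) =
        Matrix.of fun i j => b j (t j) *
          (Matrix.vandermonde fun j : Fin d => γ ^ (t j : ℕ)).transpose i j := by
      ext i j
      simp [hco, Matrix.vandermonde_apply]
    rw [h3, Matrix.det_mul_row, Matrix.det_transpose] at h2
    refine mul_ne_zero (Finset.prod_ne_zero_iff.mpr fun j _ => hb1 j) ?_ h2.symm
    rw [Matrix.det_vandermonde_ne_zero_iff]
    intro j k hjk
    exact ht (Fin.ext (hγ _ (t j).2 _ (t k).2 hjk))
  have hdvd : ∀ β ∈ S, (X - C β) ^ e β ∣ M.det := by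
    intro β hβ
    refine gk1_dvd M β _ (he β hβ) fun j => ⟨b j, hbU j, ?_⟩
    ext i
    simp only [LinearMap.pi_apply, evx, LinearMap.coe_mk, AddHom.coe_mk, M, eval_finsetSum,
      eval_monomial, mul_pow, mul_assoc]
  have hprod : ∏ β ∈ S, (X - C β) ^ e β ∣ M.det := by
    refine Finset.prod_dvd_of_coprime ?_ hdvd
    intro x _ y _ hxy
    exact (pairwise_coprime_X_sub_C (s := fun x : F => x) Function.injective_id hxy).pow
  have h4 := natDegree_le_of_dvd hprod hne
  rw [natDegree_prod_of_monic _ _ fun β _ => (monic_X_sub_C β).pow _] at h4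
  have h5 : ∑ β ∈ S, ((X - C β) ^ e β).natDegree = ∑ β ∈ S, e β :=
    Finset.sum_congr rfl fun β _ => by simp [(monic_X_sub_C β).natDegree_pow]
  have h6 : ∑ j, (t j : ℕ) ≤ d * D := by
    calc ∑ j, (t j : ℕ) ≤ ∑ _j : Fin d, D := Finset.sum_le_sum fun j _ => (t j).2.le
      _ = d * D := by simp
  omega

/-!
Consequences of the Wronskian bound, and the local lemma without a condition on zero.
-/

theorem gk_idx {F ι : Type} [Field F] {D A d : ℕ} (γ : F)
    (hγ : ∀ a < A, ∀ b < A, γ ^ a = γ ^ b → a = b) (hD : D ≤ A)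
    (U : Submodule F (Fin D → F)) (hU : finrank F U = d) (T : Finset ι) (φ e : ι → ℕ)
    (hφ : ∀ t ∈ T, φ t < A) (hi : ∀ t ∈ T, ∀ t' ∈ T, φ t = φ t' → t = t')
    (he : ∀ t ∈ T,
      finrank F (U.map (LinearMap.pi fun i : Fin d => evx (γ ^ (i : ℕ) * γ ^ φ t))) + e t ≤ d) :
    ∑ t ∈ T, e t ≤ d * D := by
  classical
  have h1 := gk γ (fun a ha b hb => hγ a (ha.trans_le hD) b (hb.trans_le hD)) U hU
    (T.image fun t => γ ^ φ t)
    (fun β => d - finrank F (U.map (LinearMap.pi fun i : Fin d => evx (γ ^ (i : ℕ) * β))))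
    (fun β _ => by
      have := (Submodule.finrank_map_le
        (LinearMap.pi fun i : Fin d => evx (D := D) (γ ^ (i : ℕ) * β)) U).trans hU.le
      omega)
  rw [sum_image fun t ht t' ht' h => hi t ht t' ht' (hγ _ (hφ t ht) _ (hφ t' ht') h)] at h1
  refine le_trans (sum_le_sum fun t ht => ?_) h1
  have := he t ht
  omega

theorem gk_rank_null {F V W : Type} [Field F] [AddCommGroup V] [Module F V]
    [FiniteDimensional F V] [AddCommGroup W] [Module F W] (U K : Submodule F V) (f : V →ₗ[F] W)
    (hK : K ≤ LinearMap.ker f) :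
    finrank F (U.map f) + finrank F (U ⊓ K : Submodule F V) ≤ finrank F U := by
  have h1 := LinearMap.finrank_range_add_finrank_ker (f.domRestrict U)
  rw [LinearMap.range_domRestrict, LinearMap.ker_domRestrict,
    ← Submodule.finrank_map_subtype_eq, Submodule.map_comap_subtype] at h1
  have h2 : finrank F (U ⊓ K : Submodule F V) ≤ finrank F (U ⊓ LinearMap.ker f : Submodule F V) :=
    Submodule.finrank_mono (inf_le_inf_left U hK)
  omega

theorem gk_divmod {σ x y s t : ℕ} (hs : s < σ) (ht : t < σ) (h : x * σ + s = y * σ + t) :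
    x = y ∧ s = t := by
  have h1 : s = t := by
    have := congrArg (· % σ) h
    simpa [Nat.mul_add_mod_of_lt hs, Nat.mul_add_mod_of_lt ht] using this
  subst h1
  exact ⟨Nat.eq_of_mul_eq_mul_right (by omega) (Nat.add_right_cancel h), rfl⟩

theorem gk_ann {F : Type} [Field F] {d r : ℕ} (c : Fin r → Fin d) (hc : Function.Injective c)
    (W : Submodule F (Fin d → F)) (X : Set (Fin r → F))
    (hX : ∀ x ∈ X, ∀ w ∈ W, ∑ j, x j * w (c j) = 0) :
    finrank F W + finrank F (Submodule.span F X) ≤ d := by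
  classical
  let ψ : (Fin r → F) →ₗ[F] Module.Dual F (Fin d → F) :=
    LinearMap.mk₂ F (fun x w => ∑ j, x j * w (c j))
      (fun x y w => by simp [add_mul, sum_add_distrib])
      (fun a x w => by simp [mul_sum, mul_assoc])
      (fun x v w => by simp [mul_add, sum_add_distrib])
      (fun a x w => by simp [mul_sum, mul_left_comm])
  have hψ : Function.Injective ψ := by
    rw [injective_iff_map_eq_zero]
    intro x hx
    funext j
    have h1 : ∑ k, x k * (Pi.single (c j) (1 : F) : Fin d → F) (c k) = 0 :=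
      LinearMap.congr_fun hx (Pi.single (c j) 1)
    rw [sum_eq_single j (fun k _ hk => by rw [Pi.single_eq_of_ne (hc.ne hk), mul_zero])
      (fun h => absurd (mem_univ j) h)] at h1
    simpa using h1
  have h1 : (Submodule.span F X).map ψ ≤ W.dualAnnihilator := by
    rw [Submodule.map_le_iff_le_comap, Submodule.span_le]
    intro x hx
    exact (Submodule.mem_dualAnnihilator _).2 fun w hw => hX x hx w hw
  have h2 := Submodule.finrank_mono h1
  rw [← (Submodule.equivMapOfInjective ψ hψ _).finrank_eq] at h2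
  have h3 := Subspace.finrank_add_finrank_dualAnnihilator_eq W
  rw [Module.finrank_fin_fun] at h3
  omega

theorem gk_design {F : Type} [Field F] {D A n σ o τ h : ℕ} (γ : F)
    (hγ : ∀ a < A, ∀ b < A, γ ^ a = γ ^ b → a = b) (hD : D ≤ A) (hA : n * σ < A)
    (hσ : o + τ ≤ σ) (hτ : h ≤ τ) (K : Fin n → Submodule F (Fin D → F))
    (hK : ∀ x, ∀ v ∈ K x, ∀ j < τ, evx (γ ^ ((x : ℕ) * σ + o + j)) v = 0) {ρ : ℝ}
    (hρ : (D : ℝ) ≤ ρ * n * (τ - h + 1 : ℕ)) : Design K ρ h := by
  intro U hU
  rcases Nat.eq_zero_or_pos (finrank F U) with h0 | h0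
  · have : ∀ x, finrank F (U ⊓ K x : Submodule F _) = 0 := fun x =>
      Nat.eq_zero_of_le_zero ((Submodule.finrank_mono inf_le_left).trans h0.le)
    simp [this, h0]
  obtain ⟨d, hd⟩ : ∃ d, finrank F U = d := ⟨_, rfl⟩
  rw [hd] at hU h0 ⊢
  have h1 := gk_idx γ hγ hD U hd ((univ : Finset (Fin n)) ×ˢ range (τ - d + 1))
    (fun t => (t.1 : ℕ) * σ + o + t.2) (fun t => finrank F (U ⊓ K t.1 : Submodule F _))
    (fun t ht => by
      have h2 := mem_range.1 (mem_product.1 ht).2
      have h3 : ((t.1 : ℕ) + 1) * σ ≤ n * σ := Nat.mul_le_mul_right σ t.1.2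
      rw [add_mul, one_mul] at h3
      omega)
    (fun t ht t' ht' h => by
      have h2 := mem_range.1 (mem_product.1 ht).2
      have h3 := mem_range.1 (mem_product.1 ht').2
      simp only [add_assoc] at h
      have h4 := gk_divmod (by omega) (by omega) h
      exact Prod.ext (Fin.ext h4.1) (by omega))
    (fun t ht => by
      have h2 := mem_range.1 (mem_product.1 ht).2
      refine (gk_rank_null U _ _ fun v hv => ?_).trans hd.le
      rw [LinearMap.mem_ker]
      funext i
      have h3 := hK t.1 v hv (t.2 + i) (by have := i.2; omega)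
      rw [← add_assoc, pow_add, mul_comm] at h3
      exact h3)
  rw [sum_product] at h1
  replace h1 : ∑ x, ∑ _s ∈ range (τ - d + 1), finrank F (U ⊓ K x : Submodule F _) ≤ d * D := h1
  simp only [Finset.sum_const, card_range, smul_eq_mul, ← Finset.mul_sum] at h1
  have h2 : (τ - h + 1) * ∑ x, finrank F (U ⊓ K x : Submodule F _) ≤ d * D :=
    (Nat.mul_le_mul_right _ (by omega)).trans h1
  have h3 : ((τ - h + 1 : ℕ) : ℝ) * ∑ x, (finrank F (U ⊓ K x : Submodule F _) : ℝ) ≤ d * D := by
    exact_mod_cast h2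
  have h4 : (0 : ℝ) < (τ - h + 1 : ℕ) := by exact_mod_cast Nat.succ_pos _
  have h5 := mul_le_mul_of_nonneg_left hρ (Nat.cast_nonneg d : (0 : ℝ) ≤ d)
  refine le_of_mul_le_mul_left (h3.trans (h5.trans_eq ?_)) h4
  rw [Fintype.card_fin]
  ring

theorem gk_dual {F : Type} [Field F] {D A ν σ r d : ℕ} (γ : F)
    (hγ : ∀ a < A, ∀ b < A, γ ^ a = γ ^ b → a = b) (hD : D ≤ A) (hA : (ν + 1) * σ < A)
    (hr : r < d) (hσ : d ≤ σ) (U : Submodule F (Fin D → F)) (hU : finrank F U = d)
    (X : ℕ → Set (Fin (r + 1) → F))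
    (hX : ∀ m < ν, ∀ x ∈ X m, ∀ v ∈ U, ∑ j, x j * evx (γ ^ (m * σ + σ + (j : ℕ))) v = 0) :
    (∑ m ∈ range ν, finrank F (Submodule.span F (X m))) * (d - r) ≤ d * D := by
  have h1 := gk_idx γ hγ hD U hU (range ν ×ˢ range (d - r))
    (fun t => t.1 * σ + (σ - t.2)) (fun t => finrank F (Submodule.span F (X t.1)))
    (fun t ht => by
      have h2 := mem_range.1 (mem_product.1 ht).1
      have h3 : (t.1 + 1) * σ ≤ (ν + 1) * σ := Nat.mul_le_mul_right σ (by omega)
      rw [add_mul, one_mul] at h3
      omega)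
    (fun t ht t' ht' h => by
      have h2 := mem_range.1 (mem_product.1 ht).2
      have h3 := mem_range.1 (mem_product.1 ht').2
      have h4 := gk_divmod (σ := σ) (x := t.1) (y := t'.1) (s := σ - t.2 - 1) (t := σ - t'.2 - 1)
        (by omega) (by omega) (by omega)
      exact Prod.ext h4.1 (by omega))
    (fun t ht => by
      have h2 := mem_range.1 (mem_product.1 ht).1
      have h3 := mem_range.1 (mem_product.1 ht).2
      refine gk_ann (fun j : Fin (r + 1) => (⟨t.2 + j, by have := j.2; omega⟩ : Fin d))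
        (fun j k hjk => Fin.ext (by simpa using hjk)) _ _ fun x hx w hw => ?_
      obtain ⟨v, hv, rfl⟩ := Submodule.mem_map.1 hw
      refine Eq.trans (sum_congr rfl fun j _ => ?_) (hX t.1 h2 x hx v hv)
      have h4 : t.2 + j + (t.1 * σ + (σ - t.2)) = t.1 * σ + σ + j := by omega
      simp only [LinearMap.pi_apply, ← pow_add, h4])
  rw [sum_product] at h1
  replace h1 : ∑ m ∈ range ν, ∑ _s ∈ range (d - r), finrank F (Submodule.span F (X m)) ≤ d * D :=
    h1
  simp only [Finset.sum_const, card_range, smul_eq_mul, ← Finset.mul_sum] at h1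
  rwa [mul_comm]

theorem two_pow_inj {p A : ℕ} (h : 2 ^ A < p) :
    ∀ a < A + 1, ∀ b < A + 1, (2 : ZMod p) ^ a = 2 ^ b → a = b := by
  intro a ha b hb hab
  have h1 : ((2 ^ a : ℕ) : ZMod p) = ((2 ^ b : ℕ) : ZMod p) := by exact_mod_cast hab
  have h2 : ∀ c < A + 1, 2 ^ c < p := fun c hc =>
    (Nat.pow_le_pow_right (by norm_num) (by omega)).trans_lt h
  rw [ZMod.natCast_eq_natCast_iff', Nat.mod_eq_of_lt (h2 a ha), Nat.mod_eq_of_lt (h2 b hb)] at h1
  exact Nat.pow_right_injective le_rfl h1

theorem local_lemma' {F V S Ω : Type} [Field F] [AddCommGroup V] [Module F V] [Finite V]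
    [AddCommGroup S] [Module F S] [DecidableEq S] [Fintype Ω]
    (ev : Ω → V →ₗ[F] S) (ρ : ℝ) (h H : ℕ) (hD : Design (fun m => LinearMap.ker (ev m)) ρ h)
    (hH : 1 ≤ H) (hρ : 0 ≤ ρ) (hs : ρ * (4200 * H ^ 3) ≤ 1) (hV : h < Nat.card V)
    (P : Finset V) (hP : P.card ≤ h)
    (hd : ∀ Q ⊆ P, ∀ r, 1 ≤ r → finrank F (Submodule.span F (Q : Set V)) ≤ r →
      Q.card ≤ 18 * H ^ 4 * r) :
    Fintype.card Ω * P.card ≤ 8 * ∑ m, (P.image (ev m)).card := by
  classical
  have : Module.Finite F V := Module.Finite.of_finite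
  obtain ⟨u, hu⟩ : ∃ u, u ∉ P := by
    by_contra hc
    push Not at hc
    have := Fintype.ofFinite V
    rw [Nat.card_eq_fintype_card, ← card_univ, ← eq_univ_of_forall hc] at hV
    omega
  have hH' : (1 : ℝ) ≤ H := by exact_mod_cast hH
  have hlog : Real.log (2 * ((6 * H ^ 2 : ℕ) : ℝ) ^ 2) ≤ 7 * H := by
    have h1 : (2 * ((6 * H ^ 2 : ℕ) : ℝ) ^ 2) = 2 ^ 3 * 3 ^ 2 * (H : ℝ) ^ 4 := by
      push_cast
      ring
    have h2 := Real.log_le_sub_one_of_pos (show (0 : ℝ) < 2 by norm_num)
    have h3 := Real.log_le_sub_one_of_pos (show (0 : ℝ) < 3 by norm_num)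
    have h4 := Real.log_le_sub_one_of_pos (show (0 : ℝ) < H by linarith)
    rw [h1, Real.log_mul (by norm_num) (by positivity), Real.log_mul (by norm_num) (by norm_num),
      Real.log_pow, Real.log_pow, Real.log_pow]
    push_cast
    linarith
  have hs' : ρ * ((6 * H ^ 2 : ℕ) : ℝ) * Real.log (2 * ((6 * H ^ 2 : ℕ) : ℝ) ^ 2) ≤ 1 / 100 := by
    refine (mul_le_mul_of_nonneg_left hlog (mul_nonneg hρ (Nat.cast_nonneg _))).trans ?_
    push_cast
    linarith
  have h1 := local_lemma ev ρ h (6 * H ^ 2) hD (Nat.mul_pos (by norm_num) (pow_pos hH 2)) hρ hs'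
    (P.image fun v => v - u) (card_image_le.trans hP) (fun Q' hQ' => by
      obtain ⟨Q, hQ, rfl⟩ := subset_image_iff.1 hQ'
      rcases Nat.eq_zero_or_pos
        (finrank F (Submodule.span F ((Q.image fun v => v - u : Finset V) : Set V))) with h0 | h0
      · rw [Submodule.finrank_eq_zero, Submodule.span_eq_bot] at h0
        have h2 : Q = ∅ := eq_empty_of_forall_notMem fun v hv =>
          hu (sub_eq_zero.1 (h0 (v - u) (mem_coe.2 (mem_image_of_mem _ hv))) ▸ hQ hv)
        simp [h2]
      · have h2 : Submodule.span F (Q : Set V) ≤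
            Submodule.span F ((Q.image fun v => v - u : Finset V) : Set V) ⊔
              Submodule.span F {u} := by
          rw [Submodule.span_le]
          intro v hv
          have h3 : v = v - u + u := (sub_add_cancel v u).symm
          rw [h3]
          exact Submodule.add_mem_sup
            (Submodule.subset_span (mem_coe.2 (mem_image_of_mem _ (mem_coe.1 hv))))
            (Submodule.mem_span_singleton_self u)
        have h3 := (Submodule.finrank_mono h2).trans
          (Submodule.finrank_add_le_finrank_add_finrank _ _)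
        have h4 : finrank F (Submodule.span F ({u} : Set V)) ≤ 1 :=
          (finrank_span_le_card ({u} : Set V)).trans (by simp)
        have h5 := hd Q hQ (2 * finrank F
          (Submodule.span F ((Q.image fun v => v - u : Finset V) : Set V))) (by omega) (by omega)
        refine card_image_le.trans (h5.trans_eq ?_)
        ring)
  rw [card_image_of_injective _ sub_left_injective] at h1
  refine h1.trans_eq (congrArg (8 * ·) (sum_congr rfl fun m _ => ?_))
  rw [← card_image_of_injective (P.image (ev m)) (sub_left_injective (b := ev m u)), image_image,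
    image_image]
  congr 2
  funext v
  exact map_sub _ _ _

end Pool.Agent.MP_a2da35_lc
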