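import Pool.Agent.MP_a2da35_lc.Det.Col
import Pool.Agent.MP_a2da35_lc.Det.GK

/-!
The right side: polynomials of degree below `D` over `ZMod q`.
-/

namespace Pool.Agent.MP_a2da35_lc

open Finset Module

/-- The value at `2 ^ s` of the polynomial whose coefficients are the digits of `v`. -/
def pev (q D A v s : ℕ) : ℕ :=
  ((List.range D).map fun a => dig q D a v * 2 ^ (min s A * min a D)).sum

/-- The values in block `j`. -/
def blkv (q D A h v j : ℕ) : ℕ := pack q (2 * h) fun i => pev q D A v (j * (2 * h) + i) % q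

/-- The colours of the blocks of `v` are the digits of `c`. -/
def KeptR (q D A h L Q : ℕ) (col : ℕ → ℕ) (c v : ℕ) : Prop :=
  ∀ j < L, col (blkv q D A h v j) = dig Q L j c

/-- The polynomial `v` is adjacent to the vector `(1, x)` in cell `m`. -/
def AdjT (q D A d r m x v : ℕ) : Prop :=
  (pev q D A v (m * d + d) +
    ((List.range r).map fun j => dig q r j x * pev q D A v (m * d + d + (j + 1))).sum) % q = 0

/-- The rank of the vectors `(1, x)`. -/
noncomputable def rk1 (q r : ℕ) (X : Finset ℕ) : ℕ :=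
  finrank (ZMod q) (Submodule.span (ZMod q)
    ((fun x => (Fin.cons 1 (vec q r x) : Fin (r + 1) → ZMod q)) '' (X : Set ℕ)))

theorem r1_pev {q D A : ℕ} [Fact q.Prime] (v s : ℕ) :
    (pev q D A v s : ZMod q) = evx ((2 : ZMod q) ^ (min s A)) (vec q D v) := by
  unfold pev
  rw [← List.sum_toFinset _ List.nodup_range, List.toFinset_range, Finset.sum_range]
  change _ = ∑ a : Fin D, vec q D v a * ((2 : ZMod q) ^ (min s A)) ^ (a : ℕ)
  push_cast
  refine Finset.sum_congr rfl fun a _ => ?_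
  rw [min_eq_left a.2.le, pow_mul]
  rfl

/-- The linear functional behind `AdjT`. -/
noncomputable def r1_fun (q D A d r m : ℕ) [Fact q.Prime] (y : Fin (r + 1) → ZMod q) :
    (Fin D → ZMod q) →ₗ[ZMod q] ZMod q :=
  ∑ j : Fin (r + 1), y j • evx ((2 : ZMod q) ^ (min (m * d + d + (j : ℕ)) A))

theorem r1_fun_apply {q D A d r m : ℕ} [Fact q.Prime] (y : Fin (r + 1) → ZMod q)
    (w : Fin D → ZMod q) : r1_fun q D A d r m y w =
      ∑ j : Fin (r + 1), y j * evx ((2 : ZMod q) ^ (min (m * d + d + (j : ℕ)) A)) w := by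
  simp [r1_fun, LinearMap.sum_apply]

theorem r1_adj {q D A d r m : ℕ} [Fact q.Prime] (x v : ℕ) :
    AdjT q D A d r m x v ↔ r1_fun q D A d r m (Fin.cons 1 (vec q r x)) (vec q D v) = 0 := by
  unfold AdjT
  rw [← Nat.dvd_iff_mod_eq_zero, ← ZMod.natCast_eq_zero_iff, r1_fun_apply, Fin.sum_univ_succ,
    ← List.sum_toFinset _ List.nodup_range, List.toFinset_range, Finset.sum_range]
  push_cast
  simp only [r1_pev, Fin.cons_zero, Fin.cons_succ, one_mul, Fin.val_zero, add_zero, Fin.val_succ]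
  rfl

theorem rk_le_rk1 {q r : ℕ} (hq : q.Prime) (X : Finset ℕ) : rk q r X ≤ rk1 q r X := by
  have := Fact.mk hq
  unfold rk rk1
  let π : (Fin (r + 1) → ZMod q) →ₗ[ZMod q] (Fin r → ZMod q) :=
    LinearMap.funLeft (ZMod q) (ZMod q) Fin.succ
  have h : vec q r '' (X : Set ℕ) =
      π '' ((fun x => (Fin.cons 1 (vec q r x) : Fin (r + 1) → ZMod q)) '' (X : Set ℕ)) := by
    rw [Set.image_image]
    refine Set.image_congr fun x _ => ?_
    funext j
    simp [π, LinearMap.funLeft_apply]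
  rw [h, ← Submodule.map_span]
  exact Submodule.finrank_map_le _ _

theorem one_le_rk1 {q r : ℕ} (hq : q.Prime) {X : Finset ℕ} (hX : X.Nonempty) :
    1 ≤ rk1 q r X := by
  have := Fact.mk hq
  unfold rk1
  obtain ⟨x, hx⟩ := hX
  rw [Nat.one_le_iff_ne_zero]
  intro h
  rw [Submodule.finrank_eq_zero] at h
  have h1 : (Fin.cons 1 (vec q r x) : Fin (r + 1) → ZMod q) ∈ (⊥ : Submodule (ZMod q) _) := by
    rw [← h]
    exact Submodule.subset_span ⟨x, hx, rfl⟩
  have h2 := congrFun ((Submodule.mem_bot _).1 h1) 0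
  simp at h2

theorem two_le_rk1 {q r : ℕ} (hq : q.Prime) {X : Finset ℕ} (hX : X ⊆ range (q ^ r))
    (h2 : 2 ≤ X.card) : 2 ≤ rk1 q r X := by
  have := Fact.mk hq
  unfold rk1
  obtain ⟨x, hx, y, hy, hxy⟩ := Finset.one_lt_card.1 h2
  set W := Submodule.span (ZMod q)
    ((fun x => (Fin.cons 1 (vec q r x) : Fin (r + 1) → ZMod q)) '' (X : Set ℕ))
  have mx : (Fin.cons 1 (vec q r x) : Fin (r + 1) → ZMod q) ∈ W :=
    Submodule.subset_span ⟨x, hx, rfl⟩
  have my : (Fin.cons 1 (vec q r y) : Fin (r + 1) → ZMod q) ∈ W :=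
    Submodule.subset_span ⟨y, hy, rfl⟩
  have hli : LinearIndependent (ZMod q) ![(⟨_, mx⟩ : W), ⟨_, my⟩] := by
    rw [LinearIndependent.pair_iff]
    intro s t hst
    have h0 : ∀ j, s * (Fin.cons 1 (vec q r x) : Fin (r + 1) → ZMod q) j +
        t * (Fin.cons 1 (vec q r y) : Fin (r + 1) → ZMod q) j = 0 := fun j => by
      have := congrFun (congrArg Subtype.val hst) j
      simpa using this
    have h1 := h0 0
    simp only [Fin.cons_zero, mul_one] at h1
    have ht : t = -s := by linear_combination h1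
    by_cases hs : s = 0
    · exact ⟨hs, by rw [ht, hs, neg_zero]⟩
    · exfalso
      apply hxy
      refine vec_injOn (p := q) (a := r) (hX hx) (hX hy) ?_
      funext j
      have h3 := h0 j.succ
      simp only [Fin.cons_succ] at h3
      rw [ht] at h3
      exact mul_left_cancel₀ hs (by linear_combination h3)
  simpa using hli.fintype_card_le_finrank

theorem rk1_mono {q r : ℕ} (hq : q.Prime) {X Y : Finset ℕ} (h : X ⊆ Y) :
    rk1 q r X ≤ rk1 q r Y := by
  have := Fact.mk hq
  unfold rk1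
  exact Submodule.finrank_mono (Submodule.span_mono (Set.image_mono (by exact_mod_cast h)))

open Classical in
theorem right_yes {q D A h L Q d r ν k : ℕ} (hq : q.Prime) {col : ℕ → ℕ} (hc : ∀ l, col l < Q)
    (hν : ν ≤ D) (hk : k * Q ^ L ≤ q ^ (D - ν)) (xs : ℕ → ℕ) :
    ∃ c < Q ^ L, k ≤ ((range (q ^ D)).filter fun v =>
      KeptR q D A h L Q col c v ∧ ∀ m < ν, AdjT q D A d r m (xs m) v).card := by
  have := Fact.mk hq
  have hQ : 0 < Q := lt_of_le_of_lt (Nat.zero_le _) (hc 0)
  let T : (Fin D → ZMod q) →ₗ[ZMod q] (Fin ν → ZMod q) :=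
    LinearMap.pi fun m : Fin ν => r1_fun q D A d r m (Fin.cons 1 (vec q r (xs m)))
  have hker : D - ν ≤ finrank (ZMod q) (LinearMap.ker T) := by
    have h1 := LinearMap.finrank_range_add_finrank_ker T
    have h2 : finrank (ZMod q) (LinearMap.range T) ≤ ν := by
      simpa using Submodule.finrank_le (LinearMap.range T)
    simp only [finrank_fintype_fun_eq_card, Fintype.card_fin] at h1
    omega
  set W := (range (q ^ D)).filter fun v => ∀ m < ν, AdjT q D A d r m (xs m) v with hW
  have hcard : q ^ (D - ν) ≤ W.card := by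
    have h1 : Nat.card (LinearMap.ker T) = q ^ finrank (ZMod q) (LinearMap.ker T) := by
      rw [Module.natCard_eq_pow_finrank (K := ZMod q), Nat.card_zmod]
    have h2 : ((LinearMap.ker T : Submodule (ZMod q) _) : Set (Fin D → ZMod q)) ⊆
        vec q D '' (W : Set ℕ) := by
      intro w hw
      obtain ⟨l, hl, rfl⟩ := vec_surj hq.pos w
      refine ⟨l, ?_, rfl⟩
      rw [hW, Finset.mem_coe, mem_filter]
      refine ⟨mem_range.2 hl, fun m hm => ?_⟩
      rw [r1_adj]
      exact congrFun (LinearMap.mem_ker.1 hw) ⟨m, hm⟩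
    have h3 := Set.ncard_le_ncard h2 (W.finite_toSet.image _)
    have h4 := Set.ncard_image_le (f := vec q D) W.finite_toSet
    rw [Set.ncard_coe_finset] at h4
    calc q ^ (D - ν) ≤ q ^ finrank (ZMod q) (LinearMap.ker T) :=
          Nat.pow_le_pow_right hq.pos hker
      _ = Nat.card (LinearMap.ker T) := h1.symm
      _ ≤ W.card := le_trans h3 h4
  obtain ⟨c, hc1, hc2⟩ := Finset.exists_le_card_fiber_of_mul_le_card_of_maps_to
    (s := W) (t := range (Q ^ L)) (f := fun v => pack Q L fun j => col (blkv q D A h v j))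
    (n := k) (fun v _ => mem_range.2 (pack_lt fun j _ => hc _))
    ⟨0, mem_range.2 (pow_pos hQ _)⟩
    (by rw [card_range, mul_comm]; exact hk.trans hcard)
  refine ⟨c, mem_range.1 hc1, hc2.trans (card_le_card fun v hv => ?_)⟩
  rw [mem_filter, hW, mem_filter] at hv
  refine mem_filter.2 ⟨hv.1.1, fun j hj => ?_, hv.1.2⟩
  rw [← hv.2, dig_pack (fun j _ => hc _) hj]

theorem right_dual {q D A d r ν : ℕ} (hq : q.Prime) (hA : 2 ^ A < q) (h1 : D ≤ A)
    (h2 : (ν + 1) * d ≤ A) (h3 : r < d) (B : Finset ℕ) (hB : d ≤ rk q D B) (X : ℕ → Finset ℕ)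
    (hX : ∀ m < ν, ∀ x ∈ X m, ∀ v ∈ B, AdjT q D A d r m x v) :
    (∑ m ∈ range ν, rk1 q r (X m)) * (d - r) ≤ d * D := by
  have := Fact.mk hq
  set S := Submodule.span (ZMod q) (vec q D '' (B : Set ℕ))
  obtain ⟨f, hf⟩ := exists_linearIndependent_of_le_finrank (R := ZMod q) (M := S) hB
  have hf' : LinearIndependent (ZMod q) (fun i => (f i : Fin D → ZMod q)) :=
    hf.map' S.subtype (Submodule.ker_subtype S)
  have hU : finrank (ZMod q)
      (Submodule.span (ZMod q) (Set.range fun i => (f i : Fin D → ZMod q))) = d := by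
    rw [finrank_span_eq_card hf', Fintype.card_fin]
  have hUS : Submodule.span (ZMod q) (Set.range fun i => (f i : Fin D → ZMod q)) ≤ S := by
    rw [Submodule.span_le]
    rintro _ ⟨i, rfl⟩
    exact (f i).2
  refine gk_dual (A := A + 1) (σ := d) (2 : ZMod q) (two_pow_inj hA) (by omega) (by omega) h3
    le_rfl _ hU
    (fun m => (fun x => (Fin.cons 1 (vec q r x) : Fin (r + 1) → ZMod q)) '' (X m : Set ℕ)) ?_
  rintro m hm _ ⟨x, hx, rfl⟩ v hv
  have hS : S ≤ LinearMap.ker (r1_fun q D A d r m (Fin.cons 1 (vec q r x))) := by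
    rw [Submodule.span_le]
    rintro _ ⟨b, hb, rfl⟩
    exact LinearMap.mem_ker.2 ((r1_adj x b).1 (hX m hm x hx b hb))
  have h0 := LinearMap.mem_ker.1 (hS (hUS hv))
  rw [r1_fun_apply] at h0
  rw [← h0]
  refine Finset.sum_congr rfl fun j _ => ?_
  have hj : m * d + d + (j : ℕ) ≤ A := by
    have h4 : (m + 1) * d ≤ ν * d := Nat.mul_le_mul_right _ hm
    have h5 := j.2
    rw [add_mul, one_mul] at h2 h4
    omega
  rw [min_eq_left hj]

/-!
Kept polynomials have large rank.
-/

theorem r2_pev {q D A v s : ℕ} [Fact q.Prime] (hs : s ≤ A) :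
    ((pev q D A v s : ℕ) : ZMod q) = evx ((2 : ZMod q) ^ s) (vec q D v) := by
  unfold pev
  rw [← List.sum_toFinset _ List.nodup_range, List.toFinset_range, min_eq_left hs]
  push_cast
  show _ = ∑ a : Fin D, ((dig q D a v : ℕ) : ZMod q) * ((2 : ZMod q) ^ s) ^ (a : ℕ)
  rw [Finset.sum_range]
  exact Finset.sum_congr rfl fun a _ => by rw [min_eq_left a.2.le, pow_mul]

theorem r2_mono {q D : ℕ} [Fact q.Prime] {X Y : Finset ℕ} (h : X ⊆ Y) : rk q D X ≤ rk q D Y :=
  Submodule.finrank_mono (Submodule.span_mono (Set.image_mono (coe_subset.2 h)))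

theorem right_rank {q D A h L Q H d : ℕ} (hq : q.Prime) (hA : 2 ^ A < q) {col : ℕ → ℕ}
    (hc : ColOk q (2 * h) (2 * H ^ 4) h Q col) (hH : 1 ≤ H) (h1 : D ≤ A) (h2 : L * (2 * h) ≤ A)
    (h3 : 4200 * H ^ 3 * D ≤ L * h) (h4 : h ≤ A) (h5 : 0 < D) (h6 : 18 * H ^ 4 * d < h)
    (h7 : 0 < d) (c : ℕ) (B : Finset ℕ) (hB : B ⊆ range (q ^ D)) (hB1 : B.card = h)
    (hB2 : ∀ v ∈ B, KeptR q D A h L Q col c v) : d ≤ rk q D B := by
  classical
  have := Fact.mk hq
  by_contra hlt
  obtain ⟨B', hB', hm⟩ := exists_min_image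
    (B.powerset.filter fun X => ∃ r, 1 ≤ r ∧ rk q D X ≤ r ∧ 18 * H ^ 4 * r < X.card) card
    ⟨B, mem_filter.2 ⟨mem_powerset_self B, d, h7, by omega, by omega⟩⟩
  obtain ⟨hsub, r, hr, hrk, hcard⟩ := mem_filter.1 hB'
  rw [mem_powerset] at hsub
  obtain ⟨x, hx⟩ : B'.Nonempty := card_pos.1 (by omega)
  have hc1 := card_erase_of_mem hx
  set X := B'.erase x with hX
  have hXB : X ⊆ B := (erase_subset _ _).trans hsub
  have hXh : X.card ≤ h := hB1 ▸ card_le_card hXB
  have hXr : rk q D X ≤ r := (r2_mono (erase_subset _ _)).trans hrk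
  have hinj : Set.InjOn (vec q D) (X : Set ℕ) :=
    vec_injOn.mono (coe_subset.2 (hXB.trans hB))
  set ev : Fin L → (Fin D → ZMod q) →ₗ[ZMod q] Fin (2 * h) → ZMod q := fun j =>
    LinearMap.pi fun i : Fin (2 * h) => evx ((2 : ZMod q) ^ ((j : ℕ) * (2 * h) + i)) with hev
  have hH3 : (0 : ℝ) < 4200 * H ^ 3 := by positivity
  have hdes : Design (fun m => LinearMap.ker (ev m)) (1 / (4200 * H ^ 3)) h := by
    refine gk_design (A := A + 1) (σ := 2 * h) (o := 0) (τ := 2 * h) 2 (two_pow_inj hA)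
      (by omega) (by omega) (by omega) (by omega) _ (fun m v hv j hj => ?_) ?_
    · exact congrFun (LinearMap.mem_ker.1 hv) ⟨j, hj⟩
    · have h8 : 4200 * H ^ 3 * D ≤ L * (2 * h - h + 1) :=
        h3.trans (Nat.mul_le_mul_left _ (by omega))
      rw [mul_assoc, one_div, inv_mul_eq_div, le_div_iff₀ hH3, mul_comm]
      exact_mod_cast h8
  have hV : h < Nat.card (Fin D → ZMod q) := by
    rw [Nat.card_fun, Nat.card_zmod, Nat.card_eq_fintype_card, Fintype.card_fin]
    have a1 : A < 2 ^ A := Nat.lt_two_pow_self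
    have a2 : q ≤ q ^ D := Nat.le_self_pow h5.ne' q
    omega
  have key := local_lemma' ev _ h H hdes hH (by positivity) (by rw [one_div_mul_cancel hH3.ne'])
    hV (X.image (vec q D)) (card_image_le.trans hXh) (by
      intro Y hY s hs hY'
      obtain ⟨Y₀, hY₀, rfl⟩ := subset_image_iff.1 hY
      refine card_image_le.trans (not_lt.1 fun hn => ?_)
      have a1 := hm Y₀ (mem_filter.2 ⟨mem_powerset.2 (hY₀.trans hXB), s, hs, by
        rwa [coe_image] at hY', hn⟩)
      have a2 := card_le_card hY₀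
      omega)
  have hblk : ∀ (j : Fin L) (v : ℕ), vec q (2 * h) (blkv q D A h v j) = ev j (vec q D v) := by
    intro j v
    funext i
    have a1 : ((j : ℕ) + 1) * (2 * h) ≤ L * (2 * h) := Nat.mul_le_mul_right _ j.2
    have a2 := i.2
    rw [blkv, vec_pack hq.pos fun i => pev q D A v (j * (2 * h) + i), r2_pev (by
      rw [add_mul] at a1; omega)]
    rfl
  have hle : ∀ j : Fin L, ((X.image (vec q D)).image (ev j)).card ≤ 2 * H ^ 4 * r := by
    intro j
    have e1 : (X.image (vec q D)).image (ev j) =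
        (X.image fun v => blkv q D A h v j).image (vec q (2 * h)) := by
      rw [image_image, image_image]
      exact image_congr fun v _ => (hblk j v).symm
    refine ((congrArg card e1).le.trans card_image_le).trans (hc.2 (dig Q L j c)
      (X.image fun v => blkv q D A h v j)
      (fun l hl => ?_) (card_image_le.trans hXh) (fun l hl => ?_) _ Subset.rfl r hr ?_)
    · obtain ⟨v, -, rfl⟩ := mem_image.1 hl
      exact mem_range.2 (pack_lt fun _ _ => Nat.mod_lt _ hq.pos)
    · obtain ⟨v, hv, rfl⟩ := mem_image.1 hl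
      exact hB2 v (hXB hv) j j.2
    · refine le_trans ?_ hXr
      unfold rk
      rw [← coe_image, ← e1, coe_image, coe_image, Submodule.span_image]
      exact Submodule.finrank_map_le _ _
  have a1 := sum_le_card_nsmul univ _ _ fun j _ => hle j
  rw [card_image_of_injOn hinj, Fintype.card_fin] at key
  rw [card_univ, Fintype.card_fin, smul_eq_mul] at a1
  have hL : 0 < L := by
    rcases Nat.eq_zero_or_pos L with rfl | hL
    · have : 0 < 4200 * H ^ 3 * D := by positivity
      omega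
    · exact hL
  have a2 : L * (18 * H ^ 4 * r) ≤ L * X.card := Nat.mul_le_mul_left _ (by omega)
  have a3 : 0 < L * (H ^ 4 * r) := by positivity
  have a4 : L * (18 * H ^ 4 * r) = 18 * (L * (H ^ 4 * r)) := by ring
  have a5 : L * (2 * H ^ 4 * r) = 2 * (L * (H ^ 4 * r)) := by ring
  omega

end Pool.Agent.MP_a2da35_lc
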