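import Pool.Agent.MP_a2da35_lc.Red

/-!
The method of conditional expectations for potentials of product form.
-/

namespace Pool.Agent.MP_a2da35_lc

open Finset Pool.Agent.Lib.Cx

/-- The potential after the values `ω` have been fixed at the first positions. There are `Ev`
events, `N` positions and `Q` values; event `e` has weight `c e` and factor `f e j v` if
position `j` gets value `v`. -/
def gPot (Ev N Q : ℕ) (c : ℕ → ℕ) (f : ℕ → ℕ → ℕ → ℕ) (ω : List ℕ) : ℕ :=
  ((List.range Ev).map fun e => c e * ((List.range N).map fun j =>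
    if j < ω.length then Q * f e j (ω.getD j 0)
    else ((List.range Q).map fun v => f e j v).sum).prod).sum

def gStep (Ev N Q : ℕ) (c : ℕ → ℕ) (f : ℕ → ℕ → ℕ → ℕ) (ω : List ℕ) : List ℕ :=
  ω ++ [((List.range Q).find? fun v =>
    decide (gPot Ev N Q c f (ω ++ [v]) ≤ gPot Ev N Q c f ω)).getD 0]

def greedy (Ev N Q : ℕ) (c : ℕ → ℕ) (f : ℕ → ℕ → ℕ → ℕ) : List ℕ := (gStep Ev N Q c f)^[N] []

theorem gr_prod (n : ℕ) (g : ℕ → ℕ) : ((List.range n).map g).prod = ∏ j ∈ range n, g j := by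
  induction n with
  | zero => simp
  | succ n ih => rw [List.range_succ, List.map_append, List.prod_append, ih, prod_range_succ]; simp

theorem gr_sum (n : ℕ) (g : ℕ → ℕ) : ((List.range n).map g).sum = ∑ j ∈ range n, g j := by
  induction n with
  | zero => simp
  | succ n ih => rw [List.range_succ, List.map_append, List.sum_append, ih, sum_range_succ]; simp

theorem gr_pot (Ev N Q : ℕ) (c : ℕ → ℕ) (f : ℕ → ℕ → ℕ → ℕ) (ω : List ℕ) :
    gPot Ev N Q c f ω = ∑ e ∈ range Ev, c e * ∏ j ∈ range N,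
      if j < ω.length then Q * f e j (ω.getD j 0) else ∑ v ∈ range Q, f e j v := by
  simp only [gPot, gr_prod, gr_sum]

theorem gr_avg {Ev N Q : ℕ} (c : ℕ → ℕ) (f : ℕ → ℕ → ℕ → ℕ) {ω : List ℕ} (h : ω.length < N) :
    ∑ v ∈ range Q, gPot Ev N Q c f (ω ++ [v]) = Q * gPot Ev N Q c f ω := by
  simp only [gr_pot]
  rw [sum_comm, mul_sum]
  refine sum_congr rfl fun e _ => ?_
  have hm := mem_range.2 h
  rw [← mul_sum, mul_left_comm, ← mul_prod_erase _ _ hm, if_neg (lt_irrefl _), ← mul_assoc Q,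
    mul_sum _ _ Q, sum_mul]
  refine congrArg _ (sum_congr rfl fun v _ => ?_)
  rw [← mul_prod_erase _ _ hm, if_pos (by simp), List.getD_append_right _ _ _ _ le_rfl]
  refine congrArg₂ _ (by simp) (prod_congr rfl fun j hj => ?_)
  have hj' := ne_of_mem_erase hj
  by_cases hl : j < ω.length
  · rw [if_pos hl, if_pos (by simp; omega), List.getD_append _ _ _ _ hl]
  · rw [if_neg hl, if_neg (by simp; omega)]

theorem gr_step {Ev N Q : ℕ} (hQ : 0 < Q) (c : ℕ → ℕ) (f : ℕ → ℕ → ℕ → ℕ) {ω : List ℕ}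
    (h : ω.length < N) : gPot Ev N Q c f (gStep Ev N Q c f ω) ≤ gPot Ev N Q c f ω := by
  obtain ⟨v, hv, hle⟩ := exists_le_of_sum_le (s := range Q) (nonempty_range_iff.2 hQ.ne')
    (f := fun v => gPot Ev N Q c f (ω ++ [v])) (g := fun _ => gPot Ev N Q c f ω)
    (by rw [gr_avg c f h]; simp)
  unfold gStep
  cases hf : (List.range Q).find? fun v =>
      decide (gPot Ev N Q c f (ω ++ [v]) ≤ gPot Ev N Q c f ω) with
  | none =>
    have := List.find?_eq_none.1 hf v (List.mem_range.2 (mem_range.1 hv))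
    simp [hle] at this
  | some u => simpa using List.find?_some hf

theorem gr_inv (Ev N Q : ℕ) (c : ℕ → ℕ) (f : ℕ → ℕ → ℕ → ℕ) (i : ℕ) :
    ((gStep Ev N Q c f)^[i] []).length = i ∧
      ∀ v ∈ (gStep Ev N Q c f)^[i] [], v < Q ∨ v = 0 := by
  induction i with
  | zero => simp
  | succ i ih =>
    rw [Function.iterate_succ_apply', gStep]
    refine ⟨by simp [ih.1], fun v hv => ?_⟩
    rcases List.mem_append.1 hv with hv | hv
    · exact ih.2 v hv
    · rw [List.mem_singleton.1 hv]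
      generalize hf : List.find? _ (List.range Q) = o
      cases o with
      | none => exact Or.inr rfl
      | some u => exact Or.inl (List.mem_range.1 (List.mem_of_find?_eq_some hf))

theorem gr_mono {Ev N Q : ℕ} (hQ : 0 < Q) (c : ℕ → ℕ) (f : ℕ → ℕ → ℕ → ℕ) (i : ℕ) (hi : i ≤ N) :
    gPot Ev N Q c f ((gStep Ev N Q c f)^[i] []) ≤ gPot Ev N Q c f [] := by
  induction i with
  | zero => exact le_rfl
  | succ i ih =>
    rw [Function.iterate_succ_apply']
    exact (gr_step hQ c f (by rw [(gr_inv Ev N Q c f i).1]; omega)).trans (ih (by omega))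

theorem greedy_lt {Ev N Q : ℕ} (hQ : 0 < Q) (c : ℕ → ℕ) (f : ℕ → ℕ → ℕ → ℕ) (j : ℕ) :
    (greedy Ev N Q c f).getD j 0 < Q := by
  by_cases hj : j < (greedy Ev N Q c f).length
  · rw [List.getD_eq_getElem _ _ hj]
    rcases (gr_inv Ev N Q c f N).2 _ (List.getElem_mem hj) with h | h
    · exact h
    · exact h.trans_lt hQ
  · rwa [List.getD_eq_default _ _ (not_lt.1 hj)]

theorem greedy_le {Ev N Q : ℕ} (hQ : 0 < Q) (c : ℕ → ℕ) (f : ℕ → ℕ → ℕ → ℕ) :
    Q ^ N * ∑ e ∈ range Ev, c e * ∏ j ∈ range N, f e j ((greedy Ev N Q c f).getD j 0) ≤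
      ∑ e ∈ range Ev, c e * ∏ j ∈ range N, ∑ v ∈ range Q, f e j v := by
  have h := gr_mono (Ev := Ev) hQ c f N le_rfl
  rw [gr_pot, gr_pot, (gr_inv Ev N Q c f N).1] at h
  simp only [List.length_nil, not_lt_zero, if_false] at h
  refine le_of_eq_of_le ?_ h
  rw [mul_sum]
  refine sum_congr rfl fun e _ => ?_
  rw [mul_left_comm, prod_congr rfl fun j hj => if_pos (mem_range.1 hj), prod_mul_distrib,
    prod_const, card_range]
  rfl

theorem greedy_pt {α : Type} [Enc α] {Ev N Q : α → ℕ} {c : α → ℕ → ℕ}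
    {f : α → ℕ → ℕ → ℕ → ℕ} (h1 : PT Ev) (h2 : PB Ev) (h3 : PT N) (h4 : PB N) (h5 : PT Q)
    (h6 : PB Q) (h7 : PT fun z : α × ℕ => c z.1 z.2)
    (h8 : PT fun z : α × ℕ × ℕ × ℕ => f z.1 z.2.1 z.2.2.1 z.2.2.2) :
    PT fun x => greedy (Ev x) (N x) (Q x) (c x) (f x) := by
  have hp : PT fun z : α × List ℕ => gPot (Ev z.1) (N z.1) (Q z.1) (c z.1) (f z.1) z.2 := by
    unfold gPot
    refine PT.sum (PT.map (PT.mul (h7.comp' (f := fun p : (α × List ℕ) × ℕ => (p.1.1, p.2))
      (by fun_prop)) (PT.prod (PT.map (PT.ite (by fun_prop) (PT.mul (h5.comp' (by fun_prop))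
        (h8.comp' (f := fun p : ((α × List ℕ) × ℕ) × ℕ =>
          (p.1.1.1, p.1.2, p.2, p.1.1.2.getD p.2 0)) (by fun_prop)))
        (PT.sum (PT.map (h8.comp' (f := fun p : (((α × List ℕ) × ℕ) × ℕ) × ℕ =>
          (p.1.1.1.1, p.1.1.2, p.1.2, p.2)) (by fun_prop))
          (PT.range (h5.comp' (by fun_prop)) (h6.comp (by fun_prop))))))
        (PT.range (h3.comp' (by fun_prop)) (h4.comp (by fun_prop))))))
      (PT.range (h1.comp' (by fun_prop)) (h2.comp (by fun_prop))))
  have hs : PT fun z : α × List ℕ => gStep (Ev z.1) (N z.1) (Q z.1) (c z.1) (f z.1) z.2 := by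
    unfold gStep
    refine PT.append (by fun_prop) (PT.cons (PT.getD (PT.find? (PT.decide (PP.le ?_ ?_))
      (PT.range (h5.comp' (by fun_prop)) (h6.comp (by fun_prop)))) (PT.const 0)) (PT.const []))
    · exact hp.comp' (f := fun p : (α × List ℕ) × ℕ => (p.1.1, p.1.2 ++ [p.2])) (by fun_prop)
    · exact hp.comp' (f := fun p : (α × List ℕ) × ℕ => p.1) (by fun_prop)
  refine PT.iterate (f := fun x => gStep (Ev x) (N x) (Q x) (c x) (f x)) hs h3 h4 (PT.const [])
    (fun x => N x * (2 * Q x + 1)) (by fun_prop) fun x i hi => ?_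
  obtain ⟨e1, e2⟩ := gr_inv (Ev x) (N x) (Q x) (c x) (f x) i
  refine (size_list_le _ (Q x) fun a ha => (size_nat_le_self a).trans ?_).trans ?_
  · rcases e2 a ha with h | h <;> omega
  · rw [e1]
    exact Nat.mul_le_mul_right _ hi

/-!
Colourings of `(ZMod p) ^ a` whose colour classes have no dense small subsets.
-/

/-- The vector of digits of `l`. -/
def vec (p a l : ℕ) : Fin a → ZMod p := fun j => (dig p a j l : ℕ)

/-- The rank of the digit vectors of the numbers in `P`. -/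
noncomputable def rk (p a : ℕ) (P : Finset ℕ) : ℕ :=
  Module.finrank (ZMod p) (Submodule.span (ZMod p) (vec p a '' (P : Set ℕ)))

def Sparse (p a g : ℕ) (P : Finset ℕ) : Prop :=
  ∀ Q ⊆ P, ∀ r, 1 ≤ r → rk p a Q ≤ r → Q.card ≤ g * r

def ColOk (p a g h Q : ℕ) (col : ℕ → ℕ) : Prop :=
  (∀ l, col l < Q) ∧
    ∀ c, ∀ P ⊆ range (p ^ a), P.card ≤ h → (∀ l ∈ P, col l = c) → Sparse p a g P

theorem vec_injOn {p a : ℕ} : Set.InjOn (vec p a) (range (p ^ a) : Finset ℕ) := by
  intro l hl l' hl' e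
  rw [mem_coe, mem_range] at hl hl'
  rw [← pack_dig hl, ← pack_dig hl']
  refine pack_congr fun j hj => ?_
  have := (ZMod.natCast_eq_natCast_iff' _ _ _).1 (congrFun e ⟨j, hj⟩)
  simpa only [dig, Nat.mod_mod] using this

theorem vec_pack {p a : ℕ} (hp : 0 < p) (f : ℕ → ℕ) (j : Fin a) :
    vec p a (pack p a fun j => f j % p) j = (f j : ZMod p) := by
  unfold vec
  rw [dig_pack (f := fun j => f j % p) (fun _ _ => Nat.mod_lt _ hp) j.2, ZMod.natCast_mod]

theorem vec_surj {p a : ℕ} (hp : 0 < p) (v : Fin a → ZMod p) : ∃ l < p ^ a, vec p a l = v := by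
  have : NeZero p := ⟨hp.ne'⟩
  refine ⟨pack p a fun j => (if h : j < a then (v ⟨j, h⟩).val else 0) % p,
    pack_lt fun _ _ => Nat.mod_lt _ hp, funext fun j => ?_⟩
  rw [vec_pack hp (fun j => if h : j < a then (v ⟨j, h⟩).val else 0) j]
  simp

/-- Number of events. Event `e` consists of a rank `r`, a colour, `r` vectors and `g * r + 1`
lists of `r` coefficients. -/
def colEv (p a g h Q : ℕ) : ℕ := (h / g + 1) * Q * p ^ (a * (h / g)) * p ^ (h / g * h)

def colR (g h e : ℕ) : ℕ := e % (h / g + 1)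
def colC (g h Q e : ℕ) : ℕ := e / (h / g + 1) % Q
def colB (p a g h Q e : ℕ) : ℕ := e / (h / g + 1) / Q % p ^ (a * (h / g))
def colK (p a g h Q e : ℕ) : ℕ := e / (h / g + 1) / Q / p ^ (a * (h / g))

/-- Point number `s` of event `e`. -/
def colP (p a g h Q e s : ℕ) : ℕ :=
  pack p a fun j => ((List.range (min (colR g h e) h)).map fun l =>
    dig p (h / g * h) (s * colR g h e + l) (colK p a g h Q e) *
      dig p (a * (h / g)) (l * a + j) (colB p a g h Q e)).sum % p

/-- The points of event `e`. -/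
def colL (p a g h Q e : ℕ) : List ℕ :=
  (List.range (min (g * colR g h e + 1) h)).map (colP p a g h Q e)

def ColV (p a g h Q e : ℕ) : Prop :=
  1 ≤ colR g h e ∧ g * colR g h e + 1 ≤ h ∧
    colB p a g h Q e < p ^ (a * min (colR g h e) h) ∧
    colK p a g h Q e < p ^ (min (colR g h e) h * h) ∧ (colL p a g h Q e).Nodup

open Classical in
noncomputable def colr (p a g h Q : ℕ) : List ℕ :=
  greedy (colEv p a g h Q) (p ^ a) Q (fun e => if ColV p a g h Q e then 1 else 0)
    fun e j v => if j ∈ colL p a g h Q e then (if v = colC g h Q e then 1 else 0) else 1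

theorem col_geo (M : ℕ) :
    ∑ r ∈ range (M + 1), (if r = 0 then (0 : ℝ) else (1 / 2) ^ r) = 1 - (1 / 2) ^ M := by
  induction M with
  | zero => simp
  | succ M ih => rw [sum_range_succ, ih, if_neg (Nat.succ_ne_zero M), pow_succ]; ring

theorem col_le {g r h : ℕ} (hg : 0 < g) (h1 : g * r + 1 ≤ h) : min r h = r :=
  min_eq_left (by nlinarith)

theorem col_P_lt {p : ℕ} (hp : 0 < p) (a g h Q e s : ℕ) : colP p a g h Q e s < p ^ a :=
  pack_lt fun _ _ => Nat.mod_lt _ hp

theorem col_prod {p a g h Q e : ℕ} (hp : 0 < p) (hQ : 0 < Q) (hV : ColV p a g h Q e) :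
    (∏ j ∈ range (p ^ a), ∑ v ∈ range Q,
      if j ∈ colL p a g h Q e then (if v = colC g h Q e then 1 else 0) else 1) *
      Q ^ (g * colR g h e + 1) = Q ^ p ^ a := by
  have hC : colC g h Q e ∈ range Q := mem_range.2 (Nat.mod_lt _ hQ)
  have e1 : ∀ j, (∑ v ∈ range Q,
      if j ∈ colL p a g h Q e then (if v = colC g h Q e then 1 else 0) else 1) =
      if j ∈ (colL p a g h Q e).toFinset then 1 else Q := fun j => by
    by_cases hj : j ∈ colL p a g h Q e
    · simp only [hj, if_true, List.mem_toFinset]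
      rw [sum_ite_eq' (range Q) (colC g h Q e) fun _ => 1, if_pos hC]
    · simp [hj]
  have hsub : (colL p a g h Q e).toFinset ⊆ range (p ^ a) := fun j hj => by
    obtain ⟨s, -, rfl⟩ := List.mem_map.1 (List.mem_toFinset.1 hj)
    exact mem_range.2 (col_P_lt hp _ _ _ _ _ _)
  have hcard : (colL p a g h Q e).toFinset.card = g * colR g h e + 1 := by
    rw [List.toFinset_card_of_nodup hV.2.2.2.2, colL, List.length_map, List.length_range,
      min_eq_left hV.2.1]
  simp only [e1]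
  rw [prod_ite, prod_const_one, one_mul, prod_const, ← pow_add, ← hcard, filter_not,
    filter_mem_eq_inter, inter_eq_right.2 hsub, card_sdiff_add_card_eq_card hsub, card_range]

open Classical in
theorem col_count {p a g h Q : ℕ} (hg : 0 < g) (hQ : 0 < Q) (Ev r : ℕ) :
    ((range Ev).filter fun e => colR g h e = r ∧ ColV p a g h Q e).card ≤
      Q * (p ^ (a * r) * p ^ (r * h)) := by
  have : Q * (p ^ (a * r) * p ^ (r * h)) =
      (range Q ×ˢ range (p ^ (a * r)) ×ˢ range (p ^ (r * h))).card := by simp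
  rw [this]
  refine card_le_card_of_injOn (fun e => (colC g h Q e, colB p a g h Q e, colK p a g h Q e))
    (fun e he => ?_) fun e he e' he' hee => ?_
  · obtain ⟨-, rfl, -, h2, h3, h4, -⟩ := mem_filter.1 (mem_coe.1 he)
    rw [col_le hg h2] at h3 h4
    simp only [coe_product, Set.mem_prod, mem_coe, mem_range]
    exact ⟨Nat.mod_lt _ hQ, h3, h4⟩
  · have h1 : colR g h e = colR g h e' :=
      (mem_filter.1 (mem_coe.1 he)).2.1.trans (mem_filter.1 (mem_coe.1 he')).2.1.symm
    simp only [Prod.mk.injEq] at hee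
    obtain ⟨h2, h3, h4⟩ := hee
    unfold colR at h1
    unfold colC at h2
    unfold colB at h3
    unfold colK at h4
    have h5 : e / (h / g + 1) / Q = e' / (h / g + 1) / Q := by
      rw [← Nat.mod_add_div (e / (h / g + 1) / Q) (p ^ (a * (h / g))), h3, h4, Nat.mod_add_div]
    have h6 : e / (h / g + 1) = e' / (h / g + 1) := by
      rw [← Nat.mod_add_div (e / (h / g + 1)) Q, h2, h5, Nat.mod_add_div]
    rw [← Nat.mod_add_div e (h / g + 1), h1, h6, Nat.mod_add_div]

open Classical in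
theorem col_bound {p a g h Q : ℕ} (hp : p.Prime) (hg : 0 < g) (hQ0 : 0 < Q)
    (hQ : p ^ (a + h + 1) ≤ Q ^ g) :
    ∑ e ∈ range (colEv p a g h Q), (if ColV p a g h Q e then 1 else 0) *
      ∏ j ∈ range (p ^ a), ∑ v ∈ range Q,
        (if j ∈ colL p a g h Q e then (if v = colC g h Q e then 1 else 0) else 1) <
      Q ^ p ^ a := by
  obtain ⟨T, hT⟩ : ∃ T : ℕ → ℕ, T = fun e => ∏ j ∈ range (p ^ a), ∑ v ∈ range Q,
    (if j ∈ colL p a g h Q e then (if v = colC g h Q e then 1 else 0) else 1) := ⟨_, rfl⟩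
  have hT' : ∀ e, ColV p a g h Q e → T e * Q ^ (g * colR g h e + 1) = Q ^ p ^ a := fun e he => by
    rw [hT]; exact col_prod hp.pos hQ0 he
  change ∑ e ∈ range (colEv p a g h Q), (if ColV p a g h Q e then 1 else 0) *
    (fun e => ∏ j ∈ range (p ^ a), ∑ v ∈ range Q,
      (if j ∈ colL p a g h Q e then (if v = colC g h Q e then 1 else 0) else 1)) e < _
  rw [← hT, ← sum_fiberwise_of_maps_to (g := colR g h) (t := range (h / g + 1))
    fun e _ => mem_range.2 (Nat.mod_lt _ (Nat.succ_pos _))]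
  have hZ : 0 < Q ^ p ^ a := pow_pos hQ0 _
  generalize Q ^ p ^ a = Z at hT' hZ ⊢
  have key : ∀ r, ((∑ e ∈ (range (colEv p a g h Q)).filter fun e => colR g h e = r,
      (if ColV p a g h Q e then 1 else 0) * T e : ℕ) : ℝ) ≤
      (if r = 0 then (0 : ℝ) else (1 / 2) ^ r) * Z := fun r => by
    simp only [ite_mul, one_mul, zero_mul]
    rw [← sum_filter, filter_filter]
    split_ifs with h0
    · rw [filter_false_of_mem]
      · simp
      · rintro e - ⟨h1, h2, -⟩
        omega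
    have h1 : (∑ e ∈ (range (colEv p a g h Q)).filter
        fun e => colR g h e = r ∧ ColV p a g h Q e, T e) * Q ^ (g * r + 1) ≤
        Q * (p ^ (a * r) * p ^ (r * h)) * Z := by
      rw [sum_mul]
      refine (sum_le_card_nsmul _ _ Z fun e he => ?_).trans
        (Nat.mul_le_mul_right Z (col_count hg hQ0 _ r))
      obtain ⟨-, rfl, h2⟩ := mem_filter.1 he
      exact (hT' e h2).le
    generalize (∑ e ∈ (range (colEv p a g h Q)).filter
        fun e => colR g h e = r ∧ ColV p a g h Q e, T e) = X at h1 ⊢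
    have h2 : 2 ^ r * (p ^ (a * r) * p ^ (r * h)) ≤ Q ^ (g * r) := by
      rw [pow_mul Q]
      refine le_trans ?_ (Nat.pow_le_pow_left hQ r)
      rw [← pow_mul, show (a + h + 1) * r = r + (a * r + r * h) by ring, pow_add, pow_add]
      exact Nat.mul_le_mul_right _ (Nat.pow_le_pow_left hp.two_le r)
    have h3 : 0 < Q * (p ^ (a * r) * p ^ (r * h)) := by have := hp.pos; positivity
    have h4 : X * 2 ^ r ≤ Z := by
      refine Nat.le_of_mul_le_mul_left (le_trans ?_ h1) h3
      rw [pow_succ]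
      calc _ = X * (2 ^ r * (p ^ (a * r) * p ^ (r * h)) * Q) := by ring
        _ ≤ _ := Nat.mul_le_mul_left _ (Nat.mul_le_mul_right _ h2)
    rw [one_div, inv_pow, ← div_eq_inv_mul, le_div_iff₀ (by positivity)]
    exact_mod_cast h4
  have h5 := sum_le_sum fun r (_ : r ∈ range (h / g + 1)) => key r
  rw [← sum_mul, col_geo, ← Nat.cast_sum] at h5
  have h6 : (0 : ℝ) < (1 / 2) ^ (h / g) * Z := mul_pos (by positivity) (by exact_mod_cast hZ)
  exact_mod_cast h5.trans_lt (by linarith : _ < (Z : ℝ))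

theorem col_span {F V : Type} [Field F] [AddCommGroup V] [Module F V] [Module.Finite F V]
    (W : Submodule F V) {r : ℕ} (h : Module.finrank F W ≤ r) :
    ∃ b : ℕ → V, ∀ v ∈ W, ∃ k : ℕ → F, v = ∑ l ∈ range r, k l • b l := by
  have B := Module.finBasis F W
  refine ⟨fun l => if h : l < Module.finrank F W then B ⟨l, h⟩ else 0, fun v hv =>
    ⟨fun l => if h : l < Module.finrank F W then B.repr ⟨v, hv⟩ ⟨l, h⟩ else 0, ?_⟩⟩
  rw [← sum_subset (range_mono h) fun l _ hl => by
    simp only [dif_neg (mt mem_range.2 hl), zero_smul], sum_range]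
  have := congrArg Subtype.val (B.sum_repr ⟨v, hv⟩)
  simp only [Submodule.coe_sum, Submodule.coe_smul] at this
  simp [this]

theorem col_lt {x m y n : ℕ} (h1 : x < m) (h2 : y < n) : x + m * y < m * n := by
  have := Nat.mul_le_mul_left m (Nat.succ_le_of_lt h2)
  rw [Nat.mul_succ] at this
  omega

theorem col_event {p a g h Q r c : ℕ} (hp : p.Prime) (hg : 0 < g) (hr : 1 ≤ r)
    (hh : g * r + 1 ≤ h) (hc : c < Q) {P S : Finset ℕ} (hP : P ⊆ range (p ^ a))
    (hrk : rk p a P ≤ r) (hS : S ⊆ P) (hcard : S.card = g * r + 1) :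
    ∃ e < colEv p a g h Q, ColV p a g h Q e ∧ colC g h Q e = c ∧
      ∀ j ∈ colL p a g h Q e, j ∈ S := by
  have := Fact.mk hp
  have hp0 := hp.pos
  have hrh : r ≤ h / g := (Nat.le_div_iff_mul_le hg).2 (by rw [mul_comm]; omega)
  obtain ⟨b, hb⟩ := col_span _ hrk
  have hlen : S.toList.length = g * r + 1 := by rw [length_toList, hcard]
  have hmem : ∀ s < g * r + 1, S.toList.getD s 0 ∈ S := fun s hs => by
    rw [List.getD_eq_getElem _ _ (hlen ▸ hs)]
    exact mem_toList.1 (List.getElem_mem _)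
  have hk : ∀ s, ∃ k : ℕ → ZMod p, s < g * r + 1 →
      vec p a (S.toList.getD s 0) = ∑ l ∈ range r, k l • b l := fun s => by
    by_cases hs : s < g * r + 1
    · obtain ⟨k, hk⟩ := hb _ (Submodule.subset_span ⟨_, mem_coe.2 (hS (hmem s hs)), rfl⟩)
      exact ⟨k, fun _ => hk⟩
    · exact ⟨0, fun h => absurd h hs⟩
  choose k hk using hk
  obtain ⟨b', hb'⟩ : ∃ b' : ℕ → ℕ → ℕ,
    b' = fun l j => if h : j < a then (b l ⟨j, h⟩).val else 0 := ⟨_, rfl⟩
  have hb1 : ∀ l j, b' l j < p := fun l j => by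
    rw [hb']
    dsimp only
    split_ifs
    · exact ZMod.val_lt _
    · exact hp0
  obtain ⟨B, hB⟩ : ∃ B, B = pack p (a * r) fun i => b' (i / a) (i % a) := ⟨_, rfl⟩
  obtain ⟨K, hK⟩ : ∃ K, K = pack p (r * h) fun i => (k (i / r) (i % r)).val := ⟨_, rfl⟩
  have hB1 : B < p ^ (a * r) := hB ▸ pack_lt fun _ _ => hb1 _ _
  have hK1 : K < p ^ (r * h) := hK ▸ pack_lt fun _ _ => ZMod.val_lt _
  have hB2 : B < p ^ (a * (h / g)) :=
    hB1.trans_le (Nat.pow_le_pow_right hp0 (Nat.mul_le_mul_left _ hrh))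
  have hK2 : K < p ^ (h / g * h) :=
    hK1.trans_le (Nat.pow_le_pow_right hp0 (Nat.mul_le_mul_right _ hrh))
  obtain ⟨e, he⟩ : ∃ e, e = r + (h / g + 1) * (c + Q * (B + p ^ (a * (h / g)) * K)) := ⟨_, rfl⟩
  have d1 : e / (h / g + 1) = c + Q * (B + p ^ (a * (h / g)) * K) := by
    rw [he, Nat.add_mul_div_left _ _ (Nat.succ_pos _), Nat.div_eq_of_lt (by omega), zero_add]
  have d2 : e / (h / g + 1) / Q = B + p ^ (a * (h / g)) * K := by
    rw [d1, Nat.add_mul_div_left _ _ (by omega), Nat.div_eq_of_lt hc, zero_add]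
  have eR : colR g h e = r := by
    rw [colR, he, Nat.add_mul_mod_self_left, Nat.mod_eq_of_lt (by omega)]
  have eC : colC g h Q e = c := by
    rw [colC, d1, Nat.add_mul_mod_self_left, Nat.mod_eq_of_lt hc]
  have eB : colB p a g h Q e = B := by
    rw [colB, d2, Nat.add_mul_mod_self_left, Nat.mod_eq_of_lt hB2]
  have eK : colK p a g h Q e = K := by
    rw [colK, d2, Nat.add_mul_div_left _ _ (by omega), Nat.div_eq_of_lt hB2, zero_add]
  have eP : ∀ s < g * r + 1, colP p a g h Q e s = S.toList.getD s 0 := fun s hs => by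
    refine vec_injOn (p := p) (a := a) (mem_coe.2 (mem_range.2 (col_P_lt hp0 _ _ _ _ _ _)))
      (mem_coe.2 (hP (hS (hmem s hs)))) (funext fun j => ?_)
    rw [colP, vec_pack hp0 _ j, hk s hs, eR, eB, eK, col_le hg hh,
      ← List.sum_toFinset _ List.nodup_range, List.toFinset_range, Nat.cast_sum,
      Finset.sum_apply]
    refine sum_congr rfl fun l hl => ?_
    rw [mem_range] at hl
    have i1 : s * r + l < r * h := by
      rw [mul_comm s]; rw [add_comm]; exact col_lt hl (by omega)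
    have i2 : l * a + j < a * r := by
      rw [mul_comm l]; rw [add_comm]; exact col_lt j.2 hl
    have ha : 0 < a := j.pos
    rw [dig_eq (i1.le.trans (Nat.mul_le_mul_right _ hrh)), ← dig_eq i1.le,
      dig_eq (i2.le.trans (Nat.mul_le_mul_left _ hrh)), ← dig_eq i2.le, hB, hK,
      dig_pack (fun _ _ => ZMod.val_lt _) i1, dig_pack (fun _ _ => hb1 _ _) i2,
      add_comm (s * r), add_comm (l * a), Nat.add_mul_div_right _ _ (by omega),
      Nat.add_mul_div_right _ _ ha, Nat.add_mul_mod_self_right, Nat.add_mul_mod_self_right,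
      Nat.div_eq_of_lt hl, Nat.div_eq_of_lt j.2, Nat.mod_eq_of_lt hl, Nat.mod_eq_of_lt j.2, hb']
    simp
  have eL : colL p a g h Q e = S.toList := by
    rw [colL, eR, min_eq_left hh]
    refine List.ext_getElem (by simp [hcard]) fun s h1 h2 => ?_
    rw [List.getElem_map, List.getElem_range, eP s (hlen ▸ h2), List.getD_eq_getElem _ _ h2]
  refine ⟨e, ?_, ?_, eC, fun j hj => mem_toList.1 (eL ▸ hj)⟩
  · rw [he, colEv, mul_assoc, mul_assoc]
    exact col_lt (by omega) (col_lt hc (col_lt hB2 hK2))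
  · rw [ColV, eR, eB, eK, eL, col_le hg hh]
    exact ⟨hr, hh, hB1, hK1, nodup_toList S⟩

theorem colr_ok {p a g h Q : ℕ} (hp : p.Prime) (hg : 0 < g) (hQ : p ^ (a + h + 1) ≤ Q ^ g) :
    ColOk p a g h Q fun l => (colr p a g h Q).getD l 0 := by
  classical
  have hQ0 : 0 < Q := by
    rcases Nat.eq_zero_or_pos Q with rfl | h0
    · rw [zero_pow hg.ne'] at hQ
      exact absurd hQ (not_le.2 (pow_pos hp.pos _))
    · exact h0
  refine ⟨fun l => greedy_lt hQ0 _ _ l, fun c P hP hc hcol Q' hQ' r hr hrk => ?_⟩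
  by_contra hlt
  obtain ⟨S, hS, hcard⟩ := exists_subset_card_eq (n := g * r + 1) (s := Q') (by omega)
  have hh : g * r + 1 ≤ h := hcard ▸ (card_le_card (hS.trans hQ')).trans hc
  obtain ⟨l₀, hl₀⟩ : S.Nonempty := card_pos.1 (by omega)
  have hcQ : c < Q := hcol l₀ (hQ' (hS hl₀)) ▸ greedy_lt hQ0 _ _ l₀
  obtain ⟨e, he, hV, hC, hL⟩ := col_event hp hg hr hh hcQ (hQ'.trans hP) hrk hS hcard
  have h1 := greedy_le (Ev := colEv p a g h Q) (N := p ^ a) hQ0
    (fun e => if ColV p a g h Q e then 1 else 0)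
    fun e j v => if j ∈ colL p a g h Q e then (if v = colC g h Q e then 1 else 0) else 1
  have h2 := h1.trans_lt (col_bound hp hg hQ0 hQ)
  refine absurd h2 (not_lt.2 (Nat.le_mul_of_pos_right _ (lt_of_lt_of_le ?_
    (single_le_sum (fun _ _ => Nat.zero_le _) (mem_range.2 he)))))
  rw [if_pos hV, one_mul]
  refine prod_pos fun j _ => ?_
  split_ifs with h3 h4
  · exact one_pos
  · exact absurd ((hcol j (hQ' (hS (hL j h3)))).trans hC.symm) h4
  · exact one_pos

section

variable {α : Type} [Enc α] {p a g h Q e s : α → ℕ}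

theorem col_R_pt (h4 : PT g) (h5 : PT h) (he : PT e) : PT fun x => colR (g x) (h x) (e x) := by
  unfold colR; fun_prop

theorem col_B_pt (h1 : PT p) (h2 : PT a) (h3 : PB a) (h4 : PT g) (h5 : PT h) (h6 : PB h)
    (h7 : PT Q) (he : PT e) : PT fun x => colB (p x) (a x) (g x) (h x) (Q x) (e x) := by
  unfold colB; fun_prop

theorem col_K_pt (h1 : PT p) (h2 : PT a) (h3 : PB a) (h4 : PT g) (h5 : PT h) (h6 : PB h)
    (h7 : PT Q) (he : PT e) : PT fun x => colK (p x) (a x) (g x) (h x) (Q x) (e x) := by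
  unfold colK; fun_prop

theorem col_P_pt (h1 : PT p) (h2 : PT a) (h3 : PB a) (h4 : PT g) (h5 : PT h) (h6 : PB h)
    (h7 : PT Q) (he : PT e) (hs : PT s) :
    PT fun x => colP (p x) (a x) (g x) (h x) (Q x) (e x) (s x) := by
  have hR := col_R_pt h4 h5 he
  have hB := col_B_pt h1 h2 h3 h4 h5 h6 h7 he
  have hK := col_K_pt h1 h2 h3 h4 h5 h6 h7 he
  have p1 : PT fun z : α × ℕ => z.1 := by fun_prop
  have p2 : PT fun z : (α × ℕ) × ℕ => z.1.1 := by fun_prop
  unfold colP pack
  refine PT.sum (PT.map (PT.mul (PT.mod (PT.sum (PT.map (PT.mul ?_ ?_) (PT.range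
    (PT.min (hR.comp' p1) (h5.comp' p1)) (h6.comp p1).min_right))) (h1.comp' p1))
    (PT.pow (h1.comp' p1) (by fun_prop) (h3.comp p1).min_right)) (PT.range h2 h3))
  · exact dig_pt (h1.comp' p2) (by fun_prop) ((h6.comp p2).div.mul (h6.comp p2))
      (PT.add (PT.mul (hs.comp' p2) (hR.comp' p2)) (by fun_prop)) (hK.comp' p2)
  · exact dig_pt (h1.comp' p2) (by fun_prop) ((h3.comp p2).mul (h6.comp p2).div)
      (by fun_prop) (hB.comp' p2)

theorem col_L_pt (h1 : PT p) (h2 : PT a) (h3 : PB a) (h4 : PT g) (h5 : PT h) (h6 : PB h)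
    (h7 : PT Q) (he : PT e) : PT fun x => colL (p x) (a x) (g x) (h x) (Q x) (e x) := by
  have hR := col_R_pt h4 h5 he
  have p1 : PT fun z : α × ℕ => z.1 := by fun_prop
  unfold colL
  exact PT.map (col_P_pt (h1.comp' p1) (h2.comp' p1) (h3.comp p1) (h4.comp' p1) (h5.comp' p1)
    (h6.comp p1) (h7.comp' p1) (he.comp' p1) (by fun_prop))
    (PT.range (PT.min (PT.add (h4.mul hR) (PT.const _)) h5) h6.min_right)

theorem col_V_pp (h1 : PT p) (h2 : PT a) (h3 : PB a) (h4 : PT g) (h5 : PT h) (h6 : PB h)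
    (h7 : PT Q) (he : PT e) : PP fun x => ColV (p x) (a x) (g x) (h x) (Q x) (e x) := by
  have hR := col_R_pt h4 h5 he
  unfold ColV
  exact (PP.le (PT.const _) hR).and ((PP.le (PT.add (h4.mul hR) (PT.const _)) h5).and
    ((PP.lt (col_B_pt h1 h2 h3 h4 h5 h6 h7 he)
      (h1.pow (h2.mul (hR.min h5)) (h3.mul h6.min_right))).and
    ((PP.lt (col_K_pt h1 h2 h3 h4 h5 h6 h7 he)
      (h1.pow ((hR.min h5).mul h5) (h6.min_right.mul h6))).and
    (PP.nodup (col_L_pt h1 h2 h3 h4 h5 h6 h7 he)))))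

end

theorem colr_pt {α : Type} [Enc α] {p a g h Q : α → ℕ} (h1 : PT p) (h2 : PT a) (h3 : PB a)
    (h4 : PT g) (h5 : PT h) (h6 : PB h) (h7 : PT Q) (h8 : PB Q) (h9 : PB fun x => p x ^ a x)
    (h10 : PB fun x => colEv (p x) (a x) (g x) (h x) (Q x)) :
    PT fun x => colr (p x) (a x) (g x) (h x) (Q x) := by
  have p1 : PT fun z : α × ℕ => z.1 := by fun_prop
  have p2 : PT fun z : α × ℕ × ℕ × ℕ => z.1 := by fun_prop
  unfold colr
  refine greedy_pt (by unfold colEv; fun_prop) h10 (by fun_prop) h9 h7 h8 ?_ ?_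
  · exact PT.ite (col_V_pp (h1.comp' p1) (h2.comp' p1) (h3.comp p1) (h4.comp' p1) (h5.comp' p1)
      (h6.comp p1) (h7.comp' p1) (by fun_prop)) (PT.const _) (PT.const _)
  · refine PT.ite (PP.mem (col_L_pt (h1.comp' p2) (h2.comp' p2) (h3.comp p2) (h4.comp' p2)
      (h5.comp' p2) (h6.comp p2) (h7.comp' p2) (by fun_prop)) (by fun_prop))
      (PT.ite (PP.eq (by fun_prop) ?_) (PT.const _) (PT.const _)) (PT.const _)
    unfold colC
    fun_prop

end Pool.Agent.MP_a2da35_lc
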