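import Pool.Agent.MP_a2da35_lc.Sat
import Pool.Agent.MP_a2da35_lc.Det.Col

/-!
Deterministic choice of the sampled clauses. The clones are cut into `L` blocks, so that only
assignments of three blocks have to be considered.
-/

namespace Pool.Agent.MP_a2da35_lc

open Finset

theorem smp_mem {α : Type} {s : Finset α} {p : α → Prop} {d : DecidablePred p} {a : α} :
    a ∈ @filter _ p d s ↔ a ∈ s ∧ p a := mem_filter

theorem smp_len (n : ℕ) (p : ℕ → Prop) [DecidablePred p] :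
    ((List.range n).filter fun q => decide (p q)).length = ((range n).filter p).card := by
  rw [← List.toFinset_card_of_nodup (List.nodup_range.filter _)]
  congr 1
  ext q
  simp

theorem smp_sum (Q : ℕ) (p : ℕ → Prop) [DecidablePred p] (f : ℕ → ℕ) (a b : ℕ)
    (h1 : ∀ v, p v → f v = a) (h2 : ∀ v, ¬ p v → f v = b) :
    ((∑ v ∈ range Q, f v : ℕ) : ℝ) = b * Q + (a - b) * ((range Q).filter p).card := by
  have : ∀ v, (f v : ℝ) = b + (a - b) * if p v then 1 else 0 := fun v => by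
    by_cases h : p v
    · rw [h1 v h, if_pos h]; ring
    · rw [h2 v h, if_neg h]; ring
  rw [Nat.cast_sum]
  simp only [this]
  rw [sum_add_distrib, ← mul_sum, sum_boole, sum_const, card_range, nsmul_eq_mul, mul_comm]

theorem smp_prod (N : ℕ) (p : ℕ → Prop) [DecidablePred p] (f : ℕ → ℕ) (a b : ℕ)
    (h1 : ∀ j < N, p j → f j = a) (h2 : ∀ j < N, ¬ p j → f j = b) :
    ∃ r, ((range N).filter p).card + r = N ∧
      ∏ j ∈ range N, f j = a ^ ((range N).filter p).card * b ^ r := by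
  refine ⟨((range N).filter fun j => ¬ p j).card, ?_, ?_⟩
  · rw [card_filter_add_card_filter_not, card_range]
  · rw [← prod_const, ← prod_const, ← prod_ite]
    refine prod_congr rfl fun j hj => ?_
    by_cases h : p j
    · rw [h1 j (mem_range.1 hj) h, if_pos h]
    · rw [h2 j (mem_range.1 hj) h, if_neg h]

theorem smp_prod_le (N : ℕ) (p : ℕ → Prop) [DecidablePred p] (f : ℕ → ℕ) (A u : ℝ)
    (h1 : ∀ j < N, p j → (f j : ℝ) ≤ A * Real.exp u) (h2 : ∀ j < N, ¬ p j → (f j : ℝ) ≤ A) :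
    ((∏ j ∈ range N, f j : ℕ) : ℝ) ≤ A ^ N * Real.exp (u * ((range N).filter p).card) := by
  rw [Nat.cast_prod]
  refine (prod_le_prod (g := fun j => A * Real.exp (u * if p j then 1 else 0))
    (fun _ _ => Nat.cast_nonneg _) fun j hj => ?_).trans (le_of_eq ?_)
  · by_cases h : p j
    · rw [if_pos h, mul_one]
      exact h1 j (mem_range.1 hj) h
    · rw [if_neg h, mul_zero, Real.exp_zero, mul_one]
      exact h2 j (mem_range.1 hj) h
  · rw [prod_mul_distrib, prod_const, card_range, ← Real.exp_sum, ← mul_sum, sum_boole]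

theorem smp_two_le (x : ℕ) : (2 : ℝ) ^ x ≤ Real.exp x := by
  rw [← Real.exp_one_pow]
  exact pow_le_pow_left₀ zero_le_two (by linarith [Real.add_one_le_exp 1]) x

theorem smp_le_two (x : ℕ) : Real.exp (x / 2) ≤ (2 : ℝ) ^ x := by
  rw [show (x : ℝ) / 2 = x * (1 / 2) by ring, Real.exp_nat_mul]
  refine pow_le_pow_left₀ (Real.exp_pos _).le ?_ x
  have h1 : Real.exp (1 / 2) * Real.exp (1 / 2) = Real.exp 1 := by
    rw [← Real.exp_add]; norm_num
  nlinarith [Real.exp_one_lt_three, Real.exp_pos (1 / 2)]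

namespace Dat

variable (D : Dat)

/-- A value `v < 2 ^ (4 * W)` is a sample: four numbers below `2 ^ W`. -/
def smp (W v : ℕ) : ℕ → ℕ := fun c => dig (2 ^ W) 4 c v

/-- Size of a block of clones. -/
def bk (L : ℕ) : ℕ := 2 * D.n / L + 1

/-- Number of events of the first kind: a set of classes, three blocks, three assignments. -/
def ev1 (L : ℕ) : ℕ := 2 ^ D.G.k * L ^ 3 * (2 ^ D.bk L) ^ 3

/-- `ev1 L ≤ 2 ^ sX L`. -/
def sX (L : ℕ) : ℕ := D.G.k + 3 * L + 3 * D.bk L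

/-- Class `i` belongs to the set of event `e`. -/
def InI (e i : ℕ) : Prop := dig 2 D.G.k i (e % 2 ^ D.G.k) = 1

/-- The clones of the sample lie in the blocks of event `e`, and the clause is violated. -/
def Hit (L e : ℕ) (s : ℕ → ℕ) : Prop :=
  ∀ p < 3, D.yy s p / D.bk L = dig L 3 p (e / 2 ^ D.G.k % L ^ 3) ∧
    decide (dig 2 (D.bk L) (D.yy s p % D.bk L)
      (dig (2 ^ D.bk L) 3 p (e / 2 ^ D.G.k / L ^ 3)) = 1) ≠ D.sgn (D.cl s) p

/-- The sample, used by class `i`, sends a request to cell `m`. -/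
def Lh (i m : ℕ) (s : ℕ → ℕ) : Prop := ∃ p < 3, D.G.route i (D.yy s p % D.G.ν) = m

open Classical in
noncomputable def sC (B L W e : ℕ) : ℕ :=
  if e < D.ev1 L then
    2 ^ (B * ((List.range D.G.k).filter fun i => decide (D.InI e i)).length *
      ((List.range (2 ^ (4 * W))).filter fun v => decide (D.Hit L e (smp W v))).length /
        (2 * 2 ^ (4 * W)))
  else 2 ^ D.sX L

open Classical in
noncomputable def sF (B L W e a v : ℕ) : ℕ :=
  if e < D.ev1 L then (if D.InI e (a / B) ∧ D.Hit L e (smp W v) then 1 else 2)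
  else if a / B = (e - D.ev1 L) / D.G.ν ∧ D.Lh (a / B) ((e - D.ev1 L) % D.G.ν) (smp W v) then 4
  else 2

/-- The `B` samples of each class. -/
noncomputable def sample (B L W : ℕ) : List ℕ :=
  greedy (D.ev1 L + D.G.k * D.G.ν) (D.G.k * B) (2 ^ (4 * W)) (D.sC B L W) (D.sF B L W)

/-- No class sends too many requests to one cell. -/
def LoadB (B cap : ℕ) (o : ℕ → ℕ → ℕ) : Prop :=
  ∀ i < D.G.k, ∀ m, ((range (3 * (D.G.k * B))).filter fun q => q / 3 / B = i ∧
    D.G.route (q / 3 / B) (D.yy (o (q / 3)) (q % 3) % D.G.ν) = m).card ≤ cap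

open Classical in
/-- Every assignment of the clones violates many samples of every large set of classes. -/
def ViolB (B E : ℕ) (o : ℕ → ℕ → ℕ) : Prop :=
  ∀ val : ℕ → Bool, ∀ I ⊆ range D.G.k, D.G.k1 ≤ I.card →
    B * I.card ≤ 64 * E * ((range (D.G.k * B)).filter fun a => a / B ∈ I ∧
      ∀ p < 3, val (D.yy (o a) p) ≠ D.sgn (D.cl (o a)) p).card

variable {D}

theorem smp_cl {s s' : ℕ → ℕ} (hs : ∀ c < 4, s c = s' c) : D.cl s = D.cl s' := by
  unfold cl
  rw [hs 3 (by omega)]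

theorem smp_yy {s s' : ℕ → ℕ} (hs : ∀ c < 4, s c = s' c) {p : ℕ} (hp : p < 3) :
    D.yy s p = D.yy s' p := by
  unfold yy uu
  rw [smp_cl hs, hs p (by omega)]

theorem smp_pr (W : ℕ) (P : (ℕ → ℕ) → Prop) [DecidablePred fun v => P (smp W v)]
    (hP : ∀ s s', (∀ c < 4, s c = s' c) → P s → P s') :
    pr (fun ω : Fin 4 → Fin (2 ^ W) => P (nx ω)) =
      (((range (2 ^ (4 * W))).filter fun v => P (smp W v)).card : ℝ) / 2 ^ (4 * W) := by
  have hW := Nat.two_pow_pos W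
  have hlt : ∀ (ω : Fin 4 → Fin (2 ^ W)), ∀ c < 4, nx ω c < 2 ^ W := fun ω c _ => (xt ω c).2
  have hnx : ∀ v, ∀ c < 4, nx (fun c : Fin 4 => (⟨smp W v c, dig_lt hW _ _ _⟩ : Fin (2 ^ W))) c =
      smp W v c := fun v c hc => by simp [nx, xt, hc]
  have hQ : (2 ^ W) ^ 4 = 2 ^ (4 * W) := by rw [← pow_mul, mul_comm]
  unfold pr
  congr 1
  · rw [Nat.cast_inj]
    refine card_nbij' (fun ω => pack (2 ^ W) 4 (nx ω))
      (fun v c => ⟨smp W v c, dig_lt hW _ _ _⟩) (fun ω hω => ?_) (fun v hv => ?_)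
      (fun ω _ => ?_) fun v hv => ?_
    · refine mem_coe.2 (mem_filter.2 ⟨mem_range.2 (hQ ▸ pack_lt (hlt ω)), ?_⟩)
      exact hP _ _ (fun c hc => (dig_pack (hlt ω) hc).symm) (smp_mem.1 (mem_coe.1 hω)).2
    · refine mem_coe.2 (smp_mem.2 ⟨mem_univ _, hP _ _ (fun c hc => (hnx v c hc).symm) ?_⟩)
      exact (mem_filter.1 (mem_coe.1 hv)).2
    · funext c
      refine Fin.ext ((dig_pack (hlt ω) c.2).trans ?_)
      rw [nx, xt_val]
    · exact (pack_congr (hnx v)).trans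
        (pack_dig (hQ ▸ mem_range.1 (mem_filter.1 (mem_coe.1 hv)).1))
  · simp [← pow_mul, mul_comm]

theorem smp_dn_le {W : ℕ} (hW : D.n < 2 ^ W) (u : ℕ) : D.dn u ≤ 2 ^ W := by
  have h1 : D.deg u ≤ 3 * D.m := by
    rw [sat_deg]
    exact (card_filter_le _ _).trans (card_range _).le
  have h2 : D.n * D.deg u / (3 * D.m) ≤ D.n :=
    Nat.div_le_of_le_mul (by rw [mul_comm]; exact Nat.mul_le_mul_right _ h1)
  unfold dn
  omega

theorem smp_pr_var (h : D.Wf) {W : ℕ} (hW : D.m ≤ 2 ^ W) {c : ℕ} (hc : c < 3) (u : ℕ) :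
    pr (fun x : Fin (2 ^ W) => D.var (x % D.m) c = u) ≤ D.deg u * (2 / D.m) := by
  have h1 : ((range D.m).filter fun j => D.var j c = u).card ≤ D.deg u := by
    rw [sat_deg]
    refine card_le_card_of_injOn (fun j => 3 * j + c) (fun j hj => ?_) fun j _ j' _ hj => ?_
    · obtain ⟨h2, h3⟩ := mem_filter.1 (mem_coe.1 hj)
      have h4 := mem_range.1 h2
      have h5 : (3 * j + c) / 3 = j := by omega
      have h6 : (3 * j + c) % 3 = c := by omega
      refine mem_coe.2 (mem_filter.2 ⟨mem_range.2 (by show 3 * j + c < _; omega), ?_⟩)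
      rw [h5, h6, h3]
    · have : 3 * j + c = 3 * j' + c := hj
      omega
  refine (pr_mono fun x hx => ?_).trans ((pr_exists_le' _
    (fun j (x : Fin (2 ^ W)) => (x : ℕ) % D.m = j) _
    fun j _ => pr_mod_le h.m_pos hW j).trans
      (mul_le_mul_of_nonneg_right (Nat.cast_le.2 h1) (by positivity)))
  exact ⟨_, mem_filter.2 ⟨mem_range.2 (Nat.mod_lt _ h.m_pos), hx⟩, rfl⟩

theorem smp_yy_le (h : D.Wf) {W : ℕ} (hW : D.m ≤ 2 ^ W) (hW' : D.n < 2 ^ W) {c : ℕ}
    (hc : c < 3) (y0 : ℕ) :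
    pr (fun ω : Fin 4 → Fin (2 ^ W) => D.yy (nx ω) c = y0) ≤ 12 / D.n := by
  by_cases h0 : ∃ e : ℕ → ℕ, D.yy e c = y0
  swap
  · refine (pr_mono (q := fun _ => False) fun ω hω => h0 ⟨_, hω⟩).trans ?_
    simp only [pr, filter_false, card_empty, Nat.cast_zero, zero_div]
    positivity
  obtain ⟨e, rfl⟩ := h0
  have hc3 : c ≠ 3 := hc.ne
  have h1 := pr_all (X := Fin (2 ^ W)) (N := 4) {3, c}
    (fun j hj => by
      rcases mem_insert.1 hj with rfl | hj
      · omega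
      · rw [mem_singleton.1 hj]; omega)
    fun j x => if j = 3 then D.var (x % D.m) c = D.uu e c
      else (x : ℕ) % D.dn (D.uu e c) = e c % D.dn (D.uu e c)
  rw [prod_pair hc3.symm] at h1
  simp only [if_true, if_neg hc3] at h1
  refine (pr_mono fun ω hω => ?_).trans (h1.le.trans ?_)
  · have h2 := uu_eq_of_yy_eq h hc hc hω
    intro j hj
    rcases mem_insert.1 hj with rfl | hj
    · rw [if_pos rfl]
      exact h2
    · rw [mem_singleton.1 hj, if_neg hc3]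
      unfold yy at hω
      rw [h2] at hω
      exact Nat.add_left_cancel hω
  · refine (mul_le_mul (smp_pr_var h hW hc _) (pr_mod_le (sat_dn_pos _) (smp_dn_le hW' _) _)
      (pr_nonneg _) (by positivity)).trans ?_
    have hm : (0 : ℝ) < D.m := Nat.cast_pos.2 h.m_pos
    have hn : (0 : ℝ) < D.n := Nat.cast_pos.2 h.n_pos
    have hd : (0 : ℝ) < D.dn (D.uu e c) := Nat.cast_pos.2 (sat_dn_pos _)
    have h3 : D.n * D.deg (D.uu e c) ≤ 3 * D.m * D.dn (D.uu e c) :=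
      (Nat.lt_mul_div_succ _ (by have := h.m_pos; omega)).le
    have h4 : (D.n : ℝ) * D.deg (D.uu e c) ≤ 3 * D.m * D.dn (D.uu e c) := by exact_mod_cast h3
    rw [← mul_div_assoc (D.deg _ : ℝ), div_mul_div_comm, div_le_div_iff₀ (mul_pos hm hd) hn]
    linarith

theorem smp_pr_cl (h : D.Wf) {W : ℕ} (hW : D.m ≤ 2 ^ W) {j : ℕ} (hj : j ∈ range D.m) :
    1 / (2 * D.m : ℝ) ≤ pr fun x : Fin (2 ^ W) => (x : ℕ) % D.m = j := by
  refine le_trans ?_ (le_pr_mod h.m_pos hW fun i => i = j)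
  refine div_le_div_of_nonneg_right (Nat.one_le_cast.2 (card_pos.2 ⟨j, ?_⟩)) (by positivity)
  exact sat_mem.2 ⟨hj, rfl⟩

theorem smp_pr_viol (h : D.Wf) {W : ℕ} (hW : D.m ≤ 2 ^ W) {E : ℕ} (hE : 0 < E)
    (hfar : D.IsFar E) (val : ℕ → Bool) :
    1 / (16 * E : ℝ) ≤ pr (fun ω : Fin 4 → Fin (2 ^ W) =>
      ∀ p < 3, val (D.yy (nx ω) p) ≠ D.sgn (D.cl (nx ω)) p) := by
  classical
  choose a ha using fun u => sat_major fun x : Fin (2 ^ W) => val (D.off u + x % D.dn u)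
  have hm : (0 : ℝ) < D.m := Nat.cast_pos.2 h.m_pos
  have hE' : (0 : ℝ) < E := Nat.cast_pos.2 hE
  have h1 : (D.m : ℝ) ≤ E * (((range D.m).filter
      fun j => ∀ c < 3, a (D.var j c) ≠ D.sgn j c).card : ℝ) := by
    rw [← Nat.cast_mul, Nat.cast_le]
    exact (hfar a).trans (Nat.mul_le_mul_left _
      (card_le_card fun j hj => sat_mem.2 (sat_mem.1 hj)))
  refine le_trans ?_ (sat_sum_pr ((range D.m).filter fun j => ∀ c < 3, a (D.var j c) ≠ D.sgn j c)
    (fun ω => D.cl (nx ω))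
    (fun j ω => ∀ i ∈ range 4, if i = 3 then ((xt ω i : Fin (2 ^ W)) : ℕ) % D.m = j
      else val (D.off (D.var j i) + (xt ω i : Fin (2 ^ W)) % D.dn (D.var j i)) = a (D.var j i))
    _ fun j hj ω hω => ?_)
  · refine le_trans ?_ (card_nsmul_le_sum _ _ (1 / (16 * D.m : ℝ)) fun j hj => ?_)
    · rw [nsmul_eq_mul, mul_one_div, div_le_div_iff₀ (by positivity) (by positivity)]
      linarith
    · rw [pr_all (X := Fin (2 ^ W)) (N := 4) (range 4) (fun j hj => mem_range.1 hj)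
        fun i x => if i = 3 then (x : ℕ) % D.m = j
          else val (D.off (D.var j i) + x % D.dn (D.var j i)) = a (D.var j i), prod_range_succ]
      have h2 := smp_pr_cl h hW (sat_mem.1 hj).1
      have h3 : (1 / 2 : ℝ) ^ 3 ≤ ∏ i ∈ range 3, pr fun x : Fin (2 ^ W) =>
          if i = 3 then (x : ℕ) % D.m = j
          else val (D.off (D.var j i) + x % D.dn (D.var j i)) = a (D.var j i) := by
        rw [← card_range 3, ← prod_const, card_range]
        refine prod_le_prod (fun _ _ => by norm_num) fun i hi => ?_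
        simp only [if_neg (mem_range.1 hi).ne]
        exact ha _
      simp only [if_true]
      refine le_trans (le_of_eq ?_) (mul_le_mul h3 h2 (by positivity)
        (le_trans (by positivity) h3))
      field_simp
      norm_num
  · have h2 : D.cl (nx ω) = j := by
      have := hω 3 (mem_range.2 (by omega))
      rwa [if_pos rfl] at this
    refine ⟨fun p hp => ?_, h2⟩
    have h3 := hω p (mem_range.2 (by omega))
    rw [if_neg hp.ne] at h3
    unfold yy uu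
    rw [h2]
    exact fun h4 => (sat_mem.1 hj).2 p hp (h3.symm.trans h4)

theorem smp_route (h : D.Wf) (hG : D.G.Geo) {W : ℕ} (hW : D.m ≤ 2 ^ W) (hW' : D.n < 2 ^ W)
    {i : ℕ} (hi : i < D.G.k) (m : ℕ) :
    pr (fun ω : Fin 4 → Fin (2 ^ W) => ∃ p ∈ range 3, D.G.route i (D.yy (nx ω) p % D.G.ν) = m)
      ≤ 72 * (D.G.k1 * (D.n / D.G.ν + 1 : ℕ)) / D.n := by
  have hν : 0 < D.G.ν := Nat.mul_pos hG.k1_pos hG.w_pos
  have h1 : ((range (2 * D.n)).filter fun y => D.G.route i (y % D.G.ν) = m).card ≤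
      D.G.k1 * (2 * (D.n / D.G.ν + 1)) := by
    refine le_trans ?_ (Nat.mul_le_mul_right _ (hG.route_fib i hi m))
    rw [← card_range (2 * (D.n / D.G.ν + 1)), ← card_product]
    refine card_le_card_of_injOn (fun y => (y % D.G.ν, y / D.G.ν)) (fun y hy => ?_)
      fun y _ y' _ hy => ?_
    · obtain ⟨h2, h3⟩ := mem_filter.1 (mem_coe.1 hy)
      refine mem_coe.2 (mem_product.2 ⟨mem_filter.2 ⟨mem_range.2 (Nat.mod_lt _ hν), h3⟩,
        mem_range.2 ((Nat.div_lt_iff_lt_mul hν).2 ?_)⟩)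
      have h4 := Nat.lt_mul_div_succ D.n hν
      have h5 := mem_range.1 h2
      rw [mul_assoc, mul_comm _ D.G.ν]
      omega
    · obtain ⟨h2, h3⟩ := Prod.mk.inj hy
      rw [← Nat.div_add_mod y D.G.ν, h2, h3, Nat.div_add_mod]
  have h2 : (((range (2 * D.n)).filter fun y => D.G.route i (y % D.G.ν) = m).card : ℝ) ≤
      D.G.k1 * (2 * (D.n / D.G.ν + 1 : ℕ)) := by exact_mod_cast h1
  refine (pr_exists_le' _ _ (D.G.k1 * (2 * (D.n / D.G.ν + 1 : ℕ)) * (12 / D.n))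
    fun p hp => ?_).trans (le_of_eq ?_)
  · refine (pr_mono fun ω hω => ?_).trans ((pr_exists_le' _
      (fun y (ω : Fin 4 → Fin (2 ^ W)) => D.yy (nx ω) p = y) _
      fun y _ => smp_yy_le h hW hW' (mem_range.1 hp) y).trans
        (mul_le_mul_of_nonneg_right h2 (by positivity)))
    exact ⟨_, mem_filter.2 ⟨mem_range.2 (yy_lt h _ (mem_range.1 hp)), hω⟩, rfl⟩
  · rw [card_range]
    push_cast
    ring

theorem smp_hits (h : D.Wf) (hG : D.G.Geo) {W : ℕ} (h1 : D.m ≤ 2 ^ W) (h2 : D.n < 2 ^ W)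
    (h3 : D.G.ν ≤ D.n) {i : ℕ} (hi : i < D.G.k) (m : ℕ)
    [DecidablePred fun v => D.Lh i m (smp W v)] :
    (((range (2 ^ (4 * W))).filter fun v => D.Lh i m (smp W v)).card : ℝ) ≤
      144 / D.G.w * 2 ^ (4 * W) := by
  have hν : 0 < D.G.ν := Nat.mul_pos hG.k1_pos hG.w_pos
  rw [← div_le_iff₀ (by positivity), ← smp_pr W (D.Lh i m) fun s s' hs ⟨p, hp, e⟩ =>
    ⟨p, hp, by rw [← smp_yy hs hp, e]⟩]
  refine le_trans (pr_mono fun ω ⟨p, hp, e⟩ => ?_) ((smp_route h hG h1 h2 hi m).trans ?_)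
  swap
  · exact ⟨p, mem_range.2 hp, e⟩
  have hn : (0 : ℝ) < D.n := Nat.cast_pos.2 h.n_pos
  have hw : (0 : ℝ) < D.G.w := Nat.cast_pos.2 hG.w_pos
  have h4 : D.G.k1 * D.G.w * (D.n / D.G.ν + 1) ≤ 2 * D.n := by
    have := Nat.mul_div_le D.n D.G.ν
    change D.G.ν * _ ≤ _
    rw [mul_add]
    omega
  have h5 : (D.G.k1 : ℝ) * D.G.w * (D.n / D.G.ν + 1 : ℕ) ≤ 2 * D.n := by exact_mod_cast h4
  rw [div_le_div_iff₀ hn hw]
  linarith

theorem smp_ev1 (L : ℕ) : D.ev1 L ≤ 2 ^ D.sX L := by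
  unfold ev1 sX
  rw [pow_add, pow_add, mul_comm 3, mul_comm 3, pow_mul, pow_mul]
  exact Nat.mul_le_mul_right _ (Nat.mul_le_mul_left _
    (Nat.pow_le_pow_left Nat.lt_two_pow_self.le _))

theorem smp_first {B L W e : ℕ} (hB : 0 < B) (he : e < D.ev1 L) :
    ((D.sC B L W e * ∏ j ∈ range (D.G.k * B), ∑ v ∈ range (2 ^ (4 * W)), D.sF B L W e j v : ℕ) :
      ℝ) ≤ (2 * 2 ^ (4 * W)) ^ (D.G.k * B) := by
  classical
  have hQ : (0 : ℝ) < 2 * 2 ^ (4 * W) := by positivity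
  obtain ⟨V, hV⟩ : ∃ V, V = ((range (2 ^ (4 * W))).filter fun v => D.Hit L e (smp W v)).card :=
    ⟨_, rfl⟩
  have h1 := smp_prod_le (D.G.k * B) (fun j => j / B ∈ (range D.G.k).filter (D.InI e))
    (fun j => ∑ v ∈ range (2 ^ (4 * W)), D.sF B L W e j v) (2 * 2 ^ (4 * W))
    (-(V / (2 * 2 ^ (4 * W)))) (fun j _ hj => ?_) fun j hj hj' => ?_
  · rw [sat_card hB (filter_subset _ _)] at h1
    rw [Nat.cast_mul, sC, if_pos he, smp_len, smp_len, ← hV]
    generalize B * ((range D.G.k).filter (D.InI e)).card = x at h1 ⊢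
    rw [Nat.cast_pow, Nat.cast_ofNat]
    refine (mul_le_mul (smp_two_le _) h1 (Nat.cast_nonneg _) (Real.exp_pos _).le).trans ?_
    rw [mul_left_comm, ← Real.exp_add]
    refine mul_le_of_le_one_right (by positivity) (Real.exp_le_one_iff.2 ?_)
    have h2 := Nat.cast_div_le (α := ℝ) (m := x * V) (n := 2 * 2 ^ (4 * W))
    push_cast at h2 ⊢
    rw [mul_div_assoc] at h2
    linarith
  · rw [smp_sum _ (fun v => D.Hit L e (smp W v)) _ 1 2
      (fun v hv => by rw [sF, if_pos he, if_pos ⟨(mem_filter.1 hj).2, hv⟩])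
      (fun v hv => by rw [sF, if_pos he, if_neg fun hh => hv hh.2]), ← hV]
    refine le_trans (le_of_eq ?_) (mul_le_mul_of_nonneg_left (Real.add_one_le_exp _) hQ.le)
    push_cast
    field_simp
    ring
  · have h3 : ¬ D.InI e (j / B) := fun hh =>
      hj' (mem_filter.2 ⟨mem_range.2 ((Nat.div_lt_iff_lt_mul hB).2 hj), hh⟩)
    rw [sum_congr rfl (g := fun _ => 2) fun v _ => by
      rw [sF, if_pos he, if_neg fun hh => h3 hh.1]]
    simp [mul_comm]

theorem smp_second {B L W i m : ℕ} (h : D.Wf) (hG : D.G.Geo) (h1 : D.m ≤ 2 ^ W)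
    (h2 : D.n < 2 ^ W) (h3 : D.G.ν ≤ D.n) (hB : 0 < B) {e : ℕ} (he : ¬ e < D.ev1 L)
    (hi : (e - D.ev1 L) / D.G.ν = i) (hm : (e - D.ev1 L) % D.G.ν = m) (hik : i < D.G.k) :
    ((D.sC B L W e * ∏ j ∈ range (D.G.k * B), ∑ v ∈ range (2 ^ (4 * W)), D.sF B L W e j v : ℕ) :
      ℝ) ≤ 2 ^ D.sX L * ((2 * 2 ^ (4 * W)) ^ (D.G.k * B) * 2 ^ (288 * B / D.G.w + 1)) := by
  classical
  have hQ : (0 : ℝ) < 2 * 2 ^ (4 * W) := by positivity
  have h4 := smp_prod_le (D.G.k * B) (fun j => j / B ∈ ({i} : Finset ℕ))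
    (fun j => ∑ v ∈ range (2 ^ (4 * W)), D.sF B L W e j v) (2 * 2 ^ (4 * W))
    (144 / D.G.w) (fun j _ hj => ?_) fun j hj hj' => ?_
  · rw [sat_card hB (singleton_subset_iff.2 (mem_range.2 hik)), card_singleton, mul_one] at h4
    rw [Nat.cast_mul, sC, if_neg he, Nat.cast_pow, Nat.cast_ofNat]
    refine mul_le_mul_of_nonneg_left (h4.trans (mul_le_mul_of_nonneg_left
      (le_trans (Real.exp_le_exp.2 ?_) (smp_le_two _)) (by positivity))) (by positivity)
    have hw : (0 : ℝ) < D.G.w := Nat.cast_pos.2 hG.w_pos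
    have h5 : ((288 * B : ℕ) : ℝ) ≤ (D.G.w * (288 * B / D.G.w + 1) : ℕ) :=
      Nat.cast_le.2 (Nat.lt_mul_div_succ _ hG.w_pos).le
    rw [div_mul_eq_mul_div, div_le_div_iff₀ hw two_pos]
    rw [Nat.cast_mul, Nat.cast_mul, Nat.cast_ofNat] at h5
    linarith
  · have h5 : j / B = i := mem_singleton.1 hj
    rw [smp_sum _ (fun v => D.Lh i m (smp W v)) _ 4 2
      (fun v hv => by rw [sF, if_neg he, hi, hm, h5, if_pos ⟨rfl, hv⟩])
      (fun v hv => by rw [sF, if_neg he, hi, hm, h5, if_neg fun hh => hv hh.2])]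
    refine le_trans ?_ (mul_le_mul_of_nonneg_left (Real.add_one_le_exp _) hQ.le)
    have h6 := smp_hits h hG h1 h2 h3 hik m
    push_cast
    linarith
  · rw [sum_congr rfl (g := fun _ => 2) fun v _ => by
      rw [sF, if_neg he, hi, if_neg fun hh => hj' (mem_singleton.2 hh.1)]]
    simp [mul_comm]

/-- Every term of the final potential is small. -/
theorem smp_term {B L W : ℕ} (h : D.Wf) (hG : D.G.Geo) (h1 : D.m ≤ 2 ^ W)
    (h2 : D.n < 2 ^ W) (h3 : D.G.ν ≤ D.n) (hB : 0 < B) {e : ℕ}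
    (he : e < D.ev1 L + D.G.k * D.G.ν) :
    D.sC B L W e * ∏ j ∈ range (D.G.k * B), D.sF B L W e j ((D.sample B L W).getD j 0) ≤
      2 ^ (D.G.k * B + (D.sX L + (288 * B / D.G.w + 1 + D.G.k + D.G.ν))) := by
  have hν : 0 < D.G.ν := Nat.mul_pos hG.k1_pos hG.w_pos
  have hQ := Nat.two_pow_pos (4 * W)
  have h4 := greedy_le (Ev := D.ev1 L + D.G.k * D.G.ν) (N := D.G.k * B) hQ (D.sC B L W)
    (D.sF B L W)
  refine Nat.le_of_mul_le_mul_left (((Nat.mul_le_mul_left _ (single_le_sum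
    (f := fun e => D.sC B L W e * ∏ j ∈ range (D.G.k * B), D.sF B L W e j
      ((D.sample B L W).getD j 0)) (fun _ _ => Nat.zero_le _) (mem_range.2 he))).trans h4).trans ?_)
    (pow_pos hQ _)
  rw [sum_range_add, ← Nat.cast_le (α := ℝ), Nat.cast_add, Nat.cast_sum, Nat.cast_sum]
  refine (add_le_add (sum_le_card_nsmul _ _ _ fun e he => smp_first hB (mem_range.1 he))
    (sum_le_card_nsmul _ _ _ fun x hx => smp_second h hG h1 h2 h3 hB (by omega) rfl rfl
      (by rw [Nat.add_sub_cancel_left, Nat.div_lt_iff_lt_mul hν]; exact mem_range.1 hx))).trans ?_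
  have h5 : (D.ev1 L : ℝ) ≤ 2 ^ D.sX L := by exact_mod_cast smp_ev1 L
  have h6 : D.G.k * D.G.ν + 1 ≤ 2 ^ D.G.k * 2 ^ D.G.ν := by
    have := Nat.mul_le_mul (Nat.succ_le_of_lt (Nat.lt_two_pow_self (n := D.G.k)))
      (Nat.succ_le_of_lt (Nat.lt_two_pow_self (n := D.G.ν)))
    simp only [Nat.succ_eq_add_one] at this
    nlinarith
  have h7 : (D.G.k : ℝ) * D.G.ν + 1 ≤ 2 ^ D.G.k * 2 ^ D.G.ν := by exact_mod_cast h6
  have h8 : (1 : ℝ) ≤ 2 ^ (288 * B / D.G.w + 1) := one_le_pow₀ one_le_two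
  simp only [card_range, nsmul_eq_mul]
  push_cast
  rw [pow_add 2 (D.G.k * B), pow_add 2 (D.sX L), pow_add 2 _ D.G.ν, pow_add 2 _ D.G.k, ← mul_assoc
    ((2 ^ (4 * W) : ℝ) ^ _), ← mul_pow, mul_comm (2 ^ (4 * W) : ℝ)]
  have h9 : (0 : ℝ) ≤ (2 * 2 ^ (4 * W)) ^ (D.G.k * B) := by positivity
  have h10 : (0 : ℝ) ≤ 2 ^ D.sX L := by positivity
  generalize ((2 : ℝ) * 2 ^ (4 * W)) ^ (D.G.k * B) = X at *
  generalize (2 : ℝ) ^ (288 * B / D.G.w + 1) = Y at *
  generalize (2 : ℝ) ^ D.sX L = S at *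
  have h11 := mul_le_mul_of_nonneg_left h7 (mul_nonneg (mul_nonneg h9 h10) (zero_le_one.trans h8))
  have h12 := mul_le_mul_of_nonneg_left h8 (mul_nonneg h9 h10)
  have h13 := mul_le_mul_of_nonneg_left h5 h9
  linarith

theorem sample_load {B L W : ℕ} (h : D.Wf) (hG : D.G.Geo) (h1 : D.m ≤ 2 ^ W)
    (h2 : D.n < 2 ^ W) (h3 : D.G.ν ≤ D.n) (hB : 0 < B) :
    D.LoadB B (3 * (288 * B / D.G.w + D.G.k + D.G.ν + 2))
      fun a => smp W ((D.sample B L W).getD a 0) := by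
  classical
  intro i hi m
  have hν : 0 < D.G.ν := Nat.mul_pos hG.k1_pos hG.w_pos
  by_cases hm : m < D.G.ν
  swap
  · refine le_trans (le_of_eq (card_eq_zero.2 (filter_eq_empty_iff.2 ?_))) (Nat.zero_le _)
    rintro q - ⟨h4, h5⟩
    rw [h4] at h5
    exact hm (h5 ▸ mem_range.1 (mem_filter.1 (hG.route_mem i hi _ (Nat.mod_lt _ hν))).1)
  have he : ¬ D.ev1 L + (D.G.ν * i + m) < D.ev1 L := by omega
  have h4 := smp_term (L := L) h hG h1 h2 h3 hB (e := D.ev1 L + (D.G.ν * i + m)) (by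
    have := Nat.mul_le_mul_left D.G.ν (Nat.succ_le_of_lt hi)
    rw [Nat.mul_succ, mul_comm _ D.G.k] at this
    omega)
  have hd : (D.ev1 L + (D.G.ν * i + m) - D.ev1 L) / D.G.ν = i := by
    rw [Nat.add_sub_cancel_left, Nat.mul_add_div hν, Nat.div_eq_of_lt hm, add_zero]
  have hr : (D.ev1 L + (D.G.ν * i + m) - D.ev1 L) % D.G.ν = m := by
    rw [Nat.add_sub_cancel_left, Nat.mul_add_mod, Nat.mod_eq_of_lt hm]
  obtain ⟨r, h5, h6⟩ := smp_prod (D.G.k * B)
    (fun j => j / B = i ∧ D.Lh i m (smp W ((D.sample B L W).getD j 0)))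
    (fun j => D.sF B L W (D.ev1 L + (D.G.ν * i + m)) j ((D.sample B L W).getD j 0)) 4 2
    (fun j _ hj => by rw [sF, if_neg he, hd, hr, hj.1, if_pos ⟨rfl, hj.2⟩])
    (fun j _ hj => by
      rw [sF, if_neg he, hd, hr]
      exact if_neg fun ⟨h7, h8⟩ => hj ⟨h7, h7 ▸ h8⟩)
  rw [h6, sC, if_neg he, show 4 = 2 ^ 2 from rfl, ← pow_mul, ← pow_add, ← pow_add,
    Nat.pow_le_pow_iff_right one_lt_two] at h4
  refine (card_le_mul_card_image_of_maps_to (f := fun q => q / 3) (t := (range (D.G.k * B)).filter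
    fun j => j / B = i ∧ D.Lh i m (smp W ((D.sample B L W).getD j 0))) (fun q hq => ?_) 3
    fun a _ => ?_).trans (by omega)
  · obtain ⟨h7, h8, h9⟩ := mem_filter.1 hq
    have h10 := mem_range.1 h7
    rw [h8] at h9
    exact mem_filter.2 ⟨mem_range.2 (by omega), h8, q % 3, by omega, h9⟩
  · refine le_trans (card_le_card (t := Ico (3 * a) (3 * a + 3)) fun q hq => ?_)
      (by rw [Nat.card_Ico]; omega)
    have h7 : q / 3 = a := (mem_filter.1 hq).2
    exact mem_Ico.2 (by omega)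

/-- The event attached to a set of classes, a type and an assignment. -/
theorem smp_event {L : ℕ} (val : ℕ → Bool) (I : Finset ℕ) {τ : ℕ} (hτ : τ < L ^ 3) :
    ∃ e < D.ev1 L, (∀ i < D.G.k, D.InI e i ↔ i ∈ I) ∧ ∀ s, D.Hit L e s ↔
      ∀ p < 3, D.yy s p / D.bk L = dig L 3 p τ ∧ val (D.yy s p) ≠ D.sgn (D.cl s) p := by
  have hb : ∀ i < D.G.k, (if i ∈ I then 1 else 0) < 2 := fun i _ => by split_ifs <;> omega
  have hv : ∀ y, (val y).toNat < 2 := fun y => Bool.toNat_lt _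
  have hP : ∀ p < 3, pack 2 (D.bk L) (fun s => (val (dig L 3 p τ * D.bk L + s)).toNat) <
      2 ^ D.bk L := fun p _ => pack_lt fun _ _ => hv _
  have h1 := pack_lt hb
  have h2 := pack_lt hP
  have h3 := fun p (hp : p < 3) => dig_pack hP hp
  have h4 := fun i (hi : i < D.G.k) => dig_pack hb hi
  generalize pack 2 D.G.k (fun i => if i ∈ I then 1 else 0) = a at h1 h4
  generalize pack (2 ^ D.bk L) 3 (fun p => pack 2 (D.bk L)
    fun s => (val (dig L 3 p τ * D.bk L + s)).toNat) = P at h2 h3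
  have hk := Nat.two_pow_pos D.G.k
  have h5 : (a + 2 ^ D.G.k * (τ + L ^ 3 * P)) / 2 ^ D.G.k = τ + L ^ 3 * P := by
    rw [Nat.add_mul_div_left _ _ hk, Nat.div_eq_of_lt h1, zero_add]
  refine ⟨a + 2 ^ D.G.k * (τ + L ^ 3 * P), ?_, fun i hi => ?_, fun s => ?_⟩
  · have h6 : τ + L ^ 3 * P + 1 ≤ L ^ 3 * (2 ^ D.bk L) ^ 3 := by
      have := Nat.mul_le_mul_left (L ^ 3) (Nat.succ_le_of_lt h2)
      rw [Nat.mul_succ] at this
      omega
    have h7 := Nat.mul_le_mul_left (2 ^ D.G.k) h6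
    unfold ev1
    rw [mul_add _ _ 1, ← mul_assoc (2 ^ D.G.k) (L ^ 3)] at h7
    omega
  · unfold InI
    rw [Nat.add_mul_mod_self_left, Nat.mod_eq_of_lt h1, h4 i hi]
    split_ifs with hI <;> simp [hI]
  · unfold Hit
    rw [h5, Nat.add_mul_mod_self_left, Nat.mod_eq_of_lt hτ,
      Nat.add_mul_div_left _ _ (by omega), Nat.div_eq_of_lt hτ, zero_add]
    refine forall₂_congr fun p hp => and_congr_right fun hy => ?_
    rw [h3 p hp, dig_pack (s := D.bk L) (fun _ _ => hv _) (Nat.mod_lt _ (Nat.succ_pos _)),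
      ← hy, Nat.div_add_mod']
    cases val (D.yy s p) <;> simp

theorem sample_viol {B L W E : ℕ} (h : D.Wf) (hG : D.G.Geo) (h1 : D.m ≤ 2 ^ W)
    (h2 : D.n < 2 ^ W) (h3 : D.G.ν ≤ D.n) (hB : 0 < B) (hL : 0 < L) (hE : 0 < E)
    (hfar : D.IsFar E)
    (h4 : 64 * E * L ^ 3 * (D.sX L + 288 * B / D.G.w + D.G.k + D.G.ν + 3) ≤ B * D.G.k1) :
    D.ViolB B E fun a => smp W ((D.sample B L W).getD a 0) := by
  classical
  intro val I hI hk
  have hQ := Nat.two_pow_pos (4 * W)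
  obtain ⟨ty, hty⟩ : ∃ ty : (ℕ → ℕ) → ℕ, ∀ s, ty s = pack L 3 fun p => D.yy s p / D.bk L :=
    ⟨_, fun _ => rfl⟩
  have hlt : ∀ s, ∀ p < 3, D.yy s p / D.bk L < L := fun s p hp => by
    rw [Nat.div_lt_iff_lt_mul (k := D.bk L) (Nat.succ_pos _)]
    exact (yy_lt h s hp).trans (Nat.lt_mul_div_succ _ hL)
  obtain ⟨Vi, hVi⟩ : ∃ Vi : (ℕ → ℕ) → Prop, ∀ s, Vi s ↔
      ∀ p < 3, val (D.yy s p) ≠ D.sgn (D.cl s) p := ⟨_, fun _ => Iff.rfl⟩
  obtain ⟨Z, hZ⟩ : ∃ Z, Z = D.sX L + (288 * B / D.G.w + 1 + D.G.k + D.G.ν) := ⟨_, rfl⟩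
  have key : ∀ τ ∈ range (L ^ 3), B * I.card *
      (((range (2 ^ (4 * W))).filter fun v => Vi (smp W v)).filter
        fun v => ty (smp W v) = τ).card ≤ 2 * 2 ^ (4 * W) *
      ((((range (D.G.k * B)).filter fun a => a / B ∈ I ∧
        Vi (smp W ((D.sample B L W).getD a 0))).filter
          fun a => ty (smp W ((D.sample B L W).getD a 0)) = τ).card + (Z + 1)) := by
    intro τ hτ
    obtain ⟨e, he, h5, h6⟩ := smp_event (D := D) val I (mem_range.1 hτ)
    have h7 : ∀ s, D.Hit L e s ↔ Vi s ∧ ty s = τ := fun s => by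
      rw [h6, hVi, hty]
      refine ⟨fun hh => ⟨fun p hp => (hh p hp).2, ?_⟩, fun hh p hp => ⟨?_, hh.1 p hp⟩⟩
      · exact (pack_congr fun p hp => (hh p hp).1).trans (pack_dig (mem_range.1 hτ))
      · rw [← hh.2, dig_pack (hlt s) hp]
    have h8 := smp_term (L := L) h hG h1 h2 h3 hB (he.trans_le (Nat.le_add_right _ _))
    have hj : ∀ j < D.G.k * B, D.InI e (j / B) ↔ j / B ∈ I := fun j hj =>
      h5 _ ((Nat.div_lt_iff_lt_mul hB).2 hj)
    obtain ⟨r, h9, h10⟩ := smp_prod (D.G.k * B)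
      (fun a => (a / B ∈ I ∧ Vi (smp W ((D.sample B L W).getD a 0))) ∧
        ty (smp W ((D.sample B L W).getD a 0)) = τ)
      (fun j => D.sF B L W e j ((D.sample B L W).getD j 0)) 1 2
      (fun j hj1 hj2 => by
        rw [sF, if_pos he, if_pos ⟨(hj j hj1).2 hj2.1.1, (h7 _).2 ⟨hj2.1.2, hj2.2⟩⟩])
      (fun j hj1 hj2 => by
        rw [sF, if_pos he, if_neg fun hh =>
          hj2 ⟨⟨(hj j hj1).1 hh.1, ((h7 _).1 hh.2).1⟩, ((h7 _).1 hh.2).2⟩])
    have h11 : (range D.G.k).filter (D.InI e) = I := by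
      ext i
      rw [mem_filter]
      exact ⟨fun hh => (h5 i (mem_range.1 hh.1)).1 hh.2,
        fun hh => ⟨hI hh, (h5 i (mem_range.1 (hI hh))).2 hh⟩⟩
    rw [h10, sC, if_pos he, smp_len, smp_len, h11, one_pow, one_mul, ← pow_add,
      Nat.pow_le_pow_iff_right one_lt_two, ← hZ, filter_congr fun v _ => h7 (smp W v)] at h8
    rw [filter_filter, filter_filter]
    refine (Nat.lt_mul_div_succ _ (Nat.mul_pos two_pos hQ)).le.trans (Nat.mul_le_mul_left _ ?_)
    omega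
  have h5 := sum_le_sum key
  rw [← mul_sum, ← mul_sum, sum_add_distrib, sum_const, card_range, smul_eq_mul,
    ← card_eq_sum_card_fiberwise (fun v _ => mem_coe.2 (mem_range.2 (hty _ ▸ pack_lt (hlt _)))),
    ← card_eq_sum_card_fiberwise
      (fun v _ => mem_coe.2 (mem_range.2 (hty _ ▸ pack_lt (hlt _))))] at h5
  have h6 := smp_pr_viol h h1 hE hfar val
  rw [pr_congr fun ω => (hVi (nx ω)).symm, smp_pr W Vi fun s s' hs hv =>
    (hVi _).2 fun p hp => by rw [← smp_yy hs hp, ← smp_cl hs]; exact (hVi _).1 hv p hp,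
    div_le_div_iff₀ (by positivity) (by positivity)] at h6
  have h7 : 1 * 2 ^ (4 * W) ≤
      ((range (2 ^ (4 * W))).filter fun v => Vi (smp W v)).card * (16 * E) := by exact_mod_cast h6
  refine le_trans ?_ (Nat.mul_le_mul_left _ (card_le_card (s := (range (D.G.k * B)).filter fun a =>
    a / B ∈ I ∧ Vi (smp W ((D.sample B L W).getD a 0))) fun a ha => sat_mem.2
      ⟨(mem_filter.1 ha).1, (mem_filter.1 ha).2.1, (hVi _).1 (mem_filter.1 ha).2.2⟩))
  have h8 : 64 * E * L ^ 3 * (Z + 2) ≤ B * I.card :=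
    le_trans (le_of_eq (by rw [hZ]; ring)) (h4.trans (Nat.mul_le_mul_left _ hk))
  generalize ((range (D.G.k * B)).filter fun a =>
    a / B ∈ I ∧ Vi (smp W ((D.sample B L W).getD a 0))).card = y at h5 ⊢
  generalize ((range (2 ^ (4 * W))).filter fun v => Vi (smp W v)).card = V at h5 h7
  generalize B * I.card = x at h5 h8 ⊢
  generalize 2 ^ (4 * W) = Q at h5 h7 hQ
  have h9 : Q * x ≤ Q * (32 * E * (y + L ^ 3 * (Z + 1))) := by
    have h10 := Nat.mul_le_mul_left x h7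
    have h11 := Nat.mul_le_mul_left (16 * E) h5
    nlinarith
  have h10 := Nat.le_of_mul_le_mul_left h9 hQ
  nlinarith [Nat.zero_le (E * L ^ 3)]

end Dat

end Pool.Agent.MP_a2da35_lc
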