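import Pool.Agent.MP_a2da35_lc.Gadget
import Pool.Agent.MP_a2da35_lc.Det.Col
import Pool.Agent.MP_a2da35_lc.Det.GK

/-!
An explicit gadget over `ZMod p`.
-/

namespace Pool.Agent.MP_a2da35_lc

open Finset Module

/-- The code, with labels read as vectors of `a` digits in base `p`. -/
structure Gad.CodeP (G : Gad) (p a h g : ℕ) : Prop where
  QA_eq : G.QA = p ^ a
  QA_pos : 0 < G.QA
  ev_lt : ∀ i m l, G.ev i m l < G.QS
  honest : ∃ lab sym : ℕ → (ℕ → ℕ → Bool) → ℕ, (∀ i z, lab i z < G.QA) ∧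
    (∀ i < G.k, ∀ m ∈ G.cells i, ∀ z, G.ev i m (lab i z) = sym m z) ∧
    ∀ m < G.ν, ∀ z, ∀ l < G.β, G.raw (sym m z) l = z m l
  sparse : ∀ i < G.k, ∀ P ⊆ range G.QA, P.card ≤ h → Sparse p a g P →
    G.w * P.card ≤ 8 * ∑ m ∈ G.cells i, (P.image (G.ev i m)).card

/-- Entry `(j, α)` of base matrix number `x`: `e` systematic rows, then evaluations. -/
def bE (k1 e J x j α : ℕ) : ℕ :=
  if j < e then (if α = x * e + j then 1 else 0)
  else 2 ^ ((min x k1 * J + min j J) * min α (k1 * e))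

def skp (a b : ℕ) : ℕ := if b < a then b else b + 1

/-- The gadget with `t + 1` axes. -/
def xg (p t k1 e J b : ℕ) : Gad where
  t := t + 1
  k1 := k1
  w := k1 ^ t
  β := e ^ (t + 1) * b
  QA := p ^ ((k1 * e) ^ t * J)
  QS := p ^ (J ^ (t + 1))
  inc i m := decide (dig k1 (t + 1) (i / k1) m = i % k1)
  route i m := pack k1 (t + 1) fun a => if a = i / k1 then i % k1 else dig k1 (t + 1) a m
  ev i m l := pack p (J ^ (t + 1)) fun y => ((List.range ((k1 * e) ^ t)).map fun α =>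
    dig p ((k1 * e) ^ t * J) (α * J + dig J (t + 1) (i / k1) y) l *
      ((List.range t).map fun a => bE k1 e J (dig k1 (t + 1) (skp (i / k1) a) m)
        (dig J (t + 1) (skp (i / k1) a) y) (dig (k1 * e) t a α)).prod).sum % p
  raw x s := decide (dig p (J ^ (t + 1)) (pack J (t + 1) fun a => dig e (t + 1) a (s / b)) x /
    2 ^ min (s % b) b % 2 = 1)

/-- Tuples of digits are numbered by `pack`. -/
def t1_num {Q : ℕ} (hQ : 0 < Q) (s N : ℕ) (hN : N = Q ^ s) : GadNum (Fin s → Fin Q) N where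
  enc v := pack Q s fun j => if h : j < s then (v ⟨j, h⟩ : ℕ) else 0
  dec l r := ⟨dig Q s r l, dig_lt hQ _ _ _⟩
  enc_lt v := hN ▸ pack_lt fun j hj => by
    rw [dif_pos hj]
    exact (v _).2
  dec_enc v := by
    funext r
    refine Fin.ext ?_
    show dig Q s r _ = _
    rw [dig_pack (fun j hj => by
      rw [dif_pos hj]
      exact (v _).2) r.2, dif_pos r.2]
  enc_dec l hl := by
    refine (pack_congr fun j hj => ?_).trans (pack_dig (hN ▸ hl))
    rw [dif_pos hj]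

theorem t1_sum {α : Type} [Fintype α] {N : ℕ} (c : GadNum α N) (f : α → ℕ) :
    ∑ m ∈ range N, f (c.dec m) = ∑ a, f a :=
  sum_nbij' c.dec c.enc (fun _ _ => mem_univ _) (fun a _ => mem_range.2 (c.enc_lt a))
    (fun m hm => c.enc_dec m (mem_range.1 hm)) (fun a _ => c.dec_enc a) fun _ _ => rfl

theorem t1_list_sum (n : ℕ) (f : ℕ → ℕ) : ((List.range n).map f).sum = ∑ j ∈ range n, f j := by
  rw [← List.sum_toFinset _ List.nodup_range, List.toFinset_range]

theorem t1_list_prod (n : ℕ) (f : ℕ → ℕ) : ((List.range n).map f).prod = ∏ j : Fin n, f j := by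
  rw [← List.prod_toFinset _ List.nodup_range, List.toFinset_range, Finset.prod_range]

theorem t1_skp {t : ℕ} (a : Fin (t + 1)) (b : Fin t) : skp a b = (a.succAbove b : ℕ) := by
  unfold skp
  split_ifs with h
  · rw [Fin.succAbove_of_castSucc_lt _ _ (by rwa [Fin.lt_def, Fin.val_castSucc])]
    rfl
  · rw [Fin.succAbove_of_le_castSucc _ _ (by rw [Fin.le_def, Fin.val_castSucc]; omega)]
    rfl

theorem t1_shape (p t e J b : ℕ) {k1 : ℕ} (hk : 0 < k1) :
    GadShape (xg p t k1 e J b) t k1 hk (t1_num hk (t + 1) (k1 * k1 ^ t) (pow_succ' _ _).symm) := by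
  refine ⟨rfl, rfl, rfl, fun i hi m _ => ?_, fun i hi m _ => ?_⟩
  · show decide (dig k1 (t + 1) (i / k1) m = i % k1) = true ↔ _
    rw [decide_eq_true_eq, Fin.ext_iff, ← gadAx_val hi]
    rfl
  · refine pack_congr fun j hj => ?_
    rw [dif_pos hj]
    by_cases h : j = i / k1
    · have h1 : (⟨j, hj⟩ : Fin (t + 1)) = gadAx t k1 i := Fin.ext (by rw [gadAx_val hi]; exact h)
      rw [if_pos h, h1, Function.update_self]
      rfl
    · have h1 : (⟨j, hj⟩ : Fin (t + 1)) ≠ gadAx t k1 i := fun he =>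
        h ((congrArg Fin.val he).trans (gadAx_val hi))
      rw [if_neg h, Function.update_of_ne h1]
      rfl

theorem xg_geo (p t e J b : ℕ) {k1 : ℕ} (hk : 0 < k1) : (xg p t k1 e J b).Geo :=
  (t1_shape p t e J b hk).geo

/-- The message. -/
def t1_zt (t k1 e b : ℕ) (z : ℕ → ℕ → Bool) (α : Fin (t + 1) → Fin (k1 * e)) : ℕ :=
  pack 2 b fun s => (z (pack k1 (t + 1) fun a => if h : a < t + 1 then (α ⟨a, h⟩ : ℕ) / e else 0)
    ((pack e (t + 1) fun a => if h : a < t + 1 then (α ⟨a, h⟩ : ℕ) % e else 0) * b + s)).toNat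

theorem t1_zt_lt (t k1 e b : ℕ) (z : ℕ → ℕ → Bool) (α : Fin (t + 1) → Fin (k1 * e)) :
    t1_zt t k1 e b z α < 2 ^ b := pack_lt fun _ _ => Bool.toNat_lt _

/-- The honest symbol before reduction. -/
def t1_sym (t k1 e J : ℕ) (Z : (Fin (t + 1) → Fin (k1 * e)) → ℕ) (m y : ℕ) : ℕ :=
  ∑ α : Fin (t + 1) → Fin (k1 * e), Z α *
    ∏ a : Fin (t + 1), bE k1 e J (dig k1 (t + 1) a m) (dig J (t + 1) a y) (α a)

/-- The honest label before reduction. -/
def t1_lab (t k1 e J : ℕ) (Z : (Fin (t + 1) → Fin (k1 * e)) → ℕ) (a : Fin (t + 1)) (x j : ℕ)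
    (α : Fin t → Fin (k1 * e)) : ℕ :=
  ∑ α₀ : Fin (k1 * e), Z (a.insertNth α₀ α) * bE k1 e J x j α₀

theorem t1_ev_lab (t k1 e J : ℕ) (Z : (Fin (t + 1) → Fin (k1 * e)) → ℕ) (a : Fin (t + 1))
    (m y : ℕ) :
    ∑ α : Fin t → Fin (k1 * e), t1_lab t k1 e J Z a (dig k1 (t + 1) a m) (dig J (t + 1) a y) α *
      ∏ c : Fin t, bE k1 e J (dig k1 (t + 1) (a.succAbove c) m) (dig J (t + 1) (a.succAbove c) y)
        (α c) = t1_sym t k1 e J Z m y := by
  rw [t1_sym, ← (Fin.insertNthEquiv (fun _ => Fin (k1 * e)) a).sum_comp, Fintype.sum_prod_type,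
    sum_comm]
  refine sum_congr rfl fun α' _ => ?_
  rw [t1_lab, sum_mul]
  refine sum_congr rfl fun α _ => ?_
  rw [Fin.prod_univ_succAbove _ a, mul_assoc]
  simp only [Fin.insertNthEquiv_apply, Fin.insertNth_apply_same, Fin.insertNth_apply_succAbove]
  rfl

theorem t1_sym_raw {t k1 e J : ℕ} (Z : (Fin (t + 1) → Fin (k1 * e)) → ℕ) (m y : ℕ)
    (β : Fin (t + 1) → Fin (k1 * e)) (hy : ∀ a : Fin (t + 1), dig J (t + 1) a y < e)
    (hβ : ∀ a, (β a : ℕ) = dig k1 (t + 1) a m * e + dig J (t + 1) a y) :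
    t1_sym t k1 e J Z m y = Z β := by
  rw [t1_sym, sum_eq_single β (fun α _ hα => ?_) fun h => absurd (mem_univ _) h]
  · rw [prod_eq_one fun a _ => by rw [bE, if_pos (hy a), if_pos (hβ a)], mul_one]
  · obtain ⟨a, ha⟩ := Function.ne_iff.mp hα
    rw [prod_eq_zero (mem_univ a) (by
      rw [bE, if_pos (hy a), if_neg fun h => ha (Fin.ext (h.trans (hβ a).symm))]), mul_zero]

theorem t1_sum_mod (p : ℕ) (s : Finset ℕ) (f g : ℕ → ℕ) :
    (∑ x ∈ s, f x % p * g x) % p = (∑ x ∈ s, f x * g x) % p := by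
  rw [sum_nat_mod, sum_nat_mod s p fun x => f x * g x]
  simp only [Nat.mod_mul_mod]

theorem xg_honest {p t k1 e J b : ℕ} (hp : 2 ^ b < p) (hk : 0 < k1) (he : 0 < e) (hb : 0 < b)
    (hJ : e ≤ J) :
    ∃ lab sym : ℕ → (ℕ → ℕ → Bool) → ℕ, (∀ i z, lab i z < (xg p t k1 e J b).QA) ∧
    (∀ i < (xg p t k1 e J b).k, ∀ m ∈ (xg p t k1 e J b).cells i, ∀ z,
      (xg p t k1 e J b).ev i m (lab i z) = sym m z) ∧
    ∀ m < (xg p t k1 e J b).ν, ∀ z, ∀ l < (xg p t k1 e J b).β,
      (xg p t k1 e J b).raw (sym m z) l = z m l := by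
  have hp0 : 0 < p := lt_of_le_of_lt (Nat.zero_le _) hp
  have hJ0 : 0 < J := lt_of_lt_of_le he hJ
  have hK : 0 < k1 * e := Nat.mul_pos hk he
  let c := t1_num hK t ((k1 * e) ^ t) rfl
  refine ⟨fun i z => pack p ((k1 * e) ^ t * J) fun x => t1_lab t k1 e J (t1_zt t k1 e b z)
      (gadAx t k1 i) (i % k1) (x % J) (c.dec (x / J)) % p,
    fun m z => pack p (J ^ (t + 1)) fun y => t1_sym t k1 e J (t1_zt t k1 e b z) m y % p,
    fun i z => pack_lt fun _ _ => Nat.mod_lt _ hp0, fun i hi m hm z => ?_, fun m hm z l hl => ?_⟩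
  · have hi' : i < (t + 1) * k1 := hi
    have h1 : dig k1 (t + 1) (i / k1) m = i % k1 := of_decide_eq_true (mem_filter.1 hm).2
    refine pack_congr fun y _ => ?_
    rw [t1_list_sum, ← t1_ev_lab t k1 e J _ (gadAx t k1 i), ← t1_sum c]
    refine Eq.trans (congrArg (· % p) (sum_congr rfl fun α hα => ?_)) (t1_sum_mod p _ _ _)
    have h2 : dig J (t + 1) (i / k1) y < J := dig_lt hJ0 _ _ _
    have h3 : α * J + dig J (t + 1) (i / k1) y < (k1 * e) ^ t * J := by
      have := Nat.mul_le_mul_right J (Nat.succ_le_of_lt (mem_range.1 hα))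
      rw [Nat.succ_mul] at this
      omega
    rw [dig_pack (fun _ _ => Nat.mod_lt _ hp0) h3, t1_list_prod, Nat.mul_add_mod',
      Nat.mod_eq_of_lt h2, mul_comm α J, Nat.mul_add_div hJ0, Nat.div_eq_of_lt h2, add_zero]
    simp only [← t1_skp, gadAx_val hi', h1]
    rfl
  · have hm' : m < k1 ^ (t + 1) := by rw [pow_succ']; exact hm
    have hl' : l / b < e ^ (t + 1) := Nat.div_lt_of_lt_mul (by rw [mul_comm]; exact hl)
    have hd : ∀ a < t + 1, dig e (t + 1) a (l / b) < J := fun a _ =>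
      lt_of_lt_of_le (dig_lt he _ _ _) hJ
    have hy : ∀ a : Fin (t + 1), dig J (t + 1) a (pack J (t + 1) fun a => dig e (t + 1) a (l / b))
        = dig e (t + 1) a (l / b) := fun a => dig_pack hd a.2
    let β : Fin (t + 1) → Fin (k1 * e) := fun a =>
      ⟨dig k1 (t + 1) a m * e + dig e (t + 1) a (l / b), by
        have h1 := Nat.mul_le_mul_right e (Nat.succ_le_of_lt (dig_lt hk (t + 1) a m))
        have h2 := dig_lt he (t + 1) a (l / b)
        rw [Nat.succ_mul] at h1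
        omega⟩
    show decide (dig p (J ^ (t + 1)) (pack J (t + 1) fun a => dig e (t + 1) a (l / b)) _ /
      2 ^ min (l % b) b % 2 = 1) = _
    rw [dig_pack (fun _ _ => Nat.mod_lt _ hp0) (pack_lt hd),
      t1_sym_raw _ m _ β (fun a => by rw [hy]; exact dig_lt he _ _ _) (fun a => by rw [hy]),
      Nat.mod_eq_of_lt ((t1_zt_lt ..).trans hp)]
    have h1 : (pack k1 (t + 1) fun a => if h : a < t + 1 then (β ⟨a, h⟩ : ℕ) / e else 0) = m := by
      refine (pack_congr fun j hj => ?_).trans (pack_dig hm')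
      rw [dif_pos hj]
      show (dig k1 (t + 1) j m * e + dig e (t + 1) j (l / b)) / e = _
      rw [mul_comm, Nat.mul_add_div he, Nat.div_eq_of_lt (dig_lt he _ _ _), add_zero]
    have h2 : (pack e (t + 1) fun a => if h : a < t + 1 then (β ⟨a, h⟩ : ℕ) % e else 0)
        = l / b := by
      refine (pack_congr fun j hj => ?_).trans (pack_dig hl')
      rw [dif_pos hj]
      show (dig k1 (t + 1) j m * e + dig e (t + 1) j (l / b)) % e = _
      rw [Nat.mul_add_mod', Nat.mod_eq_of_lt (dig_lt he _ _ _)]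
    have h3 : dig 2 b (l % b) (t1_zt t k1 e b z β) = (z m l).toNat := by
      rw [t1_zt, dig_pack (fun _ _ => Bool.toNat_lt _) (Nat.mod_lt _ hb), h1, h2,
        Nat.div_add_mod']
    rw [show t1_zt t k1 e b z β / 2 ^ min (l % b) b % 2 = (z m l).toNat from h3]
    cases z m l <;> rfl

/-!
The explicit gadget satisfies the local lemma.
-/

/-- The number with the given digits. -/
def t2_enc {N s : ℕ} (w : Fin s → Fin N) : ℕ :=
  pack N s fun j => if h : j < s then (w ⟨j, h⟩ : ℕ) else 0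

theorem t2_lt {N s : ℕ} (w : Fin s → Fin N) : t2_enc w < N ^ s :=
  pack_lt fun j hj => by
    rw [dif_pos hj]
    exact (w _).2

theorem t2_dig {N s : ℕ} (w : Fin s → Fin N) (r : Fin s) : dig N s r (t2_enc w) = w r := by
  rw [t2_enc, dig_pack (fun j hj => by
    rw [dif_pos hj]
    exact (w _).2) r.2, dif_pos r.2]

theorem t2_inj {N s : ℕ} : Function.Injective (t2_enc (N := N) (s := s)) := fun w w' h =>
  funext fun r => Fin.ext (by rw [← t2_dig w r, h, t2_dig])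

theorem t2_surj {N s l : ℕ} (hN : 0 < N) (hl : l < N ^ s) :
    ∃ w : Fin s → Fin N, t2_enc w = l := by
  refine ⟨fun r => ⟨dig N s r l, dig_lt hN _ _ _⟩, (pack_congr fun j hj => ?_).trans (pack_dig hl)⟩
  rw [dif_pos hj]

theorem t2_sum {M : Type} [AddCommMonoid M] {N s : ℕ} (hN : 0 < N) (f : ℕ → M) :
    ∑ l ∈ range (N ^ s), f l = ∑ w : Fin s → Fin N, f (t2_enc w) := by
  symm
  refine sum_bij (fun w _ => t2_enc w) (fun w _ => mem_range.2 (t2_lt w))
    (fun w _ w' _ h => t2_inj h) (fun l hl => ?_) fun _ _ => rfl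
  obtain ⟨w, hw⟩ := t2_surj hN (mem_range.1 hl)
  exact ⟨w, mem_univ _, hw⟩

theorem t2_skp {t : ℕ} (a : Fin (t + 1)) (b : Fin t) : skp a b = (a.succAbove b : ℕ) := by
  unfold skp Fin.succAbove
  by_cases h : (b : ℕ) < a
  · rw [if_pos h, if_pos (Fin.lt_def.2 h)]
    rfl
  · rw [if_neg h, if_neg fun h' => h (Fin.lt_def.1 h')]
    rfl

/-- The position of the entry `(α, j)` of a label. -/
def t2_idx {K t J : ℕ} (q : (Fin t → Fin K) × Fin J) : Fin (K ^ t * J) :=
  ⟨t2_enc q.1 * J + q.2, by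
    have h1 := Nat.mul_le_mul_right J (Nat.succ_le_of_lt (t2_lt q.1))
    have h2 := q.2.2
    rw [Nat.succ_mul] at h1
    omega⟩

theorem t2_idx_surj {K t J : ℕ} (hK : 0 < K) (hJ : 0 < J) :
    Function.Surjective (t2_idx (K := K) (t := t) (J := J)) := fun x => by
  obtain ⟨w, hw⟩ := t2_surj (s := t) (l := x / J) hK ((Nat.div_lt_iff_lt_mul hJ).2 x.2)
  refine ⟨(w, ⟨x % J, Nat.mod_lt _ hJ⟩), Fin.ext ?_⟩
  show t2_enc w * J + x % J = x
  rw [hw, Nat.div_add_mod']

/-- The base matrices over `ZMod p`. -/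
def t2_E (p k1 e J : ℕ) (x : Fin k1) (j : Fin J) (α : Fin (k1 * e)) : ZMod p :=
  (bE k1 e J x j α : ℕ)

theorem t2_base {p k1 e J b R h : ℕ} [Fact p.Prime] (hb : 2 ^ b < p) (hJ : J = (R + 1) * e)
    (hh : h ≤ e) (hR : 2 ≤ R) (hA : k1 * J ≤ b) :
    Design (fun x => LinearMap.ker (Matrix.mulVecLin (Matrix.of (t2_E p k1 e J x)))) (2 / R) h := by
  have h1 : J = e + R * e := by rw [hJ]; ring
  have h2 : 2 * e ≤ R * e := Nat.mul_le_mul_right e hR
  have h3 : k1 * e ≤ k1 * J := Nat.mul_le_mul_left k1 (by omega)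
  refine gk_design (A := b + 1) (σ := J) (o := e) (τ := R * e) 2 (two_pow_inj hb) (by omega)
    (by omega) h1.ge (by omega) _ (fun x v hv j hj => ?_) ?_
  · have h4 := congrFun (LinearMap.mem_ker.1 hv) ⟨e + j, by omega⟩
    have h5 : ∑ α, t2_E p k1 e J x ⟨e + j, by omega⟩ α * v α = 0 := h4
    show ∑ α, v α * (2 ^ ((x : ℕ) * J + e + j)) ^ (α : ℕ) = 0
    refine Eq.trans (sum_congr rfl fun α _ => ?_) h5
    rw [mul_comm, t2_E, bE, if_neg (by simp), min_eq_left x.2.le, min_eq_left α.2.le,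
      min_eq_left (show e + j ≤ J by omega), ← add_assoc, pow_mul]
    push_cast
    rfl
  · have h4 : (0 : ℝ) < R := by exact_mod_cast (show 0 < R by omega)
    have h5 : R * e ≤ 2 * (R * e - h + 1) := by omega
    have h6 : (R : ℝ) * e ≤ 2 * ((R * e - h + 1 : ℕ) : ℝ) := by exact_mod_cast h5
    have h7 : (0 : ℝ) ≤ k1 := Nat.cast_nonneg _
    rw [div_mul_eq_mul_div, div_mul_eq_mul_div, le_div_iff₀ h4, Nat.cast_mul k1 e]
    nlinarith [mul_le_mul_of_nonneg_left h6 h7]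

theorem t2_ev {p t k1 e J b i : ℕ} [Fact p.Prime] (hk : 0 < k1) (he : 0 < e)
    (hi : i < (t + 1) * k1) (v : Fin t → Fin k1) (l : ℕ) (q : (Fin t → Fin J) × Fin J) :
    ((dig p (J ^ (t + 1)) (t2_enc ((gadAx t k1 i).insertNth q.2 q.1 : Fin (t + 1) → Fin J))
      ((xg p t k1 e J b).ev i
        (t2_enc ((gadAx t k1 i).insertNth (gadPos hk i) v : Fin (t + 1) → Fin k1)) l) : ℕ) :
          ZMod p) =
      tens (t2_E p k1 e J) t v (fun r => vec p ((k1 * e) ^ t * J) l (t2_idx r)) q := by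
  have hp : 0 < p := (Fact.out : p.Prime).pos
  refine (congrArg Nat.cast (dig_pack (fun _ _ => Nat.mod_lt _ hp) (t2_lt _))).trans ?_
  rw [ZMod.natCast_mod, ← List.sum_toFinset _ List.nodup_range, List.toFinset_range,
    t2_sum (Nat.mul_pos hk he), Nat.cast_sum]
  refine sum_congr rfl fun α _ => ?_
  rw [← List.prod_toFinset _ List.nodup_range, List.toFinset_range, prod_range,
    ← gadAx_val hi, t2_dig, Fin.insertNth_apply_same, Nat.cast_mul, Nat.cast_prod]
  refine congrArg₂ (· * ·) rfl (prod_congr rfl fun a _ => ?_)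
  rw [t2_skp, t2_dig, t2_dig, t2_dig, Fin.insertNth_apply_succAbove,
    Fin.insertNth_apply_succAbove]
  rfl

theorem xg_sparse {p t k1 e J b R h H : ℕ} (hp : p.Prime) (hb : 2 ^ b < p) (hk : 0 < k1)
    (he : 0 < e) (hJ : J = (R + 1) * e) (hh : h ≤ e) (hR : 2 ≤ R) (hA : k1 * J ≤ b) (hH : 1 ≤ H)
    (hs : 8400 * t * H ^ 3 ≤ R) :
    ∀ i < (xg p t k1 e J b).k, ∀ P ⊆ range (xg p t k1 e J b).QA, P.card ≤ h →
      Sparse p ((k1 * e) ^ t * J) (18 * H ^ 4) P →
      (xg p t k1 e J b).w * P.card ≤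
        8 * ∑ m ∈ (xg p t k1 e J b).cells i, (P.image ((xg p t k1 e J b).ev i m)).card := by
  intro i hi P hP hh' hS
  have : Fact p.Prime := ⟨hp⟩
  have hi' : i < (t + 1) * k1 := hi
  have hK : 0 < k1 * e := Nat.mul_pos hk he
  have heJ : e ≤ J := by rw [hJ]; nlinarith
  have hR0 : (0 : ℝ) < R := by exact_mod_cast (show 0 < R by omega)
  obtain ⟨π, hπ⟩ : ∃ π : (Fin ((k1 * e) ^ t * J) → ZMod p) →ₗ[ZMod p]
      ((Fin t → Fin (k1 * e)) × Fin J → ZMod p), ∀ u r, π u r = u (t2_idx r) :=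
    ⟨LinearMap.funLeft _ _ t2_idx, fun _ _ => rfl⟩
  have hD := (design_tens (t2_E p k1 e J) (2 / R) h (by positivity) (t2_base hb hJ hh hR hA) t
    (Fin J)).interleave (fun _ : Unit => π) (fun u hu => funext fun x => by
      obtain ⟨r, rfl⟩ := t2_idx_surj hK (by omega) x
      exact (hπ u r).symm.trans (congrFun (hu ()) r))
    (fun m => LinearMap.ker ((tens (t2_E p k1 e J) t m).comp π)) fun m _ u hu => hu
  have hinj : Set.InjOn (vec p ((k1 * e) ^ t * J)) P := vec_injOn.mono (coe_subset.2 hP)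
  have hcard : (P.image (vec p ((k1 * e) ^ t * J))).card = P.card := card_image_of_injOn hinj
  have h3 := local_lemma' (fun m => (tens (t2_E p k1 e J) t m).comp π) _ h H hD hH
    (by positivity) (by
      have h1 : (8400 : ℝ) * t * H ^ 3 ≤ R := by exact_mod_cast hs
      rw [show (t : ℝ) * (2 / R) * (4200 * H ^ 3) = 8400 * t * H ^ 3 / R by ring,
        div_le_one hR0]
      exact h1) (by
      rw [Nat.card_fun, Nat.card_zmod, Nat.card_eq_fintype_card, Fintype.card_fin]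
      have h1 : J ≤ (k1 * e) ^ t * J := Nat.le_mul_of_pos_left _ (Nat.pow_pos hK)
      exact lt_of_le_of_lt (by omega) (Nat.lt_pow_self hp.one_lt))
    (P.image (vec p ((k1 * e) ^ t * J))) (hcard ▸ hh') fun Q hQ r hr hrk => by
      obtain ⟨Q', hQ', rfl⟩ := subset_image_iff.1 hQ
      rw [coe_image] at hrk
      exact card_image_le.trans (hS Q' hQ' r hr hrk)
  rw [hcard, Fintype.card_fun, Fintype.card_fin, Fintype.card_fin] at h3
  refine h3.trans (Nat.mul_le_mul_left 8 ?_)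
  have hm : Function.Injective fun v : Fin t → Fin k1 =>
      t2_enc ((gadAx t k1 i).insertNth (gadPos hk i) v : Fin (t + 1) → Fin k1) := by
    intro v v' hv
    funext a
    have h1 := congrFun (t2_inj hv) ((gadAx t k1 i).succAbove a)
    rwa [Fin.insertNth_apply_succAbove, Fin.insertNth_apply_succAbove] at h1
  have hsub : (univ.image fun v : Fin t → Fin k1 =>
      t2_enc ((gadAx t k1 i).insertNth (gadPos hk i) v : Fin (t + 1) → Fin k1)) ⊆
      (xg p t k1 e J b).cells i := by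
    intro m hm
    obtain ⟨v, -, rfl⟩ := mem_image.1 hm
    refine mem_filter.2 ⟨mem_range.2 ((t2_lt _).trans_eq (pow_succ' _ _)), decide_eq_true ?_⟩
    rw [← gadAx_val hi', t2_dig, Fin.insertNth_apply_same]
    rfl
  refine le_trans ?_ (sum_le_sum_of_subset hsub)
  rw [sum_image fun x _ y _ h => hm h]
  refine sum_le_sum fun v _ => ?_
  rw [image_image]
  refine gad_card_image P _ _ fun x _ y _ hxy => funext fun q => ?_
  have h4 : ∀ l, π (vec p ((k1 * e) ^ t * J) l) =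
      fun r => vec p ((k1 * e) ^ t * J) l (t2_idx r) := fun l => funext fun r => hπ _ r
  show tens (t2_E p k1 e J) t v (π _) q = tens (t2_E p k1 e J) t v (π _) q
  rw [h4, h4, ← t2_ev (b := b) hk he hi', ← t2_ev (b := b) hk he hi', hxy]

theorem xg_code {p t k1 e J b R h H : ℕ} (hp : p.Prime) (hb : 2 ^ b < p) (hk : 0 < k1)
    (he : 0 < e) (hJ : J = (R + 1) * e) (hh : h ≤ e) (hR : 2 ≤ R) (hA : k1 * J ≤ b) (hH : 1 ≤ H)
    (hs : 8400 * t * H ^ 3 ≤ R) :
    (xg p t k1 e J b).CodeP p ((k1 * e) ^ t * J) h (18 * H ^ 4) := by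
  have h1 : e ≤ J := by rw [hJ]; nlinarith
  exact ⟨rfl, Nat.pow_pos hp.pos, fun i m l => pack_lt fun _ _ => Nat.mod_lt _ hp.pos,
    xg_honest hb hk he (lt_of_lt_of_le (Nat.mul_pos hk (by omega)) hA) h1,
    xg_sparse hp hb hk he hJ hh hR hA hH hs⟩

end Pool.Agent.MP_a2da35_lc
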