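import Pool.Agent.MP_a2da35_lc.No
import Pool.Agent.MP_a2da35_lc.Det.Tensor
import Pool.Agent.MP_a2da35_lc.Det.Sample
import Pool.Agent.MP_a2da35_lc.Det.Right

/-!
The family of bipartite graphs: completeness for some guess, soundness for every guess.
-/

namespace Pool.Agent.MP_a2da35_lc

open Finset

theorem Gad.coverB' {G : Gad} (hG : G.Geo) (sy : ℕ → ℕ → ℕ → ℕ) (I : Finset ℕ)
    (hI : ∀ i ∈ I, i < G.k) (lam : ℕ → ℕ) (e : ℕ → ℕ) (e1 : ∀ i ∈ I, ∀ m ∈ G.cells i, 1 ≤ e m)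
    (e2 : ∀ m ∈ G.conf sy I lam, 2 ≤ e m) :
    G.ν * I.card + (G.k1 + I.card) * (G.conf sy I lam).card ≤
      (G.k1 + I.card) * ∑ m ∈ range G.ν, e m := by
  classical
  set d : ℕ → ℕ := fun m => (I.filter fun o => m ∈ G.cells o).card with hd
  set C := (range G.ν).filter fun m => ∃ i ∈ I, m ∈ G.cells i with hC
  have h1 : C.card + (G.conf sy I lam).card ≤ ∑ m ∈ range G.ν, e m := by
    have hsub : G.conf sy I lam = (range G.ν).filter fun m => m ∈ G.conf sy I lam := by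
      ext m
      simp only [mem_filter, iff_and_self]
      intro hm
      unfold Gad.conf at hm
      exact (mem_filter.1 hm).1
    rw [hC, hsub, card_filter, card_filter, ← sum_add_distrib]
    refine sum_le_sum fun m _ => ?_
    split_ifs with h1 h2 h2
    · exact e2 m h2
    · obtain ⟨i, hi, hmi⟩ := h1
      exact e1 i hi m hmi
    · exact le_trans (by norm_num) (e2 m h2)
    · exact Nat.zero_le _
  have hf : ∀ i ∈ I, C.filter (fun m => m ∈ G.cells i) = G.cells i := by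
    intro i hi
    ext m
    simp only [hC, mem_filter]
    exact ⟨fun h => h.2, fun h => ⟨⟨Gad.cover_cells_sub i h, i, hi, h⟩, h⟩⟩
  have h2 : ∑ m ∈ C, d m = I.card * G.w := by
    have h := Gad.cover_swap (G := G) I C fun _ => 1
    simp only [mul_one] at h
    rw [← h, ← smul_eq_mul, ← sum_const]
    refine sum_congr rfl fun i hi => ?_
    rw [hf i hi, sum_const, smul_eq_mul, mul_one, hG.card_cells i (hI i hi)]
  have h3 : G.k1 * ∑ m ∈ C, d m ^ 2 ≤ I.card * (G.w * (G.k1 + I.card)) := by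
    have h := Gad.cover_swap (G := G) I C d
    simp only [sq]
    rw [← h, mul_sum, ← smul_eq_mul, ← sum_const]
    refine sum_le_sum fun i hi => ?_
    rw [hf i hi]
    exact Gad.cover_deg hG I hI (hI i hi)
  have h4 : (∑ m ∈ C, d m) ^ 2 ≤ C.card * ∑ m ∈ C, d m ^ 2 := sq_sum_le_card_mul_sum_sq
  have h5 : G.ν * I.card ≤ (G.k1 + I.card) * C.card := by
    rcases Nat.eq_zero_or_pos I.card with h0 | h0
    · simp [h0]
    refine Nat.le_of_mul_le_mul_right ?_ (Nat.mul_pos h0 hG.w_pos)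
    rw [h2] at h4
    calc G.ν * I.card * (I.card * G.w) = G.k1 * (I.card * G.w) ^ 2 := by rw [Gad.ν]; ring
      _ ≤ C.card * (G.k1 * ∑ m ∈ C, d m ^ 2) := by
        rw [mul_left_comm]; exact Nat.mul_le_mul_left _ h4
      _ ≤ C.card * (I.card * (G.w * (G.k1 + I.card))) := Nat.mul_le_mul_left _ h3
      _ = _ := by ring
  nlinarith [Nat.mul_le_mul_left (G.k1 + I.card) h1]

theorem exists_heavy (w : ℕ → ℕ) (j : ℕ) (I : Finset ℕ) (hj : j ≤ I.card) :
    ∃ J ⊆ I, J.card = j ∧ j * ∑ i ∈ I, w i ≤ I.card * ∑ i ∈ J, w i := by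
  induction hn : I.card generalizing I with
  | zero => exact ⟨∅, empty_subset _, by simp; omega, by simp; omega⟩
  | succ n ih =>
    rcases hj.eq_or_lt with h | h
    · exact ⟨I, Subset.rfl, h.symm, by rw [h, hn]⟩
    obtain ⟨x, hx, hmin⟩ := exists_min_image I w (card_pos.1 (by omega))
    have hc : (I.erase x).card = n := by rw [card_erase_of_mem hx]; omega
    obtain ⟨J, h1, h2, h3⟩ := ih (I.erase x) (by omega) hc
    refine ⟨J, h1.trans (erase_subset _ _), h2, ?_⟩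
    rcases Nat.eq_zero_or_pos n with rfl | h0
    · simp [show j = 0 by omega]
    have h4 := card_nsmul_le_sum (I.erase x) w (w x) fun y hy => hmin y (mem_of_mem_erase hy)
    rw [hc, smul_eq_mul] at h4
    rw [← add_sum_erase I w hx]
    refine Nat.le_of_mul_le_mul_left ?_ h0
    nlinarith [Nat.mul_le_mul_left j h4, Nat.mul_le_mul_left (n + 1) h3]

theorem arith_many' {ν k1 t x cf cv cap B c E Γ : ℕ} (hc : 0 < c) (hE : 0 < E) (hk1 : 0 < k1)
    (hB : 0 < B) (hΓ : Γ = 2097152000 * c * E) (ht : 32768 * c * Γ ≤ t)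
    (h1 : ν * x + (k1 + x) * cf ≤ (k1 + x) * cv) (h2 : t * k1 ≤ 16384 * c * x)
    (h3 : B * x ≤ 64 * E * (cap * (ν + t * cf))) (h4 : cap * ν ≤ 1000 * k1 * B) :
    (Γ + 1) * ν ≤ Γ * cv := by
  have hΓ0 : 0 < Γ := by rw [hΓ]; positivity
  have ht0 : 0 < t := lt_of_lt_of_le (by positivity) ht
  have a1 : 2 * (t * ν) ≤ Γ * (ν + t * cf) := by
    refine Nat.le_of_mul_le_mul_left (c := B * k1) ?_ (Nat.mul_pos hB hk1)
    calc B * k1 * (2 * (t * ν)) = 2 * ν * B * (t * k1) := by ring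
      _ ≤ 2 * ν * B * (16384 * c * x) := Nat.mul_le_mul_left _ h2
      _ = 32768 * c * ν * (B * x) := by ring
      _ ≤ 32768 * c * ν * (64 * E * (cap * (ν + t * cf))) := Nat.mul_le_mul_left _ h3
      _ = 2097152 * c * E * (ν + t * cf) * (cap * ν) := by ring
      _ ≤ 2097152 * c * E * (ν + t * cf) * (1000 * k1 * B) := Nat.mul_le_mul_left _ h4
      _ = _ := by rw [hΓ]; ring
  have a2 : t * (ν + cf) ≤ t * cv + 16384 * c * ν := by
    refine Nat.le_of_mul_le_mul_left (c := k1 + x) ?_ (by omega)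
    have b1 := Nat.mul_le_mul_left t h1
    have b2 := Nat.mul_le_mul_left ν h2
    nlinarith [Nat.zero_le (c * ν * k1)]
  refine Nat.le_of_mul_le_mul_left (c := t) ?_ ht0
  have a3 := Nat.mul_le_mul_left Γ a2
  have a4 : Γ * ν ≤ c * (Γ * ν) := Nat.le_mul_of_pos_left _ hc
  have a5 := Nat.mul_le_mul_right ν ht
  nlinarith

/-- A copy of `K_{a,a}` for a relation between `range NL` and `range NR`. -/
def HasB (NL NR : ℕ) (R : ℕ → ℕ → Prop) (a : ℕ) : Prop :=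
  ∃ A B : Finset ℕ, A.card = a ∧ B.card = a ∧ (∀ u ∈ A, u < NL) ∧ (∀ v ∈ B, v < NR) ∧
    ∀ u ∈ A, ∀ v ∈ B, R u v

structure DD where
  F : Dat
  B : ℕ
  h : ℕ
  u : ℕ
  d : ℕ
  D : ℕ
  A : ℕ
  L : ℕ
  q : ℕ
  Q1 : ℕ
  Q2 : ℕ
  Q3 : ℕ
  o : ℕ → ℕ → ℕ
  col1 : ℕ → ℕ
  col2 : ℕ → ℕ
  col3 : ℕ → ℕ

namespace DD

variable (X : DD)

def nq : ℕ := 3 * (X.F.G.k * X.B)
def cls (s : ℕ) : ℕ := s / 3 / X.B
def y (s : ℕ) : ℕ := X.F.yy (X.o (s / 3)) (s % 3)
def cell (s : ℕ) : ℕ := X.F.G.route (X.cls s) (X.y s % X.F.G.ν)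
def slot (s : ℕ) : ℕ :=
  ((List.range (min s X.nq)).filter fun s' => X.cell s' = X.cell s).length
def rd (i l s : ℕ) : Bool := X.F.G.raw (X.F.G.ev i (X.cell s) l) (X.slot s)

def Valid (i l : ℕ) : Prop :=
  (∀ a < X.F.G.k * X.B, a / X.B = i →
    ∃ c < 3, X.rd i l (3 * a + c) = X.F.sgn (X.F.cl (X.o a)) c) ∧
  ∀ s < X.nq, ∀ s' < X.nq, X.F.G.inc i (X.cell s) = true → X.F.G.inc i (X.cell s') = true →
    X.y s = X.y s' → X.rd i l s = X.rd i l s'

/-- Number of guesses. -/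
def Gn : ℕ := X.Q1 ^ X.F.G.k * X.Q2 * X.Q3 ^ X.L

/-- The colour class that receives the symbols. -/
def cl2 (γ : ℕ) : List ℕ :=
  (List.range (X.q ^ (4 * X.u))).filter fun x => X.col2 x = γ / X.Q1 ^ X.F.G.k % X.Q2

def AdjLR (γ u v : ℕ) : Prop :=
  X.F.G.QS ≤ (X.cl2 γ).length ∧ X.Valid (u / X.F.G.QA) (u % X.F.G.QA) ∧
  X.col1 (u % X.F.G.QA) = dig X.Q1 X.F.G.k (u / X.F.G.QA) (γ % X.Q1 ^ X.F.G.k) ∧
  KeptR X.q X.D X.A X.h X.L X.Q3 X.col3 (γ / X.Q1 ^ X.F.G.k / X.Q2) v ∧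
  ∀ m < X.F.G.ν, X.F.G.inc (u / X.F.G.QA) m = true →
    AdjT X.q X.D X.A X.d (4 * X.u) m
      ((X.cl2 γ).getD (X.F.G.ev (u / X.F.G.QA) m (u % X.F.G.QA)) 0) v

def NL : ℕ := X.F.G.k * X.F.G.QA
def NR : ℕ := X.q ^ X.D

structure Good (p a g cap c E Γ H : ℕ) : Prop where
  wf : X.F.Wf
  geo : X.F.G.Geo
  code : X.F.G.CodeP p a X.h g
  B_pos : 0 < X.B
  load : X.F.LoadB X.B cap X.o
  cap_le : X.F.G.t * cap ≤ X.F.G.β
  cap_ν : cap * X.F.G.ν ≤ 1000 * X.F.G.k1 * X.B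
  c1 : ColOk p a g X.h X.Q1 X.col1
  q_prime : X.q.Prime
  c2 : ColOk X.q (4 * X.u) 4 X.u X.Q2 X.col2
  c2_big : X.Q2 * X.F.G.QS ≤ X.q ^ (4 * X.u)
  c3 : ColOk X.q (2 * X.h) (2 * H ^ 4) X.h X.Q3 X.col3
  ν_lt : X.F.G.ν < X.D
  k_le : X.F.G.k * X.Q3 ^ X.L ≤ X.q ^ (X.D - X.F.G.ν)
  A_lt : 2 ^ X.A < X.q
  H_pos : 1 ≤ H
  D_A : X.D ≤ X.A
  L_A : X.L * (2 * X.h) ≤ X.A
  h_A : X.h ≤ X.A
  ν_A : (X.F.G.ν + 1) * X.d ≤ X.A
  L_ge : 4200 * H ^ 3 * X.D ≤ X.L * X.h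
  d_lt : 18 * H ^ 4 * X.d < X.h
  d_eq : X.d = 8 * (Γ + 1) * X.u
  D_le : 4 * Γ * X.D ≤ (4 * Γ + 1) * X.F.G.ν
  u_eq : X.u = 8192 * X.F.G.k1
  k_eq : X.F.G.k = c * X.h
  c_pos : 0 < c
  E_pos : 0 < E
  Γ_eq : Γ = 2097152000 * c * E
  t_ge : 32768 * c * Γ ≤ X.F.G.t

variable {X} {p a g cap c E Γ H : ℕ}

theorem Good.ν_pos (K : X.Good p a g cap c E Γ H) : 0 < X.F.G.ν :=
  Nat.mul_pos K.geo.k1_pos K.geo.w_pos

theorem Good.k_pos (K : X.Good p a g cap c E Γ H) : 0 < X.F.G.k :=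
  Nat.mul_pos K.geo.t_pos K.geo.k1_pos

theorem Good.h_pos (K : X.Good p a g cap c E Γ H) : 0 < X.h := (Nat.zero_le _).trans_lt K.d_lt

theorem Good.cls_lt (K : X.Good p a g cap c E Γ H) {s : ℕ} (hs : s < X.nq) :
    X.cls s < X.F.G.k := by
  unfold cls
  unfold nq at hs
  rw [Nat.div_lt_iff_lt_mul K.B_pos]
  omega

theorem Good.cell_mem (K : X.Good p a g cap c E Γ H) {s : ℕ} (hs : s < X.nq) :
    X.cell s ∈ X.F.G.cells (X.cls s) :=
  K.geo.route_mem _ (K.cls_lt hs) _ (Nat.mod_lt _ K.ν_pos)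

theorem slot_eq {s : ℕ} (hs : s < X.nq) :
    X.slot s = ((range s).filter fun s' => X.cell s' = X.cell s).card := by
  rw [slot, min_eq_left hs.le, length_filter_range]

theorem slot_lt_slot {s s' : ℕ} (hs : s < s') (hs' : s' < X.nq) (e : X.cell s = X.cell s') :
    X.slot s < X.slot s' := by
  rw [slot_eq hs', slot_eq (hs.trans hs'), e]
  refine card_lt_card ⟨filter_subset_filter _ (range_mono hs.le), fun hh => ?_⟩
  have := hh (mem_filter.2 ⟨mem_range.2 hs, e⟩)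
  simp at this

theorem slot_inj {s s' : ℕ} (hs : s < X.nq) (hs' : s' < X.nq) (e : X.cell s = X.cell s')
    (e' : X.slot s = X.slot s') : s = s' := by
  rcases lt_trichotomy s s' with hh | hh | hh
  · exact absurd e' (slot_lt_slot hh hs' e).ne
  · exact hh
  · exact absurd e' (slot_lt_slot hh hs e.symm).ne'

theorem Good.slot_lt (K : X.Good p a g cap c E Γ H) {s : ℕ} (hs : s < X.nq) :
    X.slot s < X.F.G.β := by
  rw [slot_eq hs]
  refine lt_of_lt_of_le (b := ((range X.nq).filter fun s' => X.cell s' = X.cell s).card)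
    (card_lt_card ⟨filter_subset_filter _ (range_mono hs.le), fun hh => ?_⟩)
    (le_trans ?_ K.cap_le)
  · have := hh (mem_filter.2 ⟨mem_range.2 hs, rfl⟩)
    simp at this
  · refine le_trans (Finset.card_le_mul_card_image_of_maps_to (f := X.cls)
      (t := (range X.F.G.k).filter fun i => X.cell s ∈ X.F.G.cells i) (fun s' hs' => ?_) cap
      fun i hi => ?_) ?_
    · obtain ⟨h1, h2⟩ := mem_filter.1 hs'
      exact mem_filter.2 ⟨mem_range.2 (K.cls_lt (mem_range.1 h1)),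
        h2 ▸ K.cell_mem (mem_range.1 h1)⟩
    · refine le_trans (card_le_card fun s' hs' => ?_)
        (K.load i (mem_range.1 (mem_filter.1 hi).1) (X.cell s))
      simp only [mem_filter] at hs' ⊢
      exact ⟨hs'.1.1, hs'.2, hs'.1.2⟩
    · rw [mul_comm]
      exact Nat.mul_le_mul_right _ (K.geo.deg _)

theorem yes (K : X.Good p a g cap c E Γ H) (x : ℕ → Bool)
    (hx : ∀ j < X.F.m, ∃ p < 3, x (X.F.var j p) = X.F.sgn j p) :
    ∃ γ < X.Gn, HasB X.NL X.NR (X.AdjLR γ) X.F.G.k := by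
  classical
  obtain ⟨lab, sym, h1, h2, h3⟩ := K.code.honest
  let z : ℕ → ℕ → Bool := fun m r => decide (∃ s < X.nq, X.cell s = m ∧ X.slot s = r ∧
    x (X.F.uu (X.o (s / 3)) (s % 3)) = true)
  have hz : ∀ s < X.nq, z (X.cell s) (X.slot s) = x (X.F.uu (X.o (s / 3)) (s % 3)) := by
    intro s hs
    rw [Bool.eq_iff_iff]
    simp only [z, decide_eq_true_eq]
    refine ⟨?_, fun hh => ⟨s, hs, rfl, rfl, hh⟩⟩
    rintro ⟨s', hs', e1, e2, e3⟩
    rwa [slot_inj hs' hs e1 e2] at e3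
  have hrd : ∀ i < X.F.G.k, ∀ s < X.nq, X.cell s ∈ X.F.G.cells i →
      X.rd i (lab i z) s = x (X.F.uu (X.o (s / 3)) (s % 3)) := by
    intro i hi s hs hm
    rw [rd, h2 i hi _ hm, h3 _ (mem_range.1 (mem_filter.1 hm).1) _ _ (K.slot_lt hs), hz s hs]
  have hval : ∀ i < X.F.G.k, X.Valid i (lab i z) := by
    refine fun i hi => ⟨fun b hb e => ?_, fun s hs s' hs' e1 e2 e3 => ?_⟩
    · obtain ⟨r, hr, hr'⟩ := hx (X.F.cl (X.o b)) (Nat.mod_lt _ K.wf.m_pos)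
      have hs : 3 * b + r < X.nq := by unfold nq; omega
      have e1 : (3 * b + r) / 3 = b := by omega
      have e2 : (3 * b + r) % 3 = r := by omega
      refine ⟨r, hr, ?_⟩
      rw [hrd i hi _ hs (by
        have := K.cell_mem hs
        rwa [cls, e1, e] at this), e1, e2]
      exact hr'
    · have hlt : ∀ s < X.nq, X.cell s ∈ range X.F.G.ν := fun s hs =>
        (mem_filter.1 (K.cell_mem hs)).1
      rw [hrd i hi s hs (mem_filter.2 ⟨hlt s hs, e1⟩),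
        hrd i hi s' hs' (mem_filter.2 ⟨hlt s' hs', e2⟩),
        Dat.uu_eq_of_yy_eq K.wf (Nat.mod_lt _ (by norm_num)) (Nat.mod_lt _ (by norm_num)) e3]
  have hQ2 : 0 < X.Q2 := (Nat.zero_le _).trans_lt (K.c2.1 0)
  obtain ⟨c2, hc2, hc2'⟩ := Finset.exists_le_card_fiber_of_mul_le_card_of_maps_to
    (s := range (X.q ^ (4 * X.u))) (t := range X.Q2) (f := X.col2) (n := X.F.G.QS)
    (fun l _ => mem_range.2 (K.c2.1 l)) ⟨0, mem_range.2 hQ2⟩
    (by rw [card_range, card_range]; exact K.c2_big)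
  rw [mem_range] at hc2
  set c1 := pack X.Q1 X.F.G.k fun i => X.col1 (lab i z) with hc1
  have hc1' : c1 < X.Q1 ^ X.F.G.k := pack_lt fun i _ => K.c1.1 _
  obtain ⟨c3, hc3, hc3'⟩ := right_yes (A := X.A) (h := X.h) (d := X.d) (r := 4 * X.u) K.q_prime
    K.c3.1 K.ν_lt.le K.k_le fun m =>
      ((List.range (X.q ^ (4 * X.u))).filter fun x => X.col2 x = c2).getD (sym m z) 0
  have g1 : ((c3 * X.Q2 + c2) * X.Q1 ^ X.F.G.k + c1) / X.Q1 ^ X.F.G.k = c3 * X.Q2 + c2 :=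
    Dat.div_vertex hc1'
  obtain ⟨B, hB1, hB2⟩ := Finset.exists_subset_card_eq hc3'
  refine ⟨(c3 * X.Q2 + c2) * X.Q1 ^ X.F.G.k + c1, ?_,
    (range X.F.G.k).image fun i => i * X.F.G.QA + lab i z, B, ?_, hB2, fun u hu => ?_,
    fun v hv => mem_range.1 (mem_filter.1 (hB1 hv)).1, fun u hu v hv => ?_⟩
  · rw [Gn, mul_assoc, mul_comm (X.Q1 ^ X.F.G.k), mul_comm X.Q2]
    exact Dat.vertex_lt (Dat.vertex_lt hc3 hc2) hc1'
  · rw [card_image_of_injOn, card_range]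
    intro i _ i' _ e
    have := congrArg (· / X.F.G.QA) e
    simpa only [Dat.div_vertex (h1 _ _)] using this
  · obtain ⟨i, hi, rfl⟩ := mem_image.1 hu
    exact Dat.vertex_lt (mem_range.1 hi) (h1 _ _)
  · obtain ⟨i, hi, rfl⟩ := mem_image.1 hu
    rw [mem_range] at hi
    obtain ⟨-, b1, b2⟩ := mem_filter.1 (hB1 hv)
    unfold AdjLR cl2
    rw [Dat.div_vertex (h1 _ _), Dat.mod_vertex (h1 _ _), g1, Dat.mod_vertex hc1',
      Dat.div_vertex hc2, Dat.mod_vertex hc2]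
    refine ⟨by rwa [length_filter_range], hval i hi, ?_, b1, fun m hm hi' => ?_⟩
    · rw [hc1, dig_pack (fun i _ => K.c1.1 _) hi]
    · rw [h2 i hi m (mem_filter.2 ⟨mem_range.2 hm, hi'⟩)]
      exact b2 m hm

/-- The vectors attached to the symbols that `P` puts in cell `m`. -/
def vs (X : DD) (γ : ℕ) (P : Finset (ℕ × ℕ)) (m : ℕ) : Finset ℕ :=
  ((X.F.G.cov X.F.G.ev P).filter fun z => z.1 = m).image fun z => (X.cl2 γ).getD z.2 0

theorem mem_vs {γ : ℕ} {P : Finset (ℕ × ℕ)} {m x : ℕ} : x ∈ X.vs γ P m ↔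
    ∃ z ∈ P, m ∈ X.F.G.cells z.1 ∧ (X.cl2 γ).getD (X.F.G.ev z.1 m z.2) 0 = x := by
  simp only [vs, Gad.cov, mem_image, mem_filter, mem_biUnion]
  constructor
  · rintro ⟨_, ⟨⟨z, hz, m', hm', rfl⟩, rfl⟩, rfl⟩
    exact ⟨z, hz, hm', rfl⟩
  · rintro ⟨z, hz, hm, rfl⟩
    exact ⟨(m, _), ⟨⟨z, hz, m, hm, rfl⟩, rfl⟩, rfl⟩

theorem cl2_mem {γ s : ℕ} (hs : s < (X.cl2 γ).length) : (X.cl2 γ).getD s 0 < X.q ^ (4 * X.u) ∧
    X.col2 ((X.cl2 γ).getD s 0) = γ / X.Q1 ^ X.F.G.k % X.Q2 := by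
  have h : (X.cl2 γ).getD s 0 ∈ X.cl2 γ := by
    rw [List.getD_eq_getElem _ _ hs]; exact List.getElem_mem hs
  generalize (X.cl2 γ).getD s 0 = x at h
  simpa [cl2] using h

theorem cl2_inj {γ s s' : ℕ} (hs : s < (X.cl2 γ).length) (hs' : s' < (X.cl2 γ).length)
    (e : (X.cl2 γ).getD s 0 = (X.cl2 γ).getD s' 0) : s = s' := by
  rw [List.getD_eq_getElem _ _ hs, List.getD_eq_getElem _ _ hs'] at e
  exact (List.Nodup.getElem_inj_iff (List.nodup_range.filter _)).1 e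

theorem Good.rank_big (K : X.Good p a g cap c E Γ H) (hV : X.F.ViolB X.B E X.o) {γ : ℕ}
    (hl : X.F.G.QS ≤ (X.cl2 γ).length) (P : Finset (ℕ × ℕ)) (hP : P.card = X.h)
    (hP' : ∀ z ∈ P, z.1 < X.F.G.k ∧ z.2 < X.F.G.QA ∧ X.Valid z.1 z.2 ∧
      X.col1 z.2 = dig X.Q1 X.F.G.k z.1 (γ % X.Q1 ^ X.F.G.k)) :
    (Γ + 1) * X.F.G.ν ≤ Γ * ∑ m ∈ range X.F.G.ν, rk1 X.q (4 * X.u) (X.vs γ P m) := by
  classical
  have hev : ∀ i m l, X.F.G.ev i m l < (X.cl2 γ).length := fun i m l =>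
    (K.code.ev_lt i m l).trans_le hl
  have hΓ : 0 < Γ := by rw [K.Γ_eq]; have := K.c_pos; have := K.E_pos; positivity
  have hsub : ∀ P' m, X.vs γ P' m ⊆ range (X.q ^ (4 * X.u)) := fun P' m x hx => by
    obtain ⟨z, -, -, rfl⟩ := mem_vs.1 hx
    exact mem_range.2 (cl2_mem (hev _ _ _)).1
  set I := P.image Prod.fst with hI
  by_cases hx : X.F.G.k ≤ 16384 * c * I.card
  · have hl : ∀ i, ∃ l, i ∈ I → (i, l) ∈ P := fun i => by
      by_cases hi : i ∈ I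
      · obtain ⟨z, hz, rfl⟩ := mem_image.1 hi
        exact ⟨z.2, fun _ => hz⟩
      · exact ⟨0, fun hh => absurd hh hi⟩
    choose lam hlam using hl
    have hIk : ∀ i ∈ I, i < X.F.G.k := fun i hi => (hP' _ (hlam i hi)).1
    obtain ⟨val, hval⟩ := Gad.conflict K.geo X.F.G.ev I hIk lam X.nq cap X.cls X.y
      (fun a => a % X.F.G.ν) X.cell (fun a s => X.F.G.raw a (X.slot s)) (fun s hs => K.cls_lt hs)
      (fun a => Nat.mod_lt _ K.ν_pos) (fun s _ => rfl) K.load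
      (fun i hi s hs s' hs' e1 e2 e3 => (hP' _ (hlam i hi)).2.2.1.2 s hs s' hs'
        (mem_filter.1 e1).2 (mem_filter.1 e2).2 e3)
    have a0 : X.F.G.k1 ≤ I.card := by
      refine Nat.le_of_mul_le_mul_left (le_trans ?_ hx)
        (show 0 < 16384 * c by have := K.c_pos; omega)
      refine Nat.mul_le_mul_right _ (le_trans ?_ K.t_ge)
      nlinarith [Nat.le_mul_of_pos_right c hΓ]
    have a1 := hV val I (fun i hi => mem_range.2 (hIk i hi)) a0
    refine arith_many' K.c_pos K.E_pos K.geo.k1_pos K.B_pos K.Γ_eq K.t_ge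
      (Gad.coverB' K.geo X.F.G.ev I hIk lam _ (fun i hi m hm => ?_) fun m hm => ?_) hx
      (a1.trans (Nat.mul_le_mul_left _ (le_trans ?_ hval))) K.cap_ν
    · exact one_le_rk1 K.q_prime ⟨_, mem_vs.2 ⟨_, hlam i hi, hm, rfl⟩⟩
    · unfold Gad.conf at hm
      obtain ⟨-, i, hi, o, ho, hmi, hmo, hne⟩ := mem_filter.1 hm
      exact two_le_rk1 K.q_prime (hsub _ _) (one_lt_card.2 ⟨_, mem_vs.2 ⟨_, hlam i hi, hmi, rfl⟩,
        _, mem_vs.2 ⟨_, hlam o ho, hmo, rfl⟩, fun e => hne (cl2_inj (hev _ _ _) (hev _ _ _) e)⟩)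
    · refine Finset.card_le_card_of_surjOn (fun s => s / 3) fun b hb => ?_
      obtain ⟨hb1, hb2, hb3⟩ : b ∈ range (X.F.G.k * X.B) ∧ b / X.B ∈ I ∧
          ∀ r < 3, val (X.F.yy (X.o b) r) ≠ X.F.sgn (X.F.cl (X.o b)) r := by
        simpa only [coe_filter, Set.mem_ofPred_eq] using hb
      rw [mem_range] at hb1
      obtain ⟨r, hr, hr'⟩ := (hP' _ (hlam _ hb2)).2.2.1.1 b hb1 rfl
      have e1 : (3 * b + r) / 3 = b := by omega
      have e2 : (3 * b + r) % 3 = r := by omega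
      have e3 : X.cls (3 * b + r) = b / X.B := by rw [cls, e1]
      refine ⟨3 * b + r, mem_coe.2 (mem_filter.2 ⟨mem_range.2 (by unfold nq; omega), ?_⟩), e1⟩
      rw [e3, y, e1, e2]
      exact ⟨hb2, fun e => hb3 r hr (e.symm.trans hr')⟩
  · have a1 : 16384 * I.card < X.h := by
      rw [K.k_eq, not_le, mul_comm 16384, mul_assoc] at hx
      exact Nat.lt_of_mul_lt_mul_left hx
    have a2 : X.u ≤ X.h := by
      have := K.d_lt
      rw [K.d_eq] at this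
      nlinarith [Nat.one_le_pow 4 H K.H_pos, Nat.zero_le (H ^ 4 * Γ * X.u)]
    obtain ⟨J, j1, j2, j3⟩ := exists_heavy (fun i => (P.filter fun z => z.1 = i).card)
      (min I.card X.F.G.k1) I (min_le_left _ _)
    rw [← card_eq_sum_card_image Prod.fst P, hP, sum_card_fiberwise_eq_card_filter] at j3
    have a3 : X.u ≤ (P.filter fun z => z.1 ∈ J).card := by
      have h0 : 0 < I.card := card_pos.2 ((card_pos.1 (hP ▸ K.h_pos)).image _)
      refine Nat.le_of_mul_le_mul_left (le_trans ?_ j3) h0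
      rcases le_total I.card X.F.G.k1 with h | h
      · rw [min_eq_left h]
        exact Nat.mul_le_mul_left _ a2
      · rw [min_eq_right h, K.u_eq]
        nlinarith
    obtain ⟨P', p1, p2⟩ := Finset.exists_subset_card_eq a3
    have p3 : P' ⊆ P := p1.trans (filter_subset _ _)
    have p4 : (P'.image Prod.fst).card ≤ X.F.G.k1 := by
      refine le_trans (card_le_card fun i hi => ?_) (j2.le.trans (min_le_right _ _))
      obtain ⟨z, hz, rfl⟩ := mem_image.1 hi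
      exact (mem_filter.1 (p1 hz)).2
    have a4 := Gad.coverA K.geo X.F.G.ev P' (fun z hz => (hP' z (p3 hz)).1) fun i hi => by
      have hm : ∀ l ∈ (P'.filter fun z => z.1 = i).image Prod.snd, (i, l) ∈ P := by
        intro l hl
        obtain ⟨z, hz, rfl⟩ := mem_image.1 hl
        obtain ⟨hz1, rfl⟩ := mem_filter.1 hz
        exact p3 hz1
      have hc : ((P'.filter fun z => z.1 = i).image Prod.snd).card ≤ X.h :=
        card_image_le.trans ((card_filter_le _ _).trans (p2.le.trans a2))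
      have hr : (P'.filter fun z => z.1 = i).image Prod.snd ⊆ range X.F.G.QA :=
        fun l hl => mem_range.2 (hP' _ (hm l hl)).2.1
      exact K.code.sparse i hi _ hr hc (K.c1.2 (dig X.Q1 X.F.G.k i (γ % X.Q1 ^ X.F.G.k)) _
        (K.code.QA_eq ▸ hr) hc fun l hl => (hP' _ (hm l hl)).2.2.2)
    have a5 : (X.F.G.cov X.F.G.ev P').card ≤
        4 * ∑ m ∈ range X.F.G.ν, rk1 X.q (4 * X.u) (X.vs γ P m) := by
      rw [card_eq_sum_card_fiberwise (f := Prod.fst) (t := range X.F.G.ν) (fun z hz => by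
        simp only [Gad.cov, coe_biUnion, coe_image, Set.mem_iUnion, Set.mem_image, mem_coe] at hz
        obtain ⟨_, -, m, hm, rfl⟩ := hz
        exact Gad.cover_cells_sub _ hm), mul_sum]
      refine sum_le_sum fun m _ => ?_
      have b1 : ((X.F.G.cov X.F.G.ev P').filter fun z => z.1 = m).card = (X.vs γ P' m).card := by
        refine (card_image_of_injOn fun z hz z' hz' e => ?_).symm
        simp only [Gad.cov, coe_filter, mem_biUnion, mem_image, Set.mem_ofPred_eq] at hz hz'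
        obtain ⟨⟨w, -, m1, -, rfl⟩, rfl⟩ := hz
        obtain ⟨⟨w', -, m2, -, rfl⟩, e'⟩ := hz'
        exact Prod.ext e'.symm (cl2_inj (hev _ _ _) (hev _ _ _) e)
      have b2 : (X.vs γ P' m).card ≤ X.u := by
        rw [← p2]
        refine le_trans (card_le_card (t := P'.image fun z =>
          (X.cl2 γ).getD (X.F.G.ev z.1 m z.2) 0) fun x hx => ?_) card_image_le
        obtain ⟨z, hz, -, e⟩ := mem_vs.1 hx
        exact mem_image.2 ⟨z, hz, e⟩
      rw [b1]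
      rcases (X.vs γ P' m).eq_empty_or_nonempty with h | h
      · simp [h]
      refine le_trans (K.c2.2 (γ / X.Q1 ^ X.F.G.k % X.Q2) _ (hsub P' m) b2 (fun x hx => ?_) _
        Subset.rfl _ (one_le_rk1 K.q_prime h) (rk_le_rk1 K.q_prime _))
        (Nat.mul_le_mul_left _ (rk1_mono K.q_prime fun x hx => ?_))
      · obtain ⟨z, -, -, rfl⟩ := mem_vs.1 hx
        exact (cl2_mem (hev _ _ _)).2
      · obtain ⟨z, hz, h2⟩ := mem_vs.1 hx
        exact mem_vs.2 ⟨z, p3 hz, h2⟩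
    rw [p2, K.u_eq] at a4
    generalize ∑ m ∈ range X.F.G.ν, rk1 X.q (4 * X.u) (X.vs γ P m) = S at a5 ⊢
    have a6 : 2 * X.F.G.ν ≤ S := by
      refine Nat.le_of_mul_le_mul_left (c := 2048 * X.F.G.k1) ?_
        (by have := K.geo.k1_pos; omega)
      have := Nat.mul_le_mul (Nat.mul_le_mul_left 256 (Nat.add_le_add_left p4 X.F.G.k1)) a5
      rw [Gad.ν]
      nlinarith [Nat.zero_le (X.F.G.w * X.F.G.k1 * X.F.G.k1)]
    nlinarith

theorem no (K : X.Good p a g cap c E Γ H) (hV : X.F.ViolB X.B E X.o) (γ : ℕ) :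
    ¬ HasB X.NL X.NR (X.AdjLR γ) X.h := by
  classical
  rintro ⟨A, B, a1, a2, a3, a4, a5⟩
  obtain ⟨v0, hv0⟩ := card_pos.1 (a2 ▸ K.h_pos)
  obtain ⟨u0, hu0⟩ := card_pos.1 (a1 ▸ K.h_pos)
  have hu : 0 < X.u := by rw [K.u_eq]; have := K.geo.k1_pos; omega
  have h1 := K.rank_big hV (a5 u0 hu0 v0 hv0).1
    (A.image fun u => (u / X.F.G.QA, u % X.F.G.QA)) (by
      rw [card_image_of_injective, a1]
      intro u v e
      rw [← Nat.div_add_mod u X.F.G.QA, ← Nat.div_add_mod v X.F.G.QA, (Prod.mk.inj e).1,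
        (Prod.mk.inj e).2]) fun z hz => by
      obtain ⟨u, hu, rfl⟩ := mem_image.1 hz
      exact ⟨(Nat.div_lt_iff_lt_mul K.code.QA_pos).2 (a3 u hu), Nat.mod_lt _ K.code.QA_pos,
        (a5 u hu v0 hv0).2.1, (a5 u hu v0 hv0).2.2.1⟩
  have h2 := right_rank K.q_prime K.A_lt K.c3 K.H_pos K.D_A K.L_A K.L_ge K.h_A
    ((Nat.zero_le _).trans_lt K.ν_lt) K.d_lt (by rw [K.d_eq]; positivity) _ B
    (fun v hv => mem_range.2 (a4 v hv)) a2 fun v hv => (a5 u0 hu0 v hv).2.2.2.1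
  have h3 := right_dual (r := 4 * X.u) K.q_prime K.A_lt K.D_A K.ν_A
    (by rw [K.d_eq]; nlinarith [Nat.zero_le (Γ * X.u)]) B h2
    (X.vs γ (A.image fun u => (u / X.F.G.QA, u % X.F.G.QA))) fun m hm x hx v hv => by
      obtain ⟨z, hz, e1, rfl⟩ := mem_vs.1 hx
      obtain ⟨u, hu, rfl⟩ := mem_image.1 hz
      exact (a5 u hu v hv).2.2.2.2 m hm (mem_filter.1 e1).2
  generalize ∑ m ∈ range X.F.G.ν, rk1 X.q (4 * X.u)
    (X.vs γ (A.image fun u => (u / X.F.G.QA, u % X.F.G.QA)) m) = S at h1 h3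
  have h4 : X.d - 4 * X.u = (8 * Γ + 4) * X.u := by
    rw [K.d_eq]
    exact Nat.sub_eq_of_eq_add (by ring)
  rw [h4, K.d_eq] at h3
  have h5 := Nat.mul_le_mul_left (8 * (Γ + 1) * X.u) K.D_le
  have h6 := Nat.mul_le_mul_left (4 * Γ) h3
  have h7 := Nat.mul_le_mul_left (4 * ((8 * Γ + 4) * X.u)) h1
  have h8 : 0 < (Γ + 1) * X.u * X.F.G.ν := Nat.mul_pos (by positivity) K.ν_pos
  nlinarith

end DD

end Pool.Agent.MP_a2da35_lc
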