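import Pool.Agent.MP_a2da35_lc.Time

/-!
Clocked simulation that notices halting, and a machine that doubles its budget until it has an
answer.
-/

namespace Pool.Agent.MP_a2da35_lc

open Pool.Agent.Lib.Cx Function Turing Turing.TM2

attribute [local instance] piEnc in
theorem exists_sim' (M : TM2ComputableAux Bool Bool) :
    ∃ sim : List Bool × List Unit → Option (List Bool), PT sim ∧
      (∀ x r y, Runs M x y r.length → sim (x, r) = some y) ∧
      ∀ x r y y' T, Runs M x y T → sim (x, r) = some y' → y' = y := by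
  obtain ⟨tm, ia, oa⟩ := M
  have := tm.kFin
  have := tm.ΛFin
  have := tm.σFin
  have := tm.Γk₀Fin
  let T : Set (Σ k, tm.Γ k) := Set.range (fun x => ⟨tm.k₀, x⟩) ∪ ⋃ l, pushed (tm.m l)
  obtain ⟨B, hB, cd, dc, hT⟩ := exists_code T
    ((Set.finite_range _).union (Set.finite_iUnion fun l => pushed_finite _))
  let _ : Enc B := finEnc B
  let _ : Enc tm.Λ := finEnc _
  let _ : Enc tm.σ := finEnc _
  obtain ⟨D, hD⟩ := (Set.finite_range (fun l => pushes (tm.m l))).bddAbove
  obtain ⟨cB, hcB⟩ := exists_size_bound B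
  obtain ⟨cL, hcL⟩ := exists_size_bound (Option tm.Λ)
  obtain ⟨cS, hcS⟩ := exists_size_bound tm.σ
  let ini : List Bool → Option tm.Λ × tm.σ × (tm.K → List B) := fun x =>
    (some tm.main, tm.initialState,
      update (fun _ => []) tm.k₀ (x.map fun b => cd ⟨tm.k₀, ia.symm b⟩))
  have hini : PT ini := PT.prodMk (PT.const _) (PT.prodMk (PT.const _)
    (PT.piUpdate (PT.const _) _ (PT.map
      ((PT.of_finite (fun b => cd ⟨tm.k₀, ia.symm b⟩)).comp' (by fun_prop)) PT.id')))
  have hstep : PT (simStep cd dc tm.m) := by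
    refine (PT.finCases (c := fun c : Option tm.Λ × tm.σ × (tm.K → List B) => c.1)
      (f := fun o c => o.elim c (fun l => simStmt cd dc (tm.m l) c.2)) (by fun_prop) ?_)
    rintro (_ | l)
    · exact PT.id'
    · exact (simStmt_pt cd dc (tm.m l)).comp' (by fun_prop)
  have hrun : PT (fun x : List Bool × List Unit =>
      (simStep cd dc tm.m)^[x.2.length] (ini x.1)) := by
    refine PT.iterate (f := fun _ => simStep cd dc tm.m) (hstep.comp' (by fun_prop))
      (by fun_prop) (by fun_prop) (hini.comp' (by fun_prop))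
      (fun x => 2 * cL + 1 + (2 * cS + 1 + Fintype.card tm.K *
        (2 * ((x.1.length + x.2.length * D) * (2 * cB + 1)) + 1))) (by fun_prop)
      fun x i hi => ?_
    have h1 := simStep_length cd dc tm.m D (fun l => hD ⟨l, rfl⟩) i (ini x.1)
    generalize (simStep cd dc tm.m)^[i] (ini x.1) = c at h1
    have h2 := size_pi_le c.2.2 ((x.1.length + x.2.length * D) * (2 * cB + 1)) fun k => by
      refine (size_list_le _ cB (fun a _ => hcB a)).trans (Nat.mul_le_mul_right _ ?_)
      refine (h1 k).trans (Nat.add_le_add ?_ (Nat.mul_le_mul_right _ hi))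
      simp only [ini, update_apply]
      split_ifs <;> simp
    have h3 := hcL c.1
    have h4 := hcS c.2.1
    simp only [size_prod]
    omega
  let out : Option tm.Λ × tm.σ × (tm.K → List B) → List Bool := fun c =>
    (c.2.2 tm.k₁).map (fun y => ((dc tm.k₁ y).map oa).getD false)
  have hout : PT out :=
    PT.map ((PT.of_finite (fun y => ((dc tm.k₁ y).map oa).getD false)).comp' (by fun_prop))
      (PT.id'.snd.snd.piApply _)
  have key : ∀ x y (T : ℝ), Runs ⟨tm, ia, oa⟩ x y T → ∃ n : ℕ, (n : ℝ) ≤ T ∧ ∀ m, n ≤ m →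
      ((simStep cd dc tm.m)^[m] (ini x)).1 = none ∧
        out ((simStep cd dc tm.m)^[m] (ini x)) = y := by
    rintro x y T' ⟨s, hs, ⟨⟨⟨n, hn⟩, hle⟩⟩⟩
    simp only at hle hn
    refine ⟨n, le_trans (by exact_mod_cast hle) hs, fun m hm => ?_⟩
    have hv : ∀ k, ∀ z ∈ (initList tm (List.map ia.symm x)).stk k,
        (⟨k, z⟩ : Σ k, tm.Γ k) ∈ T := by
      intro k z hz
      by_cases hk : k = tm.k₀
      · subst hk; exact Or.inl ⟨z, rfl⟩
      · simp [initList, hk] at hz
    obtain ⟨e1, e2⟩ := simStep_iter cd dc T hT tm.m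
      (fun l => (Set.subset_iUnion (fun l => pushed (tm.m l)) l).trans Set.subset_union_right)
      n _ _ hv hn
    have e3 : ini x = ((initList tm (List.map ia.symm x)).l,
        (initList tm (List.map ia.symm x)).var,
        codeStk cd (initList tm (List.map ia.symm x)).stk) := by
      refine Prod.ext rfl (Prod.ext rfl ?_)
      funext k
      by_cases hk : k = tm.k₀
      · subst hk; simp [ini, initList, codeStk]
      · simp [ini, initList, codeStk, hk]
    obtain ⟨d, hd⟩ := Nat.exists_eq_add_of_le hm
    rw [hd, add_comm, Function.iterate_add_apply, e3, e1, Function.iterate_fixed rfl]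
    refine ⟨rfl, ?_⟩
    have e4 : (haltList tm (List.map oa.symm y)).stk tm.k₁ = List.map oa.symm y := by
      simp [haltList]
    have e5 := e2 tm.k₁
    simp only [codeStk, out]
    rw [e4] at e5 ⊢
    rw [List.map_map, List.map_map]
    conv_rhs => rw [← List.map_id y]
    refine List.map_congr_left fun b hb => ?_
    have := hT _ _ (e5 (oa.symm b) (List.mem_map_of_mem hb))
    simp only [Function.comp, this]
    simp
  refine ⟨fun x => bif ((simStep cd dc tm.m)^[x.2.length] (ini x.1)).1.isNone then
      some (out ((simStep cd dc tm.m)^[x.2.length] (ini x.1))) else none,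
    PT.cond hrun.fst.isNone (hout.comp' hrun).some' (PT.const _), ?_, ?_⟩
  · intro x r y h
    obtain ⟨n, hn, h⟩ := key x y _ h
    obtain ⟨h1, h2⟩ := h r.length (by exact_mod_cast hn)
    simp only [h1, h2]
    rfl
  · intro x r y y' T' h h'
    obtain ⟨n, -, h⟩ := key x y _ h
    obtain ⟨-, h2⟩ := h (n + r.length) (Nat.le_add_right _ _)
    rw [Function.iterate_add_apply] at h2
    simp only at h'
    generalize (simStep cd dc tm.m)^[r.length] (ini x) = c at h2 h'
    obtain ⟨_ | l, c⟩ := c
    · rw [Function.iterate_fixed rfl] at h2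
      rw [← h2]
      exact (Option.some.inj h').symm
    · exact absurd h' (by simp)

/-- One round: try the current budget, and double it. -/
def lp_step {X : Type} (F : X × List Unit → Option Bool) (s : X × List Unit × Option Bool) :
    X × List Unit × Option Bool := (s.1, s.2.1 ++ s.2.1, F (s.1, s.2.1))

/-- The empty list if and only if an answer has been found. -/
def lp_flag {X : Type} (s : X × List Unit × Option Bool) : List Unit :=
  bif s.2.2.isNone then [()] else []

theorem lp_loop {X : Type} [Enc X] (F : X × List Unit → Option Bool) {P Q : Proc Unit}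
    {p q : Polynomial ℕ}
    (hp : ∀ s, P.Runs (fun _ => enc s) (fun _ => enc (lp_step F s)) (p.eval (enc s).length))
    (hq : ∀ s : X × List Unit × Option Bool,
      Q.Runs (fun _ => enc s) (fun _ => enc (lp_flag s)) (q.eval (enc s).length))
    (x : X) (b : Bool) (M : ℕ) (d j : ℕ)
    (h1 : F (x, List.replicate (2 ^ (j + d)) ()) = some b)
    (h2 : ∀ k < j + d, F (x, List.replicate (2 ^ k) ()) = none)
    (hM : 2 * size x + 2 * 2 ^ (j + d + 1) + 5 ≤ M) :
    (Proc.loop (1 : Fin 3) (fun _ => (Proc.onReg 0 P).seq ((Proc.move 0 2).seq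
      ((Proc.move2 2 0 1).seq (Proc.onReg 1 Q))))).Runs
      ![enc (x, List.replicate (2 ^ j) (), (none : Option Bool)), [false], []]
      ![enc (x, List.replicate (2 ^ (j + d + 1)) (), some b), [], []]
      ((d + 1) * (p.eval M + q.eval M + 5 * M + 3) + 1) := by
  have body : ∀ (k : ℕ), k ≤ j + d →
      ((Proc.onReg (0 : Fin 3) P).seq ((Proc.move 0 2).seq
        ((Proc.move2 2 0 1).seq (Proc.onReg 1 Q)))).Runs
      (update ![enc (x, List.replicate (2 ^ k) (), (none : Option Bool)), [false], []] 1 [])
      ![enc (x, List.replicate (2 ^ (k + 1)) (), F (x, List.replicate (2 ^ k) ())),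
        enc (lp_flag (x, List.replicate (2 ^ (k + 1)) (), F (x, List.replicate (2 ^ k) ()))), []]
      (p.eval M + q.eval M + 5 * M + 2) := by
    intro k hk
    have e : lp_step F (x, List.replicate (2 ^ k) (), none) =
        (x, List.replicate (2 ^ (k + 1)) (), F (x, List.replicate (2 ^ k) ())) := by
      simp only [lp_step, ← List.replicate_add, pow_succ, mul_two]
    have hk1 : 2 ^ (k + 1) ≤ 2 ^ (j + d + 1) := Nat.pow_le_pow_right (by omega) (by omega)
    have hk2 : 2 ^ k ≤ 2 ^ (k + 1) := Nat.pow_le_pow_right (by omega) (by omega)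
    have s1 : size (x, List.replicate (2 ^ k) (), (none : Option Bool)) ≤ M := by
      simp only [size_prod, size_listUnit, List.length_replicate, size_none]; omega
    have s2 : size (x, List.replicate (2 ^ (k + 1)) (), F (x, List.replicate (2 ^ k) ())) ≤ M := by
      have : size (F (x, List.replicate (2 ^ k) ())) ≤ 3 := by
        cases F (x, List.replicate (2 ^ k) ()) <;> simp
      simp only [size_prod, size_listUnit, List.length_replicate]; omega
    have a1 := hp (x, List.replicate (2 ^ k) (), none)
    rw [e] at a1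
    have a2 := hq (x, List.replicate (2 ^ (k + 1)) (), F (x, List.replicate (2 ^ k) ()))
    have b1 := eval_mono p s1
    have b2 := eval_mono q s2
    unfold size at s1 s2 b1 b2
    generalize enc (x, List.replicate (2 ^ k) (), (none : Option Bool)) = u at *
    generalize enc (lp_flag
      (x, List.replicate (2 ^ (k + 1)) (), F (x, List.replicate (2 ^ k) ()))) = w at *
    generalize enc (x, List.replicate (2 ^ (k + 1)) (), F (x, List.replicate (2 ^ k) ())) = v at *
    refine ((a1.onReg 0 _ ?_).seq ((Proc.runs_move (by decide) _).seq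
      ((Proc.runs_move2 (by decide) (by decide) (by decide) _).seq (a2.onReg 1 _ ?_)))).congr
      rfl ?_ ?_
    · simp
    · simp
    · funext r; fin_cases r <;> simp
    · simp; omega
  induction d generalizing j with
  | zero =>
    have a := body j le_rfl
    rw [show F (x, List.replicate (2 ^ j) ()) = some b from h1] at a
    refine (Proc.Runs.loop_cons (k := (1 : Fin 3)) (b := false) (r := []) rfl a
      (Proc.runs_loop_nil rfl)).congr rfl rfl ?_
    omega
  | succ d ih =>
    have a := body j (by omega)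
    rw [h2 j (by omega)] at a
    have e : j + 1 + d = j + (d + 1) := by omega
    have a2 := ih (j + 1) (by rw [e]; exact h1) (by rw [e]; exact h2) (by rw [e]; exact hM)
      (by rw [e]; exact body)
    rw [e] at a2
    refine (Proc.Runs.loop_cons (k := (1 : Fin 3)) (b := false) (r := []) rfl a a2).congr
      rfl rfl ?_
    nlinarith

theorem exists_loop {X : Type} [Enc X] (F : X × List Unit → Option Bool) (hF : PT F) :
    ∃ (M : TM2ComputableAux Bool Bool) (C : ℕ), ∀ (x : X) (i : ℕ) (b : Bool),
      F (x, List.replicate (2 ^ i) ()) = some b →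
      (∀ j < i, F (x, List.replicate (2 ^ j) ()) = none) →
      Runs M (enc x) [b] (C * (size x + 2 ^ i : ℝ) ^ C) := by
  have hs : PT (lp_step F) := by
    unfold lp_step
    exact PT.prodMk (by fun_prop) (PT.prodMk (by fun_prop) (hF.comp' (by fun_prop)))
  have hf : PT (lp_flag (X := X)) := by
    unfold lp_flag
    fun_prop
  have hi : PT (fun x : X => (x, List.replicate (2 ^ 0) (), (none : Option Bool))) := by
    fun_prop
  have ho : PT (fun s : X × List Unit × Option Bool => s.2.2.getD false) := by
    fun_prop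
  obtain ⟨P, p, hp⟩ := hs
  obtain ⟨Q, q, hq⟩ := hf
  obtain ⟨I, pi, hI⟩ := hi
  obtain ⟨O, po, hO⟩ := ho
  let W : Proc Unit := Proc.hide (0 : Fin 3) ((Proc.onReg 0 I).seq ((Proc.push 1 false).seq
    ((Proc.loop (1 : Fin 3) (fun _ => (Proc.onReg 0 P).seq ((Proc.move 0 2).seq
      ((Proc.move2 2 0 1).seq (Proc.onReg 1 Q))))).seq (Proc.onReg 0 O))))
  have key : ∀ z : List Bool, ext0 W.L (fun _ : Unit => z) = single (Sum.inl ()) z := by
    intro z; funext k
    rcases k with k | k
    · simp
    · simp [single]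
  let R : Polynomial ℕ := (pi + po + Polynomial.X * (p + q + 5 * Polynomial.X + 3) + 3).comp
    (9 * Polynomial.X)
  refine ⟨⟨toTM W.B (Sum.inl ()) (Sum.inl ()), Equiv.refl Bool, Equiv.refl Bool⟩,
    R.eval 1 * 2 ^ R.natDegree + R.natDegree, fun x i b h1 h2 => ?_⟩
  have hi1 : 1 ≤ 2 ^ i := Nat.one_le_two_pow
  have hi2 : i < 2 ^ i := Nat.lt_two_pow_self
  obtain ⟨n, hn⟩ : ∃ n, n = size x + 2 ^ i := ⟨_, rfl⟩
  have hM : 2 * size x + 2 * 2 ^ (0 + i + 1) + 5 ≤ 9 * n := by
    rw [zero_add, pow_succ]; omega
  have a := lp_loop F hp hq x b (9 * n) i 0 (by rw [zero_add]; exact h1)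
    (by rw [zero_add]; exact h2) hM
  have s1 : size (x, List.replicate (2 ^ (0 + i + 1)) (), some b) ≤ 9 * n := by
    simp only [size_prod, size_listUnit, List.length_replicate, size_some, size_bool]; omega
  have b1 := eval_mono po s1
  have b2 := eval_mono pi (show size x ≤ 9 * n by omega)
  have h3 : W.Runs (fun _ => enc x) (fun _ => [b])
      (pi.eval (9 * n) + po.eval (9 * n) +
        9 * n * (p.eval (9 * n) + q.eval (9 * n) + 5 * (9 * n) + 3) + 2) := by
    apply Proc.Runs.hide
    refine (((hI x).onReg 0 _ ?_).seq ((Proc.runs_push _ _ _).seq ((a.congr ?_ rfl le_rfl).seq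
      ((hO (x, List.replicate (2 ^ (0 + i + 1)) (), some b)).onReg 0 _ ?_)))).congr rfl ?_ ?_
    · simp [single]
    · funext r; fin_cases r <;> simp [single]
    · simp
    · funext r; fin_cases r <;> simp [single, enc_bool]
    · have := Nat.mul_le_mul_right (p.eval (9 * n) + q.eval (9 * n) + 5 * (9 * n) + 3)
        (show i + 1 ≤ 9 * n by omega)
      unfold size at b1 b2
      omega
  unfold Proc.Runs at h3
  rw [key, key] at h3
  have h4 := toTM_outputs W.B (Sum.inl ()) (Sum.inl ()) _ _ _ h3
  have e1 : ∀ l : List Bool, List.map (Equiv.refl Bool).symm l = l := fun l => List.map_id l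
  refine ⟨_, ?_, by erw [e1, e1]; exact h4⟩
  have e2 : pi.eval (9 * n) + po.eval (9 * n) +
      9 * n * (p.eval (9 * n) + q.eval (9 * n) + 5 * (9 * n) + 3) + 2 + 1 = R.eval n := by
    simp [R, Polynomial.eval_comp]
  have hn1 : 1 ≤ n := by omega
  have h5 := eval_le_pow R n
  have h6 : (n + 1) ^ R.natDegree ≤ 2 ^ R.natDegree * n ^ R.natDegree := by
    rw [← mul_pow]; exact Nat.pow_le_pow_left (by omega) _
  have h7 : n ^ R.natDegree ≤ n ^ (R.eval 1 * 2 ^ R.natDegree + R.natDegree) :=
    Nat.pow_le_pow_right hn1 (by omega)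
  have h8 : R.eval n ≤ (R.eval 1 * 2 ^ R.natDegree + R.natDegree) *
      n ^ (R.eval 1 * 2 ^ R.natDegree + R.natDegree) := by
    refine h5.trans ((Nat.mul_le_mul_left _ h6).trans ?_)
    rw [← mul_assoc]
    exact Nat.mul_le_mul (by omega) h7
  rw [e2]
  subst hn
  exact_mod_cast h8

end Pool.Agent.MP_a2da35_lc
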