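import Pool.Agent.MP_a2da35_lc.Bridge
import Pool.Agent.MP_a2da35_lc.Det.Comb
import Pool.Agent.MP_a2da35_lc.Det.Loop

/-!
The parameters and the algorithm with a given budget.
-/

namespace Pool.Agent.MP_a2da35_lc

open Pool.Agent.Lib.Cx

/-- Constants that depend only on the gap and on the approximation factor. -/
structure Cst where
  c : ℕ
  E : ℕ
  Γ : ℕ
  H : ℕ
  t' : ℕ
  t0 : ℕ

/-- Number of blocks, classes per axis, variables, clauses, and the budget. -/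
structure Pm where
  j : ℕ
  k1 : ℕ
  n : ℕ
  m : ℕ
  T : ℕ

def IsP (b T x : ℕ) : Prop := 2 ^ b < x ∧ x ≤ 2 ^ (b + 1) ∧ ∀ d < T, 2 ≤ d → d < x → ¬ d ∣ x

open Classical in
noncomputable def primeAbove (b T : ℕ) : ℕ :=
  ((List.range (T + 1)).find? fun x => decide (IsP b T x)).getD 0

namespace Pm

variable (Z : Cst) (P : Pm)

def R : ℕ := 8400 * Z.t0 * (P.j ^ 3) ^ 3 + 2
def g : ℕ := 18 * (P.j ^ 3) ^ 4
def h : ℕ := Z.t' * P.k1
def J : ℕ := (P.R Z + 1) * P.h Z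
def a : ℕ := (P.k1 * P.h Z) ^ Z.t0 * P.J Z
def k : ℕ := (Z.t0 + 1) * P.k1
def ν : ℕ := P.k1 * P.k1 ^ Z.t0
def B : ℕ := 1000 * Z.E * P.j ^ 2 * P.n / P.k1 + 1
def cap : ℕ := 3 * (288 * P.B Z / P.k1 ^ Z.t0 + P.k Z + P.ν Z + 2)
def b : ℕ := (Z.t0 + 1) * P.cap Z / P.h Z ^ (Z.t0 + 1) + 1
noncomputable def p : ℕ := primeAbove (P.b Z) P.T
def W : ℕ := size (P.m + P.n)
def a1 : ℕ := (P.a Z + P.h Z + 1) / P.g + 1
def u : ℕ := 8192 * P.k1
def d : ℕ := 8 * (Z.Γ + 1) * P.u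
def A : ℕ := P.J Z ^ (Z.t0 + 1) * (P.b Z + 1) / P.u + 1
noncomputable def q : ℕ := primeAbove (P.A Z) P.T
def a3 : ℕ := (2 * P.h Z + P.h Z + 1) / (2 * Z.H ^ 4) + 1
def L : ℕ := 8400 * Z.H ^ 3 * P.ν Z / P.h Z + 1
def D : ℕ := P.ν Z + P.L Z * P.a3 Z + 1
def bk : ℕ := 2 * P.n / P.j + 1
noncomputable def Q1 : ℕ := P.p Z ^ P.a1 Z
noncomputable def Q2 : ℕ := P.q Z ^ (2 * P.u)
noncomputable def Q3 : ℕ := P.q Z ^ P.a3 Z

/-- The arithmetic conditions. -/
def Ar : Prop :=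
  0 < P.j ∧ 0 < P.k1 ∧ 0 < P.m ∧ P.m ≤ 2 ^ P.n ∧ P.ν Z ≤ P.n ∧
  64 * Z.E * P.j ^ 3 * (P.k Z + 3 * P.j + 3 * P.bk + 288 * P.B Z / P.k1 ^ Z.t0 + P.k Z +
    P.ν Z + 3) ≤ P.B Z * P.k1 ∧
  P.cap Z * P.ν Z ≤ 1000 * P.k1 * P.B Z ∧ P.k1 * P.J Z ≤ P.b Z ∧ P.D Z ≤ P.A Z ∧
  P.L Z * (2 * P.h Z) ≤ P.A Z ∧ P.k Z ≤ P.A Z ∧ (P.ν Z + 1) * P.d Z ≤ P.A Z ∧
  4 * Z.Γ * P.D Z ≤ (4 * Z.Γ + 1) * P.ν Z

/-- Everything fits into the budget. -/
def Fits : Prop :=
  2 ^ (P.b Z + 1) ≤ P.T ∧ 2 ^ (P.A Z + 1) ≤ P.T ∧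
  2 ^ P.k Z * P.j ^ 3 * (2 ^ P.bk) ^ 3 ≤ P.T ∧ 2 ^ (4 * P.W) ≤ P.T ∧
  P.p Z ^ P.a Z ≤ P.T ∧ P.Q1 Z ≤ P.T ∧ colEv (P.p Z) (P.a Z) P.g (P.h Z) (P.Q1 Z) ≤ P.T ∧
  P.q Z ^ (4 * P.u) ≤ P.T ∧ P.Q2 Z ≤ P.T ∧ colEv (P.q Z) (4 * P.u) 4 P.u (P.Q2 Z) ≤ P.T ∧
  P.q Z ^ (2 * P.h Z) ≤ P.T ∧ P.Q3 Z ≤ P.T ∧
  colEv (P.q Z) (2 * P.h Z) (2 * Z.H ^ 4) (P.h Z) (P.Q3 Z) ≤ P.T ∧
  P.Q1 Z ^ P.k Z * P.Q2 Z * P.Q3 Z ^ P.L Z ≤ P.T ∧ P.k Z * P.p Z ^ P.a Z + P.q Z ^ P.D Z ≤ P.T

noncomputable def dat (φ : List Clause) : Dat where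
  G := xg (P.p Z) Z.t0 P.k1 (P.h Z) (P.J Z) (P.b Z)
  n := P.n
  m := P.m
  var j r := (lit (φ.getD j ((0, false), (0, false), (0, false))) r).1
  sgn j r := (lit (φ.getD j ((0, false), (0, false), (0, false))) r).2
  d := 0
  Γ := 0

noncomputable def dd (φ : List Clause) : DD where
  F := P.dat Z φ
  B := P.B Z
  h := P.h Z
  u := P.u
  d := P.d Z
  D := P.D Z
  A := P.A Z
  L := P.L Z
  q := P.q Z
  Q1 := P.Q1 Z
  Q2 := P.Q2 Z
  Q3 := P.Q3 Z
  o a := Dat.smp P.W (((P.dat Z φ).sample (P.B Z) P.j P.W).getD a 0)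
  col1 l := (colr (P.p Z) (P.a Z) P.g (P.h Z) (P.Q1 Z)).getD l 0
  col2 l := (colr (P.q Z) (4 * P.u) 4 P.u (P.Q2 Z)).getD l 0
  col3 l := (colr (P.q Z) (2 * P.h Z) (2 * Z.H ^ 4) (P.h Z) (P.Q3 Z)).getD l 0

end Pm

def bAdj (NL : ℕ) (R : ℕ → ℕ → Prop) (u v : ℕ) : Prop :=
  (u < NL ∧ NL ≤ v ∧ R u (v - NL)) ∨ (v < NL ∧ NL ≤ u ∧ R v (u - NL))

open Classical in
noncomputable def DD.mat (X : DD) (γ : ℕ) : List (List Bool) :=
  (List.range (X.NL + X.NR)).map fun u => (List.range (X.NL + X.NR)).map fun v =>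
    decide (bAdj X.NL (X.AdjLR γ) u v)

abbrev Sim : Type := List Bool × List Unit → Option (List Bool)

noncomputable def DD.run (X : DD) (sim : Sim) (pad : List Unit) (γ : ℕ) : Option (List Bool) :=
  sim (enc (X.mat γ, X.F.G.k), pad)

open Classical in
noncomputable def DD.verdict (X : DD) (sim : Sim) (pad : List Unit) : Option Bool :=
  if ∀ γ < X.Gn, (X.run sim pad γ).isSome = true then
    some (decide (∃ γ < X.Gn, Ver (X.mat γ) X.h ((X.run sim pad γ).getD [])))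
  else none

abbrev In : Type := (List Unit × List Unit × List Unit) × List Clause × List Unit

def pm (x : In) : Pm := ⟨x.1.1.length, x.1.2.1.length, x.1.2.2.length, x.2.1.length, x.2.2.length⟩

open Classical in
noncomputable def cand (Z : Cst) (sim : Sim) (x : In) : Option Bool :=
  if (pm x).Ar Z ∧ (pm x).Fits Z then ((pm x).dd Z x.2.1).verdict sim x.2.2 else none

open Classical in
noncomputable def stage (Z : Cst) (sim : Sim) (x : (ℕ × List Clause) × List Unit) : Option Bool :=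
  if x.1.2 = [] ∨ x.1.1 < size x.2.length then some (decide (Brute x.2.length x.1.2))
  else if x.1.1 ≤ x.2.length then
    ((List.range x.2.length ×ˢ List.range x.2.length).filterMap fun z =>
      cand Z sim ((x.2.take z.1, x.2.take z.2, x.2.take x.1.1), x.1.2, x.2)).head?
  else none

section pt

variable {α : Type} [Enc α] {i j l s : α → ℕ} {Z : Cst}

theorem primeAbove_le (b T : ℕ) : primeAbove b T ≤ T := by
  classical
  unfold primeAbove
  cases h : (List.range (T + 1)).find? fun x => decide (IsP b T x) with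
  | none => simp
  | some x => simpa [Nat.lt_succ_iff] using List.mem_of_find?_eq_some h

@[fun_prop] theorem primeAbove_pt (h1 : PT i) (h2 : PB i) (h3 : PT j) (h4 : PB j) :
    PT fun x => primeAbove (i x) (j x) := by
  have a1 : PB fun z : α × ℕ => i z.1 := h2.comp (by fun_prop)
  have a2 : PB fun z : α × ℕ => j z.1 := h4.comp (by fun_prop)
  unfold primeAbove IsP
  exact PT.getD (PT.find? (PT.decide (PP.and (PP.lt (PT.pow (by fun_prop) (by fun_prop) a1)
    (by fun_prop)) (PP.and (PP.le (by fun_prop) (PT.pow (by fun_prop) (by fun_prop)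
    (a1.add (PB.const 1)))) (PP.forall_lt (by fun_prop) a2 (by fun_prop))))) (by fun_prop))
    (by fun_prop)

section small

variable {f : α → In}

theorem pj_pt (hf : PT f) : PT fun x => (pm (f x)).j := by unfold pm; fun_prop
theorem pj_pb (hf : PT f) : PB fun x => (pm (f x)).j := by unfold pm; fun_prop
theorem pk1_pt (hf : PT f) : PT fun x => (pm (f x)).k1 := by unfold pm; fun_prop
theorem pk1_pb (hf : PT f) : PB fun x => (pm (f x)).k1 := by unfold pm; fun_prop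
theorem pn_pt (hf : PT f) : PT fun x => (pm (f x)).n := by unfold pm; fun_prop
theorem pn_pb (hf : PT f) : PB fun x => (pm (f x)).n := by unfold pm; fun_prop
theorem pm_pt (hf : PT f) : PT fun x => (pm (f x)).m := by unfold pm; fun_prop
theorem pm_pb (hf : PT f) : PB fun x => (pm (f x)).m := by unfold pm; fun_prop
theorem pT_pt (hf : PT f) : PT fun x => (pm (f x)).T := by unfold pm; fun_prop
theorem pT_pb (hf : PT f) : PB fun x => (pm (f x)).T := by unfold pm; fun_prop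

attribute [local irreducible] pm

attribute [fun_prop] pj_pt pj_pb pk1_pt pk1_pb pn_pt pn_pb pm_pt pm_pb pT_pt pT_pb

@[fun_prop] theorem pR_pt (hf : PT f) : PT fun x => (pm (f x)).R Z := by unfold Pm.R; fun_prop
@[fun_prop] theorem pR_pb (hf : PT f) : PB fun x => (pm (f x)).R Z := by unfold Pm.R; fun_prop
@[fun_prop] theorem pg_pt (hf : PT f) : PT fun x => (pm (f x)).g := by unfold Pm.g; fun_prop
@[fun_prop] theorem ph_pt (hf : PT f) : PT fun x => (pm (f x)).h Z := by unfold Pm.h; fun_prop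
@[fun_prop] theorem ph_pb (hf : PT f) : PB fun x => (pm (f x)).h Z := by unfold Pm.h; fun_prop
@[fun_prop] theorem pJ_pt (hf : PT f) : PT fun x => (pm (f x)).J Z := by unfold Pm.J; fun_prop
@[fun_prop] theorem pJ_pb (hf : PT f) : PB fun x => (pm (f x)).J Z := by unfold Pm.J; fun_prop
@[fun_prop] theorem pa_pt (hf : PT f) : PT fun x => (pm (f x)).a Z := by unfold Pm.a; fun_prop
@[fun_prop] theorem pa_pb (hf : PT f) : PB fun x => (pm (f x)).a Z := by unfold Pm.a; fun_prop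
@[fun_prop] theorem pk_pt (hf : PT f) : PT fun x => (pm (f x)).k Z := by unfold Pm.k; fun_prop
@[fun_prop] theorem pk_pb (hf : PT f) : PB fun x => (pm (f x)).k Z := by unfold Pm.k; fun_prop
@[fun_prop] theorem pν_pt (hf : PT f) : PT fun x => (pm (f x)).ν Z := by unfold Pm.ν; fun_prop
@[fun_prop] theorem pν_pb (hf : PT f) : PB fun x => (pm (f x)).ν Z := by unfold Pm.ν; fun_prop
@[fun_prop] theorem pB_pt (hf : PT f) : PT fun x => (pm (f x)).B Z := by unfold Pm.B; fun_prop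
@[fun_prop] theorem pB_pb (hf : PT f) : PB fun x => (pm (f x)).B Z := by unfold Pm.B; fun_prop
@[fun_prop] theorem pcap_pt (hf : PT f) : PT fun x => (pm (f x)).cap Z := by
  unfold Pm.cap; fun_prop
@[fun_prop] theorem pcap_pb (hf : PT f) : PB fun x => (pm (f x)).cap Z := by
  unfold Pm.cap; fun_prop
@[fun_prop] theorem pb_pt (hf : PT f) : PT fun x => (pm (f x)).b Z := by unfold Pm.b; fun_prop
@[fun_prop] theorem pb_pb (hf : PT f) : PB fun x => (pm (f x)).b Z := by unfold Pm.b; fun_prop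
@[fun_prop] theorem pp_pt (hf : PT f) : PT fun x => (pm (f x)).p Z := by unfold Pm.p; fun_prop
@[fun_prop] theorem pW_pt (hf : PT f) : PT fun x => (pm (f x)).W := by unfold Pm.W; fun_prop
@[fun_prop] theorem pW_pb (hf : PT f) : PB fun x => (pm (f x)).W := by unfold Pm.W; fun_prop
@[fun_prop] theorem pa1_pt (hf : PT f) : PT fun x => (pm (f x)).a1 Z := by unfold Pm.a1; fun_prop
@[fun_prop] theorem pa1_pb (hf : PT f) : PB fun x => (pm (f x)).a1 Z := by unfold Pm.a1; fun_prop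
@[fun_prop] theorem pu_pt (hf : PT f) : PT fun x => (pm (f x)).u := by unfold Pm.u; fun_prop
@[fun_prop] theorem pu_pb (hf : PT f) : PB fun x => (pm (f x)).u := by unfold Pm.u; fun_prop
@[fun_prop] theorem pd_pt (hf : PT f) : PT fun x => (pm (f x)).d Z := by unfold Pm.d; fun_prop
@[fun_prop] theorem pA_pt (hf : PT f) : PT fun x => (pm (f x)).A Z := by unfold Pm.A; fun_prop
@[fun_prop] theorem pA_pb (hf : PT f) : PB fun x => (pm (f x)).A Z := by unfold Pm.A; fun_prop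
@[fun_prop] theorem pq_pt (hf : PT f) : PT fun x => (pm (f x)).q Z := by unfold Pm.q; fun_prop
@[fun_prop] theorem pa3_pt (hf : PT f) : PT fun x => (pm (f x)).a3 Z := by unfold Pm.a3; fun_prop
@[fun_prop] theorem pa3_pb (hf : PT f) : PB fun x => (pm (f x)).a3 Z := by unfold Pm.a3; fun_prop
@[fun_prop] theorem pL_pt (hf : PT f) : PT fun x => (pm (f x)).L Z := by unfold Pm.L; fun_prop
@[fun_prop] theorem pL_pb (hf : PT f) : PB fun x => (pm (f x)).L Z := by unfold Pm.L; fun_prop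
@[fun_prop] theorem pD_pt (hf : PT f) : PT fun x => (pm (f x)).D Z := by unfold Pm.D; fun_prop
@[fun_prop] theorem pD_pb (hf : PT f) : PB fun x => (pm (f x)).D Z := by unfold Pm.D; fun_prop
@[fun_prop] theorem pbk_pt (hf : PT f) : PT fun x => (pm (f x)).bk := by unfold Pm.bk; fun_prop
@[fun_prop] theorem pbk_pb (hf : PT f) : PB fun x => (pm (f x)).bk := by unfold Pm.bk; fun_prop
@[fun_prop] theorem pQ1_pt (hf : PT f) : PT fun x => (pm (f x)).Q1 Z := by unfold Pm.Q1; fun_prop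
@[fun_prop] theorem pQ2_pt (hf : PT f) : PT fun x => (pm (f x)).Q2 Z := by unfold Pm.Q2; fun_prop
@[fun_prop] theorem pQ3_pt (hf : PT f) : PT fun x => (pm (f x)).Q3 Z := by unfold Pm.Q3; fun_prop

theorem ar_pp (hf : PT f) : PP fun x => (pm (f x)).Ar Z := by unfold Pm.Ar; fun_prop

theorem fits_pp (hf : PT f) : PP fun x => (pm (f x)).Fits Z := by
  unfold Pm.Fits colEv; fun_prop

end small

section big

abbrev InF (Z : Cst) : Type := {x : In // (pm x).Fits Z}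

noncomputable def dF {Z : Cst} (x : InF Z) : DD := (pm x.1).dd Z x.1.2.1

variable {f : α → InF Z} {e : α → ℕ → ℕ}

theorem pb_of_le {t : InF Z → ℕ} (h : ∀ x, t x ≤ (pm x.1).T) (hf : PT f) : PB fun x => t (f x) :=
  (pT_pb hf.val).mono fun x => h (f x)

attribute [local irreducible] pm

@[fun_prop] theorem pack_pt {Q : α → ℕ} (hQ : PT Q) (hs : PT s) (hb : PB s)
    (he : PT fun z : α × ℕ => e z.1 z.2) : PT fun x => pack (Q x) (s x) (e x) := by
  have a1 : PB fun z : α × ℕ => s z.1 := hb.comp (by fun_prop)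
  unfold pack
  exact PT.sum (PT.map (he.mul (PT.pow (by fun_prop) (by fun_prop) a1.min_right)) (by fun_prop))

theorem dn_pt' (hf : PT f) : PT fun x => (dF (f x)).F.n := pn_pt hf.val
theorem dn_pb' (hf : PT f) : PB fun x => (dF (f x)).F.n := pn_pb hf.val
theorem dm_pt (hf : PT f) : PT fun x => (dF (f x)).F.m := pm_pt hf.val
theorem dm_pb (hf : PT f) : PB fun x => (dF (f x)).F.m := pm_pb hf.val
theorem dvar_pt (hf : PT f) (hi : PT i) (hj : PT j) :
    PT fun x => (dF (f x)).F.var (i x) (j x) := by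
  change PT (fun x => (lit ((f x).1.2.1.getD (i x) _) (j x)).1); fun_prop
theorem dsgn_pt (hf : PT f) (hi : PT i) (hj : PT j) :
    PT fun x => (dF (f x)).F.sgn (i x) (j x) := by
  change PT (fun x => (lit ((f x).1.2.1.getD (i x) _) (j x)).2); fun_prop
theorem dk_pt (hf : PT f) : PT fun x => (dF (f x)).F.G.k := pk_pt hf.val
theorem dk_pb (hf : PT f) : PB fun x => (dF (f x)).F.G.k := pk_pb hf.val
theorem dν_pt (hf : PT f) : PT fun x => (dF (f x)).F.G.ν := pν_pt hf.val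
theorem dν_pb (hf : PT f) : PB fun x => (dF (f x)).F.G.ν := pν_pb hf.val
theorem dQA_pt (hf : PT f) : PT fun x => (dF (f x)).F.G.QA := by
  change PT fun x => (pm (f x).1).p Z ^ (pm (f x).1).a Z; fun_prop
theorem dQS_pt (hf : PT f) : PT fun x => (dF (f x)).F.G.QS := by
  change PT fun x => (pm (f x).1).p Z ^ (pm (f x).1).J Z ^ (Z.t0 + 1); fun_prop
theorem dinc_pt (hf : PT f) (hi : PT i) (hj : PT j) :
    PT fun x => (dF (f x)).F.G.inc (i x) (j x) := by
  simp only [dF, Pm.dd, Pm.dat, xg]; fun_prop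
theorem droute_pt (hf : PT f) (hi : PT i) (hj : PT j) :
    PT fun x => (dF (f x)).F.G.route (i x) (j x) := by
  simp only [dF, Pm.dd, Pm.dat, xg]; fun_prop
theorem dev_pt (hf : PT f) (hi : PT i) (hj : PT j) (hl : PT l) :
    PT fun x => (dF (f x)).F.G.ev (i x) (j x) (l x) := by
  simp only [dF, Pm.dd, Pm.dat, xg, bE, skp]; fun_prop
theorem draw_pt (hf : PT f) (hi : PT i) (hj : PT j) :
    PT fun x => (dF (f x)).F.G.raw (i x) (j x) := by
  simp only [dF, Pm.dd, Pm.dat, xg]; fun_prop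
theorem dB_pt (hf : PT f) : PT fun x => (dF (f x)).B := pB_pt hf.val
theorem dB_pb (hf : PT f) : PB fun x => (dF (f x)).B := pB_pb hf.val
theorem dh_pt (hf : PT f) : PT fun x => (dF (f x)).h := ph_pt hf.val
theorem dh_pb (hf : PT f) : PB fun x => (dF (f x)).h := ph_pb hf.val
theorem du_pt (hf : PT f) : PT fun x => (dF (f x)).u := pu_pt hf.val
theorem du_pb (hf : PT f) : PB fun x => (dF (f x)).u := pu_pb hf.val
theorem dd_pt (hf : PT f) : PT fun x => (dF (f x)).d := pd_pt hf.val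
theorem dD_pt (hf : PT f) : PT fun x => (dF (f x)).D := pD_pt hf.val
theorem dD_pb (hf : PT f) : PB fun x => (dF (f x)).D := pD_pb hf.val
theorem dA_pt (hf : PT f) : PT fun x => (dF (f x)).A := pA_pt hf.val
theorem dA_pb (hf : PT f) : PB fun x => (dF (f x)).A := pA_pb hf.val
theorem dL_pt (hf : PT f) : PT fun x => (dF (f x)).L := pL_pt hf.val
theorem dL_pb (hf : PT f) : PB fun x => (dF (f x)).L := pL_pb hf.val
theorem dq_pt (hf : PT f) : PT fun x => (dF (f x)).q := pq_pt hf.val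
theorem dQ1_pt (hf : PT f) : PT fun x => (dF (f x)).Q1 := pQ1_pt hf.val
theorem dQ2_pt (hf : PT f) : PT fun x => (dF (f x)).Q2 := pQ2_pt hf.val
theorem dQ3_pt (hf : PT f) : PT fun x => (dF (f x)).Q3 := pQ3_pt hf.val
theorem dcol1_pt (hf : PT f) (hi : PT i) : PT fun x => (dF (f x)).col1 (i x) :=
  PT.listGetD (colr_pt (pp_pt hf.val) (pa_pt hf.val) (pa_pb hf.val) (pg_pt hf.val) (ph_pt hf.val)
    (ph_pb hf.val) (pQ1_pt hf.val) (pb_of_le (fun x => x.2.2.2.2.2.2.1) hf)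
    (pb_of_le (fun x => x.2.2.2.2.2.1) hf) (pb_of_le (fun x => x.2.2.2.2.2.2.2.1) hf)) hi
    (PT.const _)
theorem dq4_pb (hf : PT f) : PB fun x => (dF (f x)).q ^ (4 * (dF (f x)).u) :=
  pb_of_le (t := fun x => (dF x).q ^ (4 * (dF x).u)) (fun x => x.2.2.2.2.2.2.2.2.1) hf
theorem dcol2_pt (hf : PT f) (hi : PT i) : PT fun x => (dF (f x)).col2 (i x) :=
  PT.listGetD (colr_pt (pq_pt hf.val) (by fun_prop) (by fun_prop) (PT.const _) (pu_pt hf.val)
    (pu_pb hf.val) (pQ2_pt hf.val) (pb_of_le (fun x => x.2.2.2.2.2.2.2.2.2.1) hf)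
    (dq4_pb hf) (pb_of_le (fun x => x.2.2.2.2.2.2.2.2.2.2.1) hf)) hi (PT.const _)
theorem dcol3_pt (hf : PT f) (hi : PT i) : PT fun x => (dF (f x)).col3 (i x) :=
  PT.listGetD (colr_pt (pq_pt hf.val) (by fun_prop) (by fun_prop) (PT.const _) (ph_pt hf.val)
    (ph_pb hf.val) (pQ3_pt hf.val) (pb_of_le (fun x => x.2.2.2.2.2.2.2.2.2.2.2.2.1) hf)
    (pb_of_le (fun x => x.2.2.2.2.2.2.2.2.2.2.2.1) hf)
    (pb_of_le (fun x => x.2.2.2.2.2.2.2.2.2.2.2.2.2.1) hf)) hi (PT.const _)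
theorem dGn_pb (hf : PT f) : PB fun x => (dF (f x)).Gn :=
  pb_of_le (t := fun x => (dF x).Gn) (fun x => x.2.2.2.2.2.2.2.2.2.2.2.2.2.2.1) hf
theorem dN_pb (hf : PT f) : PB fun x => (dF (f x)).NL + (dF (f x)).NR :=
  pb_of_le (t := fun x => (dF x).NL + (dF x).NR) (fun x => x.2.2.2.2.2.2.2.2.2.2.2.2.2.2.2) hf
theorem dev1_pb (hf : PT f) : PB fun x => (dF (f x)).F.ev1 (pm (f x).1).j :=
  pb_of_le (t := fun x => (dF x).F.ev1 (pm x.1).j) (fun x => x.2.2.2.1) hf
theorem d4W_pb (hf : PT f) : PB fun x => 2 ^ (4 * (pm (f x).1).W) :=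
  pb_of_le (t := fun x => 2 ^ (4 * (pm x.1).W)) (fun x => x.2.2.2.2.1) hf
theorem do_eq (x : InF Z) (a : ℕ) : (dF x).o a =
    Dat.smp (pm x.1).W (((dF x).F.sample (dF x).B (pm x.1).j (pm x.1).W).getD a 0) := rfl

attribute [local irreducible] dF

attribute [fun_prop] dn_pt' dn_pb' dm_pt dm_pb dvar_pt dsgn_pt dk_pt dk_pb dν_pt dν_pb dQA_pt
  dQS_pt dinc_pt droute_pt dev_pt draw_pt dB_pt dB_pb dh_pt dh_pb du_pt du_pb dd_pt dD_pt dD_pb
  dA_pt dA_pb dL_pt dL_pb dq_pt dQ1_pt dQ2_pt dQ3_pt dcol1_pt dcol2_pt dcol3_pt dGn_pb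

@[fun_prop] theorem ddeg_pt (hf : PT f) (hi : PT i) : PT fun x => (dF (f x)).F.deg (i x) := by
  unfold Dat.deg; fun_prop
@[fun_prop] theorem ddn_pt (hf : PT f) (hi : PT i) : PT fun x => (dF (f x)).F.dn (i x) := by
  unfold Dat.dn; fun_prop
@[fun_prop] theorem doff_pt (hf : PT f) (hi : PT i) : PT fun x => (dF (f x)).F.off (i x) := by
  unfold Dat.off; fun_prop
@[fun_prop] theorem smp_pt (h1 : PT s) (h2 : PB s) (hi : PT i) (hj : PT j) :
    PT fun x => Dat.smp (s x) (i x) (j x) := by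
  unfold Dat.smp; fun_prop
@[fun_prop] theorem dcl_pt (hf : PT f) (h1 : PT s) (h2 : PB s) (hi : PT i) :
    PT fun x => (dF (f x)).F.cl (Dat.smp (s x) (i x)) := by
  unfold Dat.cl; fun_prop
@[fun_prop] theorem dyy_pt (hf : PT f) (h1 : PT s) (h2 : PB s) (hi : PT i) (hj : PT j) :
    PT fun x => (dF (f x)).F.yy (Dat.smp (s x) (i x)) (j x) := by
  unfold Dat.yy Dat.uu; fun_prop
@[fun_prop] theorem dbk_pt (hf : PT f) (hi : PT i) : PT fun x => (dF (f x)).F.bk (i x) := by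
  unfold Dat.bk; fun_prop
@[fun_prop] theorem dbk_pb (hf : PT f) : PB fun x => (dF (f x)).F.bk (i x) := by
  unfold Dat.bk; fun_prop
@[fun_prop] theorem dev1_pt (hf : PT f) (hi : PT i) : PT fun x => (dF (f x)).F.ev1 (i x) := by
  unfold Dat.ev1; fun_prop
@[fun_prop] theorem dInI_pp (hf : PT f) (hi : PT i) (hj : PT j) :
    PP fun x => (dF (f x)).F.InI (i x) (j x) := by
  unfold Dat.InI; fun_prop
@[fun_prop] theorem dHit_pp (hf : PT f) (hi : PT i) (hj : PT j) :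
    PP fun x => (dF (f x)).F.Hit (pm (f x).1).j (i x) (Dat.smp (pm (f x).1).W (j x)) := by
  unfold Dat.Hit; fun_prop
@[fun_prop] theorem dLh_pp (hf : PT f) (hi : PT i) (hj : PT j) (hl : PT l) :
    PP fun x => (dF (f x)).F.Lh (i x) (j x) (Dat.smp (pm (f x).1).W (l x)) := by
  unfold Dat.Lh; fun_prop

theorem dsample_pt (hf : PT f) :
    PT fun x => (dF (f x)).F.sample (dF (f x)).B (pm (f x).1).j (pm (f x).1).W := by
  unfold Dat.sample
  refine greedy_pt (by fun_prop) ((dev1_pb hf).add (by fun_prop)) (by fun_prop) (by fun_prop)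
    (by fun_prop) (d4W_pb hf) ?_ (by unfold Dat.sF; fun_prop)
  have a1 : PT fun z : α × ℕ => List.range (2 ^ (4 * (pm (f z.1).1).W)) :=
    PT.range (by fun_prop) (d4W_pb (by fun_prop))
  have a2 : PT fun z : α × ℕ => (List.range (2 ^ (4 * (pm (f z.1).1).W))).filter fun v =>
      @decide ((dF (f z.1)).F.Hit (pm (f z.1).1).j z.2 (Dat.smp (pm (f z.1).1).W v))
        (Classical.propDecidable _) := PT.filter (by fun_prop) a1
  unfold Dat.sC Dat.sX
  exact PT.ite (by fun_prop) (PT.pow (by fun_prop) (PT.div (PT.mul (by fun_prop) a2.length)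
    (by fun_prop)) (PB.div (PB.mul (by fun_prop) (PB.length a2)))) (by fun_prop)

attribute [local fun_prop] dsample_pt

@[fun_prop] theorem dy_pt (hf : PT f) (hi : PT i) : PT fun x => (dF (f x)).y (i x) := by
  simp only [DD.y, do_eq]; fun_prop
@[fun_prop] theorem dclo_pt (hf : PT f) (hi : PT i) :
    PT fun x => (dF (f x)).F.cl ((dF (f x)).o (i x)) := by
  simp only [do_eq]; fun_prop
@[fun_prop] theorem dnq_pt (hf : PT f) : PT fun x => (dF (f x)).nq := by unfold DD.nq; fun_prop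
@[fun_prop] theorem dnq_pb (hf : PT f) : PB fun x => (dF (f x)).nq := by unfold DD.nq; fun_prop
@[fun_prop] theorem dcell_pt (hf : PT f) (hi : PT i) : PT fun x => (dF (f x)).cell (i x) := by
  unfold DD.cell DD.cls; fun_prop
@[fun_prop] theorem drd_pt (hf : PT f) (hi : PT i) (hj : PT j) (hl : PT l) :
    PT fun x => (dF (f x)).rd (i x) (j x) (l x) := by
  unfold DD.rd DD.slot; fun_prop
@[fun_prop] theorem dvalid_pp (hf : PT f) (hi : PT i) (hj : PT j) :
    PP fun x => (dF (f x)).Valid (i x) (j x) := by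
  unfold DD.Valid; fun_prop
@[fun_prop] theorem dcl2_pt (hf : PT f) (hi : PT i) : PT fun x => (dF (f x)).cl2 (i x) := by
  unfold DD.cl2
  exact PT.filter (by fun_prop) (PT.range (by fun_prop) (dq4_pb hf))
@[fun_prop] theorem dpev_pt (hf : PT f) (hi : PT i) (hj : PT j) :
    PT fun x => pev (dF (f x)).q (dF (f x)).D (dF (f x)).A (i x) (j x) := by
  unfold pev; fun_prop
@[fun_prop] theorem dadj_pp (hf : PT f) (hi : PT i) (hj : PT j) (hl : PT l) :
    PP fun x => (dF (f x)).AdjLR (i x) (j x) (l x) := by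
  unfold DD.AdjLR KeptR AdjT blkv; fun_prop
@[fun_prop] theorem dNL_pt (hf : PT f) : PT fun x => (dF (f x)).NL := by unfold DD.NL; fun_prop
@[fun_prop] theorem dNR_pt (hf : PT f) : PT fun x => (dF (f x)).NR := by unfold DD.NR; fun_prop
@[fun_prop] theorem dmat_pt (hf : PT f) (hi : PT i) : PT fun x => (dF (f x)).mat (i x) := by
  unfold DD.mat bAdj
  exact PT.map (PT.map (by fun_prop) (PT.range (by fun_prop) (dN_pb (by fun_prop))))
    (PT.range (by fun_prop) (dN_pb hf))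
@[fun_prop] theorem dGn_pt (hf : PT f) : PT fun x => (dF (f x)).Gn := by unfold DD.Gn; fun_prop

theorem verdict_pt {sim : Sim} (hs : PT sim) :
    PT fun x : InF Z => (dF x).verdict sim x.1.2.2 := by
  have a1 : PT fun z : InF Z × ℕ => (dF z.1).run sim z.1.1.2.2 z.2 :=
    hs.comp' (f := fun z : InF Z × ℕ => (enc ((dF z.1).mat z.2, (dF z.1).F.G.k), z.1.1.2.2))
      (by fun_prop)
  unfold DD.verdict
  exact PT.ite (PP.forall_lt (by fun_prop) (by fun_prop) (PP.eq a1.isSome (PT.const _)))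
    (PT.some' (PT.decide (PP.exists_lt (by fun_prop) (by fun_prop)
      (ver_pp (by fun_prop) (by fun_prop) (a1.getD (PT.const _)))))) (PT.const _)

end big

theorem cand_pt {sim : Sim} (hs : PT sim) : PT (cand Z sim) := by
  classical
  refine PT.split (c := fun x : In => decide ((pm x).Ar Z ∧ (pm x).Fits Z))
    (PT.decide ((ar_pp PT.id').and (fits_pp PT.id'))) fun b => ?_
  cases b
  · exact (PT.const none).of_eq fun x => if_neg (of_decide_eq_false x.2)
  · exact ((verdict_pt hs).comp' (PT.subtypeMk (PT.id'.restrict _)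
      fun x => (of_decide_eq_true x.2).2)).of_eq fun x => if_pos (of_decide_eq_true x.2)

theorem stage_pt {sim : Sim} (hs : PT sim) : PT (stage Z sim) := by
  unfold stage Brute
  exact PT.ite (by fun_prop) (by fun_prop) (PT.ite (by fun_prop) (PT.head? (PT.filterMap
    ((cand_pt hs).comp' (by fun_prop)) (by fun_prop))) (PT.const _))

end pt

end Pool.Agent.MP_a2da35_lc
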