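import Pool.Agent.MP_a2da35_lc.Defs

namespace Pool.Agent.MP_a2da35_lc

open Turing N487b59b3 Filter Topology

/-- On every 3-CNF formula with `n` variables (a list of distinct clauses) the machine halts
within `T n` steps with a one bit answer, which is `1` for satisfiable formulas and `0` for
formulas in which every assignment violates more than an `ε` fraction of the clauses. -/
def Distinguishes (M : TM2ComputableAux Bool Bool) (ε : ℝ) (T : ℕ → ℝ) : Prop :=
  ∀ (n : ℕ) (φ : List Clause), OnVars n φ → φ.Nodup →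
    ∃ b : Bool, Runs M (bitEncode (n, φ)) [b] (T n) ∧
      (Satisfiable φ → b = true) ∧ (Far ε φ → b = false)

/-- Gap-ETH: for some `ε > 0` no `2 ^ o(n)` time algorithm distinguishes the two cases. -/
def DetGapETH : Prop :=
  ∃ ε : ℝ, 0 < ε ∧ ¬ ∃ (M : TM2ComputableAux Bool Bool) (h : ℕ → ℝ),
    Tendsto (fun n : ℕ => h n / n) atTop (𝓝 0) ∧ Distinguishes M ε (fun n => 2 ^ h n)

/-- On every bipartite graph on `N ≥ 1` vertices and every `k ≥ 1` the machine halts within `T N k`
steps, and if the graph contains `K_{k,k}` its output marks a copy of `K_{a,a}`, `a ≥ k / c`. -/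
def DetApproximates (M : TM2ComputableAux Bool Bool) (c : ℝ) (T : ℕ → ℕ → ℝ) : Prop :=
  ∀ (N : ℕ) (G : SimpleGraph (Fin N)) (k : ℕ), 0 < N → 0 < k → G.IsBipartite →
    ∃ y, Runs M (bitEncode (Lib.Cx.adjRows G, k)) y (T N k) ∧
      ((completeBipartiteGraph (Fin k) (Fin k)).IsContained G → Marks G k c y)

end Pool.Agent.MP_a2da35_lc
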